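import Pool.Agent.CRQ.St
import Pool.Agent.CRP.Cen
import Pool.Agent.CRP.Typ
import Pool.Agent.CRM.All

/-!
Campaign CRQ, module Cfr: the frames of a central local ring.
-/

set_option autoImplicit false

namespace Pool.Agent.CRQ

open Pool.Agent.CRR Pool.Agent.CRN Pool.Agent.CRK Pool.Agent.CRL Pool.Agent.CRM Pool.Agent.CRP

theorem Cfr_mul {R : Type} [NonUnitalRing R] {x y : R} (hx : ∀ r, x * r = r * x) (m : ℕ) :
    pw (x * y) m = pw x m * pw y m := by
  induction m with
  | zero => rfl
  | succ m ih =>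
    show pw (x * y) m * (x * y) = pw x m * x * (pw y m * y)
    rw [ih]
    calc pw x m * pw y m * (x * y) = pw x m * (pw y m * x) * y := by simp only [mul_assoc]
      _ = pw x m * (x * pw y m) * y := by rw [hx]
      _ = pw x m * x * (pw y m * y) := by simp only [mul_assoc]

theorem Cfr_te {R : Type} [NonUnitalRing R] {e t : R} (h1 : ∀ x : R, e * x = x ∧ x * e = x)
    (k m : ℕ) : pw (te e t k) m = te e t (k * (m + 1)) := by
  induction m with
  | zero =>
    show te e t k = te e t (k * (0 + 1))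
    rw [zero_add, mul_one]
  | succ m ih =>
    show pw (te e t k) m * te e t k = _
    rw [ih, ← Typ_te_add h1, Nat.mul_succ k (m + 1)]

theorem Cfr_key {n p N : ℕ} {R : Type} [NonUnitalRing R] [Finite R] {e t t' : R}
    (h : Lfr n p N e t) (h' : Lfr n p N e t') (hc : ∀ r, t * r = r * t)
    (hc' : ∀ r, t' * r = r * t') : ∃ k, t' = pw t k := by
  have hid := h.one
  have hom : om n t = e := by
    obtain ⟨N', _, _, _, _, hall⟩ := thm_Tyn n p R h.cy e h.prm hid
    exact (hall t h.fr).1
  have hnn : ¬ Nl t' := ((fpr n p R h.cy 1 (fun _ => t') h'.fr).2.1 0).2.2.1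
  rcases h.fr.gen 0 t' (by rw [hom]; exact (hid t').1) (by rw [hom]; exact (hid t').2) with h1 | h1
  · exact absurd h1 hnn
  obtain ⟨k, hk⟩ := h1
  refine ⟨k, ?_⟩
  have hN := h.n1
  -- the power and its inverse
  have hw : pw t k = te e t (k + 1) := by
    have := Cfr_te hid (t := t) 1 k
    rw [one_mul] at this
    rw [← this]
    congr 1
    show t = t * e
    exact (hid t).2.symm
  obtain ⟨v, hv⟩ : ∃ v, v = te e t ((N - 1) * (k + 1)) := ⟨_, rfl⟩
  have hcv : ∀ r, v * r = r * v := by
    have key : ∀ j r, te e t j * r = r * te e t j := by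
      intro j
      induction j with
      | zero => exact fun r => by rw [te, (hid r).1, (hid r).2]
      | succ j ih =>
        intro r
        show t * te e t j * r = r * (t * te e t j)
        rw [mul_assoc, ih, ← mul_assoc, hc, mul_assoc]
    rw [hv]
    exact key _
  have hwv : pw t k * v = e := by
    rw [hw, hv, ← Typ_te_add hid]
    have : k + 1 + (N - 1) * (k + 1) = (k + 1) * N := by
      obtain ⟨M, rfl⟩ : ∃ M, N = M + 1 := ⟨N - 1, by omega⟩
      rw [Nat.add_sub_cancel]
      ring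
    rw [this]
    exact Typ_te_mulN hid N (Typ_teN h) (k + 1)
  obtain ⟨j, hj⟩ : ∃ j, j = (t' - pw t k) * v := ⟨_, rfl⟩
  have hjn : j * j * j = 0 := by
    have h3 : (t' - pw t k) * (t' - pw t k) * (t' - pw t k) = 0 := hk
    rw [hj]
    have e1 : (t' - pw t k) * v * ((t' - pw t k) * v) * ((t' - pw t k) * v) =
        (t' - pw t k) * (t' - pw t k) * (t' - pw t k) * (v * v * v) := by
      have a1 : ∀ a : R, a * v * (a * v) * (a * v) = a * a * a * (v * v * v) := by
        intro a
        calc a * v * (a * v) * (a * v) = a * (v * a) * (v * (a * v)) := by simp only [mul_assoc]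
          _ = a * (a * v) * (a * v * v) := by rw [hcv a, hcv (a * v)]
          _ = a * a * (v * a) * (v * v) := by simp only [mul_assoc]
          _ = a * a * (a * v) * (v * v) := by rw [hcv a]
          _ = a * a * a * (v * v * v) := by simp only [mul_assoc]
      exact a1 _
    rw [e1, h3, zero_mul]
  have hg : t' * v = e + j := by
    rw [hj, sub_mul, hwv]
    abel
  have hpow : pw (e + j) (N - 1) = e := by
    rw [← hg, Cfr_mul hc', h'.pn, (hid _).1, hv, Cfr_te hid]
    have : (N - 1) * (k + 1) * (N - 1 + 1) = ((N - 1) * (k + 1)) * N := by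
      rw [Nat.sub_add_cancel hN]
    rw [this]
    exact Typ_te_mulN hid N (Typ_teN h) ((N - 1) * (k + 1))
  have hb := Cnj_bin (hid e).1 (hid j).1 (hid j).2 hjn (N - 1)
  rw [hpow, Nat.sub_add_cancel hN, add_assoc] at hb
  have hb0 : N • j + N.choose 2 • (j * j) = 0 := left_eq_add.1 hb
  obtain ⟨r, hr⟩ := h.cy.pr
  have cop : ∀ x : R, N • x = 0 → x = 0 := by
    intro x hx
    have h1 : addOrderOf x ∣ N := addOrderOf_dvd_iff_nsmul_eq_zero.2 hx
    have h2 : addOrderOf x ∣ p ^ r := addOrderOf_dvd_iff_nsmul_eq_zero.2 (hr x)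
    have h3 : addOrderOf x ∣ 1 := by
      rw [← Nat.Coprime.gcd_eq_one (Nat.Coprime.pow_right r h.np)]
      exact Nat.dvd_gcd h1 h2
    exact AddMonoid.addOrderOf_eq_one_iff.1 (Nat.dvd_one.1 h3)
  have hb1 : N • (j * j) = 0 := by
    have h1 : (N • j + N.choose 2 • (j * j)) * j = 0 := by rw [hb0, zero_mul]
    rw [add_mul, smul_mul_assoc, smul_mul_assoc, hjn, smul_zero, add_zero] at h1
    exact h1
  have hb2 := cop _ hb1
  rw [hb2, smul_zero, add_zero] at hb0
  have hb3 := cop _ hb0
  rw [hb3, add_zero] at hg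
  calc t' = t' * e := (hid t').2.symm
    _ = t' * (v * pw t k) := by rw [hcv, hwv]
    _ = t' * v * pw t k := (mul_assoc _ _ _).symm
    _ = pw t k := by rw [hg, (hid _).1]

theorem Cfr_pw {R : Type} [NonUnitalRing R] {t : R} {A : NonUnitalSubring R} (h : t ∈ A) (k : ℕ) :
    pw t k ∈ A := by
  induction k with
  | zero => exact h
  | succ k ih => exact A.mul_mem ih h

theorem thm_Cfr : St_Cfr := by
  intro n p N R _ _ e t₀ h t ht
  have hC := h.fr.cy
  obtain ⟨N', hN1, _, hNp, _, hall⟩ := thm_Tyn n p R hC e h.fr.prm h.fr.one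
  have hL' : ∀ t, Frame R n 1 (fun _ => t) → Lfr n p N' e t := fun t ht =>
    { cy := hC
      prm := h.fr.prm
      one := h.fr.one
      fr := ht
      n1 := hN1
      np := hNp
      pn := (hall t ht).2.1
      un := (hall t ht).2.2 }
  have hNN : N' = N := le_antisymm (Cen_le (hL' t₀ h.fr.fr) h.fr) (Cen_le h.fr (hL' t₀ h.fr.fr))
  subst hNN
  have hL := hL' t ht
  have hcen : ∀ r, t * r = r * t := by
    intro r
    obtain ⟨θ, π, hθ⟩ := cnj n p R hC 1 (fun _ => t₀) (fun _ => t) h.fr.fr ht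
    obtain ⟨⟨k, hk⟩, _⟩ := hθ 0
    apply θ.injective
    rw [map_mul, map_mul, hk]
    exact Cen_comm_pw (h.cen _) k
  obtain ⟨k, hk⟩ := Cfr_key h.fr hL h.cen hcen
  obtain ⟨l, hl⟩ := Cfr_key hL h.fr hcen h.cen
  refine ⟨hL, hcen, ⟨k, hk⟩, ⟨l, hl⟩, fun S => le_antisymm ?_ ?_⟩
  · rw [NonUnitalSubring.closure_le]
    rintro x (hx | hx)
    · rw [Set.mem_singleton_iff.1 hx, hk]
      exact Cfr_pw (NonUnitalSubring.subset_closure
        (Set.mem_union_left S (Set.mem_singleton t₀))) k
    · exact NonUnitalSubring.subset_closure (Or.inr hx)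
  · rw [NonUnitalSubring.closure_le]
    rintro x (hx | hx)
    · rw [Set.mem_singleton_iff.1 hx, hl]
      exact Cfr_pw (NonUnitalSubring.subset_closure
        (Set.mem_union_left S (Set.mem_singleton t))) l
    · exact NonUnitalSubring.subset_closure (Or.inr hx)

end Pool.Agent.CRQ
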