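import Pool.Agent.CRQ.Defs

/-!
Campaign CRQ (problem MP_1bb14d_al, stage 6): all critical rings of order prime to 6 in the varieties `x^3 = x^n`,
explicit list.  Frozen statements.

Every module `Pool/Agent/CRQ/<X>.lean` imports this file (and `Pool.Agent.CRM.All`, modules of CRP, if their theorems
are used) and proves `theorem thm_<X> : St_<X>`; the hypotheses (other statements `St_<Y>` of this file) named in the
docstring may be used as arguments (`theorem thm_<X> (hY : St_<Y>) : St_<X>`).  Own lemmas have names which start with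
the name of the module.  The docstrings contain the proofs.  All theorems of the campaigns CRN, CRK, CRL, CRM are
proved (`CRK/All.lean`: `CRK.ida`, `CRK.idb`, `CRK.idc`, `CRK.idd`, `CRK.ide`, `CRK.sxb`, `CRK.mlt`, `CRK.thm_Bas`, `thm_Wia`,
`thm_Wib`, `thm_Wic`, `thm_Wid`, `thm_Ptb`; `CRL/All.lean`, `CRM/All.lean`; of CRP: `CRP.thm_Typ` and others).

Part A is part C and D of the campaign CRK with coefficients in a commutative ring `K` (acting on the ring `A`) in
the place of the integers: the proofs of the files `CRK/<Y>.lean` can be copied and adapted (the integer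
multiples `c σ • w` become multiples with `c σ : K`; `K` has integers, `((m : ℤ) : K) • x = m • x`).

Notation: `P a b c = abc + acb + bac + bca + cab + cba = 0`, `Q x y = xxy + xyx + yxx = 0` in `A` (`CRK.ida`).
-/

set_option autoImplicit false

namespace Pool.Agent.CRQ

open Pool.Agent.CRR Pool.Agent.CRN Pool.Agent.CRK Pool.Agent.CRL Pool.Agent.CRM Pool.Agent.CRP

/-! ### Part A: the case analysis with coefficients -/

/-- **KXA.**  As `CRK.thm_Exa`, `CRK.thm_Exb`, `CRK.thm_Exc` (files `CRK/Exa.lean`, `Exb.lean`, `Exc.lean`) with `K` in the place of `ℤ`. -/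
def St_Kxa : Prop := ∀ (K : Type) [CommRing K] (A : Type) [NonUnitalRing A] [Module K A]
  [IsScalarTower K A A] [SMulCommClass K A A], N6 A →
  (∀ φ : (Fin 3 → A) → A, KML K 3 φ →
    ∃ a b c : K, ∀ x y, φ ![x, x, y] = a • (x * x * y) + b • (x * y * x) + c • (y * x * x)) ∧
  (∀ φ : (Fin 4 → A) → A, KML K 4 φ →
    (∃ m : K, ∀ x y, φ ![x, x, x, y] = m • (x * x * y * x)) ∧
    ∃ a b : K, ∀ x y, φ ![x, x, y, y] = a • (x * x * y * y) + b • (x * y * x * y)) ∧
  ∀ φ : (Fin 5 → A) → A, KML K 5 φ →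
    (∀ x y, φ ![x, x, x, x, y] = 0) ∧
    ∃ m : K, ∀ x y, φ ![x, x, x, y, y] = m • (x * x * y * x * y)

/-- **KXB.**  As `CRK.thm_Exd`, `CRK.thm_Exe` (files `CRK/Exd.lean`, `Exe.lean`) with `K` in the place of `ℤ`. -/
def St_Kxb : Prop := ∀ (K : Type) [CommRing K] (A : Type) [NonUnitalRing A] [Module K A]
  [IsScalarTower K A A] [SMulCommClass K A A], N6 A → ∀ φ : (Fin 5 → A) → A, KML K 5 φ →
  (∃ a b : K, ∀ x y z, φ ![x, x, x, y, z] = a • (x * x * y * x * z) + b • (x * x * z * x * y)) ∧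
  ∃ a b c : K, ∀ x y z, φ ![x, x, y, y, z] =
    a • (x * x * y * y * z) + b • (x * y * x * y * z) + c • (x * y * z * x * y)

/-- **KLT.**  As `CRK.thm_Alt` (file `CRK/Alt.lean`) with `K` in the place of `ℤ`. -/
def St_Klt : Prop := ∀ (K : Type) [CommRing K] (A : Type) [NonUnitalRing A] [Module K A]
  [IsScalarTower K A A] [SMulCommClass K A A] (b : ℕ) (φ : (Fin b → A) → A), KML K b φ →
  (∀ (x : Fin b → A) (i j : Fin b), i ≠ j → x i = x j → φ x = 0) →
  ∃ m : K, ∀ x, (b.factorial : ℤ) • φ x = m • stp x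

/-- **KOA.**  As `CRK.thm_Hoa` (files `CRK/Hoa.lean`, `HoaA.lean`) with `K` in the place of `ℤ`. -/
def St_Koa : Prop := ∀ (K : Type) [CommRing K] (A : Type) [NonUnitalRing A] [Module K A]
  [IsScalarTower K A A] [SMulCommClass K A A], N6 A → ∀ φ : (Fin 4 → A) → A, KML K 4 φ →
  (∀ (a : Fin 2 → A) (j : Fin 4 → Fin 2), φ (fun t => a (j t)) = 0) →
  ∃ c : Fin 4 → K, ∀ x y z, (8 : ℤ) • φ ![x, x, y, z] = ∑ j, c j • Wi j x ![x, y, z]

/-- **KWA.**  The alternating sums of the words with two `x` and `a_0, a_1, a_2`.  PROOF.  Let `A_ij`, `i < j ≤ 4`, be the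
alternating sum of the words with `x` at the positions `i, j`, so `W2 i j` is `A_i(j+1)` for `i ≤ j` and `A_ji` for `j < i`.
The alternating sums (over the orders of `a_0 a_1 a_2`, written `a b c`) of the following relations:
(R1) `(Q x a) b c`: `A01 + A02 + A12 = 0`; (R2) `(Q x (ab)) c`: `A01 + A03 + A23 = 0`; (R3) `Q x (abc)`: `A01 + A04 + A34 = 0`;
(R8) `x (P x a (bc))`: `2 A01 + A02 + A03 + 2 A04 = 0`; (R15) `a (Q x b) c`: `A12 + A13 + A23 = 0`; (R16) `a (Q x (bc))`:
`A12 + A14 + A34 = 0`; (R19) `a b (Q x c)`: `A23 + A24 + A34 = 0`; (R13) `P (xa) (bx) c`: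
`A03 - A04 - A12 + A13 + A14 - A23 = 0`.  By R1, R2, R3, R8, R15, R16, R19: `A12 = - A01 - A02`, `A23 = - A01 - A03`,
`A34 = - A01 - A04`, `A03 = - 2 A01 - A02 - 2 A04`, `A13 = 2 A01 + A02 + A03 = - 2 A04`, `A14 = 2 A01 + A02 + A04`,
`A24 = 2 A01 + A03 + A04`, and R13 becomes `- 6 A04 = 0`.  So `A04 = A13 = 0`, `A03 = - 2 A01 - A02`, `A14 = 2 A01 + A02`,
`A23 = A01 + A02`, `A24 = - A02`, `A34 = - A01`, `A12 = - A01 - A02`.  `A01 = x x s_3(a)`; `x s_4(x, a) = A01 - A02 + A03 - A04 =
- A01 - 2 A02`.  So `2 A01 = 2 x x s_3`, `2 A02 = - x s_4 - x x s_3`, and all `2 A_ij` are combinations of these two. -/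
def St_Kwa : Prop := ∀ (A : Type) [NonUnitalRing A], N6 A → ∀ (i : Fin 5) (j : Fin 4),
  ∃ α β : ℤ, ∀ (x : A) (a : Fin 3 → A), (2 : ℤ) • W2 i j x a =
    α • (x * stp (Fin.cons x a : Fin 4 → A)) + β • (x * x * stp a)

/-- **KTA.**  As `CRK.thm_Pta` with `K` in the place of `ℤ`. -/
def St_Kta : Prop := ∀ (K : Type) [CommRing K] (A : Type) [NonUnitalRing A] [Module K A]
  (b : ℕ) (φ : (Fin b → A) → A) (π : Equiv.Perm (Fin b)), KML K b φ →
  KML K b (fun x => φ (fun t => x (π t)))

/-- **KCA.**  As `CRK.thm_Csa` with `K` in the place of `ℤ`. -/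
def St_Kca : Prop := ∀ (K : Type) [CommRing K] (A : Type) [NonUnitalRing A] [Module K A]
  [IsScalarTower K A A] [SMulCommClass K A A], N6 A → ∀ (b : ℕ) (φ : (Fin b → A) → A),
  1 ≤ b → KFn K b 1 φ → KOut K b 1 φ

/-- **KCB** (from `St_Klt`).  `b = g`.  PROOF.  `b ≤ 4`: as `CRK.thm_Csb` with `K` in the place of `ℤ`.  `b = 5`: `φ` is alternating.
`24 φ(x_0, .., x_4) = ∑_π sign π φ(x_0, x_π1, .., x_π4)`, the sum over the permutations of `1, .., 4`, and for every word of `φ`
(with `x_0` at a position `j`) the alternating sum is `± Wi j x_0 (x_1, .., x_4)`; so `24 φ x = ∑_j c_j Wi j x_0 (x_1..x_4)`.  By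
`CRK.thm_Wic`, `CRK.thm_Wid` this is `(c_0 - 2 c_2 + c_4) x_0 s_4(x_1, .., x_4)`: the sixth item of `KFun` with `i = 0`, `j k = k + 1`,
`N = 24` (and the map `id`). -/
def St_Kcb : Prop := ∀ (K : Type) [CommRing K] (A : Type) [NonUnitalRing A] [Module K A]
  [IsScalarTower K A A] [SMulCommClass K A A], N6 A → ∀ (b : ℕ) (φ : (Fin b → A) → A),
  1 ≤ b → b ≤ 5 → KFn K b b φ → KOut K b b φ

/-- **KCC** (from `St_Kxa`).  As `CRK.thm_Csc` with `K` in the place of `ℤ`. -/
def St_Kcc : Prop := ∀ (K : Type) [CommRing K] (A : Type) [NonUnitalRing A] [Module K A]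
  [IsScalarTower K A A] [SMulCommClass K A A], N6 A → ∀ φ : (Fin 3 → A) → A,
  KFp K 3 2 ![0, 0, 1] φ → KOut K 3 2 φ

/-- **KCD** (from `St_Kxa`).  As `CRK.thm_Csd`, `CRK.thm_Cse` with `K` in the place of `ℤ`. -/
def St_Kcd : Prop := ∀ (K : Type) [CommRing K] (A : Type) [NonUnitalRing A] [Module K A]
  [IsScalarTower K A A] [SMulCommClass K A A], N6 A →
  (∀ φ : (Fin 4 → A) → A, (KFp K 4 2 ![0, 0, 0, 1] φ → KOut K 4 2 φ) ∧
    (KFp K 4 2 ![0, 0, 1, 1] φ → KOut K 4 2 φ)) ∧
  ∀ φ : (Fin 5 → A) → A, (KFp K 5 2 ![0, 0, 0, 0, 1] φ → KOut K 5 2 φ) ∧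
    (KFp K 5 2 ![0, 0, 0, 1, 1] φ → KOut K 5 2 φ)

/-- **KCF** (from `St_Koa`).  As `CRK.thm_Csf` with `K` in the place of `ℤ`. -/
def St_Kcf : Prop := ∀ (K : Type) [CommRing K] (A : Type) [NonUnitalRing A] [Module K A]
  [IsScalarTower K A A] [SMulCommClass K A A], N6 A → ∀ φ : (Fin 4 → A) → A,
  KFp K 4 3 ![0, 0, 1, 2] φ → KOut K 4 3 φ

/-- **KCG** (from `St_Kwa`).  PROOF.  `f x a = φ (x, x, a_0, a_1, a_2)` is additive in the `a_i` and zero if two of them are equal (`KFp.van`), so
`6 f x a = ∑_π sign π f x (a ∘ π)`.  For every word of `φ` with the two arguments `x` at two positions the alternating sum is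
`± W2 i j x a`; so `6 f x a` is a `K`-combination of the `W2 i j x a`, and by `St_Kwa`
`12 f x a = α (x s_4(x, a)) + β (x x s_3(a))`, `α, β ∈ K`: the seventh item of `KFun` with `i = 0`, `j k = k + 1`, `N = 12`, and the
map `![0, 0, 1, 2, 3]`. -/
def St_Kcg : Prop := ∀ (K : Type) [CommRing K] (A : Type) [NonUnitalRing A] [Module K A]
  [IsScalarTower K A A] [SMulCommClass K A A], N6 A → ∀ φ : (Fin 5 → A) → A,
  KFp K 5 4 ![0, 0, 1, 2, 3] φ → KOut K 5 4 φ

/-- **KCH** (from `St_Kxb`).  As `CRK.thm_Csh` with `K` in the place of `ℤ`. -/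
def St_Kch : Prop := ∀ (K : Type) [CommRing K] (A : Type) [NonUnitalRing A] [Module K A]
  [IsScalarTower K A A] [SMulCommClass K A A], N6 A → ∀ φ : (Fin 5 → A) → A,
  KFp K 5 3 ![0, 0, 0, 1, 2] φ → KOut K 5 3 φ

/-- **KCI** (from `St_Kxb`).  As `CRK.thm_Csi` with `K` in the place of `ℤ`. -/
def St_Kci : Prop := ∀ (K : Type) [CommRing K] (A : Type) [NonUnitalRing A] [Module K A]
  [IsScalarTower K A A] [SMulCommClass K A A], N6 A → ∀ φ : (Fin 5 → A) → A,
  (∀ x y z, φ ![x, x, x, y, z] = 0 ∧ φ ![x, x, y, x, z] = 0) →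
  KFp K 5 3 ![0, 0, 1, 1, 2] φ → False

/-- **KCS** (from `St_Kta`, `St_Kca`, `St_Kcb`, `St_Kcc`, `St_Kcd`, `St_Kcf`, `St_Kcg`, `St_Kch`, `St_Kci`).  As `CRK.thm_Cas` with
`K` in the place of `ℤ` and without `T5`. -/
def St_Kcs : Prop := ∀ (K : Type) [CommRing K] (A : Type) [NonUnitalRing A] [Module K A]
  [IsScalarTower K A A] [SMulCommClass K A A], N6 A → ∀ (b g : ℕ)
  (φ : (Fin b → A) → A), 1 ≤ b → b ≤ 5 → KFn K b g φ → KOut K b g φ

/-! ### Part B: nilpotent rings -/

/-- **NTF** (from `St_Kcs`).  PROOF.  As `CRK.thm_Fwn`: `CRK.mlt`, `CRK.thm_Bas` give `Gm H b φ`, `z`, `Fn b g φ` (so `KFn ℤ b g φ`, `ML` is `KML ℤ`;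
`n • x` for `n : ℤ` is the module structure), `St_Kcs` gives `f x = N • φ (x ∘ i)`.  `p, r` from `CRN.thm_Ppw`.  Values in `H`.  `φ` is
additive in every variable, zero if an argument is in `Sq R` and if it is `p • a` (`CRK.thm_Phz`), so zero if an argument is in
`KJ R p`, so `f x = f y` if all `x i - y i ∈ KJ R p`.  If `x i = x j`, `i ≠ j`, then the arguments of `φ` take less than `g` values. -/
def St_Ntf : Prop := ∀ (R : Type) [NonUnitalRing R] [Finite R], (∀ x : R, x * x * x = 0) →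
  (Nat.card R).Coprime 6 → Critical R → NilT R

/-- **KDP.**  PROOF.  Let `λ l` be invertible in `K` modulo an element which kills `f` - here: a relation
`x l = ∑_(k ≠ l) μ k x k`.  (`f` is zero if two arguments are equal; `s_g` is `K`-multilinear and alternating.)
Items 1 to 5: as `CRK.thm_Dpz` (with `K` in the place of `ℤ`).  Item 6: `f` is additive and `K`-homogeneous in every argument, so
`f x = ∑ μ k f (x[l := x k]) = 0`.  Item 7, `l ≠ i`: the same (if `l ≠ i` then `f` is additive in `x l`: `s_4(x)` and `s_3` are). -/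
def St_Kdp : Prop := ∀ (K : Type) [CommRing K] (A : Type) [NonUnitalRing A] [Module K A]
  [IsScalarTower K A A] [SMulCommClass K A A], (∀ x : A, x * x * x = 0) →
  ∀ (g : ℕ) (f : (Fin g → A) → A), KFun K g f →
  (∀ (x : Fin g → A) (i j : Fin g), i ≠ j → x i = x j → f x = 0) →
  (∀ (x : Fin g → A) (k : Fin g), x k = 0 → f x = 0) ∧
  ∃ l₀ : Fin g → Prop, (∀ i j, ¬ l₀ i → ¬ l₀ j → i = j) ∧
    ∀ (x : Fin g → A) (l : Fin g) (μ : Fin g → K), l₀ l → μ l = 0 →
      x l = ∑ k, μ k • x k → f x = 0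

/-- **NTB** (from `St_Kdp`).  PROOF.  `R` is nilpotent, `Cy R 4 p` (as in `CRM/Nfb.lean`); `p ≠ 2, 3`.  Claim: if the `x i` do not generate `R` then `f x = 0`.
As in `CRM.thm_Nfb` there is a nontrivial relation: integers `λ k`, not all divisible by `p`, with `∑ λ k • x k ∈ KJ R p` (some
`x j ∈ M_j`).  If `λ l` is prime to `p` for some `l` with `l₀ l` (`St_Kdp` for `K = ℤ`): multiply with an inverse modulo `p`:
`x l - ∑_(k ≠ l) μ k • x k ∈ KJ R p`; replace `x l` (invariance) and use `St_Kdp`.  Otherwise only one `λ l` is prime to `p`, and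
`x l ∈ KJ R p` (`p • R ⊆ KJ`), so `f x = f (x[l := 0]) = 0`.  `g` is the minimal number of generators: if `k < g` elements generate
then `|R| ≤ p^k |KJ|`, and every `x : Fin g → R` has a relation as above, so `f = 0`.  So `NGen R`: `L` = the list of the words of
`f`; every letter occurs once, twice or three times; the words with length `≥ 6` are zero (`CRK.sxb`) and can be
omitted; (`f` zero if the `x i` do not generate `R`: the claim; `Sq R ⊆ KJ R p`).  `CRM.ngb`.  (Other way: `CRN.thm_Crg` as in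
`CRK.thm_Cvn`.) -/
def St_Ntb : Prop := ∀ (R : Type) [NonUnitalRing R] [Finite R], (Nat.card R).Coprime 6 → NilT R →
  Critical R

/-! ### Part C: central local rings -/

/-- **CFR.**  PROOF.  `CRP.thm_Lfx` (if not yet there: `CRM.thm_Tyn`, `CRL.frx`); `CRM.cnj` and the argument of `CRP/Cen.lean`: all frames are powers of
`t₀` and conversely. -/
def St_Cfr : Prop := ∀ (n p N : ℕ) (R : Type) [NonUnitalRing R] [Finite R] (e t₀ : R),
  Cn0 n p N e t₀ → ∀ t : R, Frame R n 1 (fun _ => t) → Lfr n p N e t ∧ (∀ r, t * r = r * t) ∧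
    (∃ k, t = pw t₀ k) ∧ (∃ k, t₀ = pw t k) ∧
    ∀ S : Set R, NonUnitalSubring.closure ({t} ∪ S) = NonUnitalSubring.closure ({t₀} ∪ S)

/-- **LMB** (from `St_Cfr`).  PROOF.  `CRM.lff`: `g`, `a`, `L`.  Because `Vl L t x ≠ 0` for some `Ty n a t x` and every word contains every letter, all `x i ≠ 0`, and
`x i t = t x i` (`St_Cfr`), so `a i` is divisible by `N` (`CRP.thm_Typ` (6)) and `Ty n a t x` means: `t` is a frame, the `x i` are nil.
For `b : ℕ` let `P b` be the set of the functions `F t x = Vl L t x`, all items `(c, d, w)` of `L` with `d + |w| ≥ 1` and `w` contains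
exactly the letters `< b`, with `Gl n H b F`.  `P g` is not empty (`Gl.van`: if `t` and the `x i` do not generate `R` then some
`x j ∈ M_j` by `CRM.dmk`, and the invariance with `y = - x j` gives `Vl L t x = Vl L t (update x j 0) = 0`).  `P b` is empty for
`b ≥ 6` (words of length `≥ 6` in nil elements are zero, the order is prime to 6: `CRL.bnd`).  Let `b` be maximal with `P b` not empty,
`F ∈ P b`.  `ψ t x = F t (x[j := x_j + x_b]) - F t (x[j := x_j]) - F t (x[j := x_b])` (`b + 1` nil arguments): of the form `Vl L' t x`, `L'`: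
in a word replace every letter `j` by `j` or `b`, both occurring.  `Gl.val`, `Gl.van` are clear (if `t` and the `x i`, `i ≤ b`, generate a
proper subring all three terms are zero).  So `ψ = 0` by maximality.  The same for `ψ t x = F t (x[j := x_j x_b])`.  So `Ga`. -/
def St_Lmb : Prop := ∀ (n p N : ℕ) (R : Type) [NonUnitalRing R] [Finite R] (e t₀ : R),
  Cn0 n p N e t₀ → Critical R → ∀ H : AddSubgroup R, Lst R H →
  ∃ (b : ℕ) (L : List (ℤ × ℕ × List ℕ)), b ≤ 5 ∧
    (∀ q ∈ L, 1 ≤ q.2.1 + q.2.2.length ∧ ∀ i, i ∈ q.2.2 ↔ i < b) ∧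
    Gl n H b (fun (t : R) (x : Fin b → R) => Vl L t x) ∧
    Ga n b (fun (t : R) (x : Fin b → R) => Vl L t x)

/-- **LMC** (from `St_Cfr`, `St_Lmb`).  PROOF.  `b = 0`: `F t` is zero if `t` does not generate `R`, and not always zero, so some frame `t` generates `R`, and
`t₀` does (`St_Cfr` with `S = ∅`).  `b ≥ 1`: as `CRK.thm_Gdc`: for one letter `j` after the other the items of `L` in which `j` does not
occur exactly once can be removed: words with a letter occurring `≥ 4` times are zero (`CRM.fle`), let `F_d` be the part of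
degree `d` in `x_j`, `F = F_1 + F_2 + F_3`; `F t (x[j := k x_j]) = k F t x`, so `k = -1`: `2 F_2 = 0`, `k = 2`: `6 F_3 = 0`, the order is prime
to 6.  At the end the words are permutations of the letters; `c σ` = the list of the `(c, d)` of the items with the word
`σ`; `Cv (c σ) e t * w` is the sum of the `c t^d w` (`te e t d * w` is `t ... t w`). -/
def St_Lmc : Prop := ∀ (n p N : ℕ) (R : Type) [NonUnitalRing R] [Finite R] (e t₀ : R),
  Cn0 n p N e t₀ → Critical R → ∀ H : AddSubgroup R, Lst R H →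
  NonUnitalSubring.closure ({t₀} : Set R) = ⊤ ∨
  ∃ (b : ℕ) (c : Equiv.Perm (Fin b) → List (ℤ × ℕ)), 1 ≤ b ∧ b ≤ 5 ∧
    Gl n H b (FF e c) ∧ Ga n b (FF e c)

/-- **LMU** (from `St_Cfr`, `St_Lmc`).  PROOF.  Choose in the second case of `St_Lmc` `b` minimal.  Claim: `FF e c t x = 0` if `x i = p e`.  Otherwise
consider `F' t x' = FF e c t (x'[i := p e])` (`b - 1` nil arguments).  `b = 1`: `F' t = Cv (c σ) e t * (p e)` is a nonzero value for
some frame `t`, and zero if `t` does not generate `R` (`p e` is in the subring generated by `t`, because `e` is a power of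
`t`); so `t₀` generates `R` (`St_Cfr`).  `b ≥ 2`: `F'` is `FF e c'`, `c' τ` = the concatenation of the lists `p (c σ)` over the
`σ` which give the word `τ` after the omission of the letter `i` (`t` and `p e` are central), `Gl` and `Ga` are clear: contradiction to
the minimality.  Now let `x i ∈ KJ R p` (nil): `KJ R p` is generated by products of two nil elements, and the `p a`, `a = w + u`,
`w` in the subring generated by `t`, `u` nil (`CRL.gen`); `p u = (p e) u` is a product of two nil elements; `p w = w (p e)`, and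
`FF e c t (x[i := w (p e)]) = w * FF e c t (x[i := p e]) = 0` (`w` is central).  `FF e c t` is additive in all arguments. -/
def St_Lmu : Prop := ∀ (n p N : ℕ) (R : Type) [NonUnitalRing R] [Finite R] (e t₀ : R),
  Cn0 n p N e t₀ → Critical R → ∀ H : AddSubgroup R, Lst R H →
  NonUnitalSubring.closure ({t₀} : Set R) = ⊤ ∨
  ∃ (b : ℕ) (c : Equiv.Perm (Fin b) → List (ℤ × ℕ)), 1 ≤ b ∧ b ≤ 5 ∧
    Gl n H b (FF e c) ∧ ∀ (t : R) (x : Fin b → R), Frame R n 1 (fun _ => t) → (∀ i, Nl (x i)) →
      ∀ i, x i ∈ KJ R p → FF e c t x = 0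

/-- **LCA** (from `St_Cfr`, `St_Lmu`, `St_Kcs`).  PROOF.  `H` from `CRN.thm_Sir`.  The second case of `St_Lmu`.  Let `T` be the type of the frames `t`, `J` the
nonunital subring of the nil elements (`CRL.jil`), `A = T → J` (functions, a nonunital ring), `K = ℤ[X]` (`Polynomial ℤ`) with
`(C • x) t = C(t) x(t)`, where `C(t) = ∑ coeff_i t^i`, `t^0 = e` (`t` is central, so this is a module with `IsScalarTower`,
`SMulCommClass`; for instance from the ring homomorphism of `ℤ[X]` to the endomorphisms of the additive group `A` which maps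
`X` to `x ↦ (t ↦ t x(t))`).  `φ : (Fin b → A) → A`, `φ x t = FF e c t (x · t)`, is in `KML K b` (the polynomial of a list `m` is
`∑ c X^d`).  `N6 A` (order prime to 6; `x^3 = 0` for nil elements).  Let `g` be minimal such that `t₀` and `g` nil elements generate `R`.
`KFn K b g φ`: `van`: `k < g` elements `a` of `A`: for every `t` the `t` and the `a_i(t)` do not generate `R` (`St_Cfr`, minimality), `Gl.van`.
`ne`: let `FF e c t x ≠ 0`; `x_i = ∑ u_ik z_k + κ_i`, `u_ik` in the subring generated by `t`, `κ_i ∈ KJ` (`CRM/Dmk.lean`: every nil element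
is in `KJ + ∑ W z_k`), so `FF e c t (z ∘ i) ≠ 0` for some `i : Fin b → Fin g`, surjective by minimality of `g` (`Gl.van`); take
constant functions.  `St_Kcs`: `f`, `N`, `i`.  `f` is one of the items of `KFun K g`; the same item of `LocFun` (lists in the place of
polynomials) is the function `f'` with `f x t = f' t (x · t)`; (`stp`, products in `A` are computed pointwise).  Values in `H`, not zero.
`f' t x = N FF e c t (x ∘ i)`; additive and zero on `KJ`, so `f' t x = f' t y` if all `x i - y i ∈ KJ`; if two arguments are equal then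
`t` and the arguments of `FF` do not generate `R`. -/
def St_Lca : Prop := ∀ (n p N : ℕ) (R : Type) [NonUnitalRing R] [Finite R] (e t₀ : R),
  Cn0 n p N e t₀ → Critical R → CenT R n

/-- **LCB** (from `St_Cfr`, `St_Kdp`).  PROOF.  `Cy R n p` (not `Twn`: hypothesis), `Lfr` for some `N` (`CRP.thm_Lfx` or `CRM.thm_Tyn`), so `Cn0`.  First case: `t₀` generates `R`.  Let `k` be maximal
with `p^k R ≠ 0`; `p^k t ∈ H` (it is killed by the nil elements: they are `p w`, `CRP.thm_Wpn`; and by `p`; `CRM.soc` or: every nonzero ideal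
contains `p^k R`: a nonzero ideal contains some `p^l u`, `u` invertible); `φ v = p^k v 0` satisfies `Gz n 1 0 H φ`; `CRM.thm_Bkl`.
Second case: `St_Kdp` for `A = J`, `K` = the commutative ring `W`, the subring generated by `t` (`1 = e`), or `K = ℤ[X]` acting through `t`, and
`f t` (for fixed `t`; `Cv m e t ∈ W`).  Claim: if `t` (a frame) and the nil `x i` do not generate `R` then `f t x = 0`.  By `CRM.dmk` (the pair
`t, z` generates `R`, `St_Cfr`) some `x j ∈ M_j`: a relation `∑ u_k x_k ∈ KJ`, `u_k ∈ W`, `u_j = e`.  If some `u_l` with `l₀ l` is not nil, it is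
invertible in `W`, multiply with the inverse: `x_l - ∑_(k ≠ l) μ_k x_k ∈ KJ`, replace `x_l` by the sum (invariance) and use `St_Kdp`.
Otherwise the `u_k` with `k ≠ l` are nil for one `l` with `u_l` invertible, `u_k x_k ∈ J^2 ⊆ KJ`, so `x_l ∈ KJ` and
`f t x = f t (x[l := 0]) = 0`.  So `Gz n 1 g H φ` for `φ v = f (v 0) (fun i => v (1 + i))` (in `φ` write `e` as the power `t^N`), and
`CRM.thm_Bkl`; or `LGen R n` (with all `a i = 0`) and `CRM.lgb`. -/
def St_Lcb : Prop := ∀ (n : ℕ) (R : Type) [NonUnitalRing R] [Finite R], 4 ≤ n → InM n R →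
  ¬ Twn R → (Nat.card R).Coprime 6 → CenT R n → Critical R

end Pool.Agent.CRQ
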