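import Pool.Agent.CRQ.Defs2
import Pool.Agent.CRQ.St
import Pool.Agent.CRM.All

/-!
Campaign CRQ: the final theorem from the statements (problem MP_1bb14d_al).
-/

set_option autoImplicit false

namespace Pool.Agent.CRQ

open Pool.Agent.CRR Pool.Agent.CRN Pool.Agent.CRK Pool.Agent.CRL Pool.Agent.CRM Pool.Agent.CRP

/-- A prime divisor of the order of a finite ring killed by `p^r` is `p`. -/
theorem Fin_prime {R : Type} [NonUnitalRing R] [Finite R] {p r : ℕ} (hp : p.Prime)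
    (hr : ∀ x : R, (p ^ r) • x = 0) {q : ℕ} (hq : q.Prime) (hd : q ∣ Nat.card R) : q = p := by
  haveI := Fact.mk hq
  obtain ⟨x, hx⟩ := exists_prime_addOrderOf_dvd_card' (G := R) q hd
  have h1 : addOrderOf x ∣ p ^ r := addOrderOf_dvd_of_nsmul_eq_zero (hr x)
  rw [hx] at h1
  exact (Nat.prime_dvd_prime_iff_eq hq hp).1 (hq.dvd_of_dvd_pow h1)

/-- The order is prime to 6 if and only if `p` is not 2 or 3. -/
theorem Fin_six {R : Type} [NonUnitalRing R] [Finite R] {p r : ℕ} (hp : p.Prime)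
    (hr : ∀ x : R, (p ^ r) • x = 0) {H : AddSubgroup R} (hH : Lst R H) :
    (Nat.card R).Coprime 6 ↔ ¬ (p = 2 ∨ p = 3) := by
  have hdvd : p ∣ Nat.card R := by
    obtain ⟨x, hxH, hx0⟩ : ∃ x ∈ H, x ≠ 0 := by
      by_contra h
      push Not at h
      exact hH.2.1 (by
        rw [eq_bot_iff]
        intro x hx
        exact AddSubgroup.mem_bot.2 (h x hx))
    have h1 : addOrderOf x ∣ p ^ r := addOrderOf_dvd_of_nsmul_eq_zero (hr x)
    have h2 : addOrderOf x ∣ Nat.card R := addOrderOf_dvd_natCard x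
    obtain ⟨k, hk, hk'⟩ := (Nat.dvd_prime_pow hp).1 h1
    have hk0 : k ≠ 0 := by
      intro h0
      rw [h0, pow_zero] at hk'
      exact hx0 (AddMonoid.addOrderOf_eq_one_iff.1 hk')
    exact (dvd_pow_self p hk0).trans (hk' ▸ h2)
  constructor
  · rintro h (h2 | h3)
    · subst h2
      have := Nat.dvd_gcd hdvd (by norm_num : 2 ∣ 6)
      rw [h] at this
      omega
    · subst h3
      have := Nat.dvd_gcd hdvd (by norm_num : 3 ∣ 6)
      rw [h] at this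
      omega
  · intro h
    rw [Nat.coprime_iff_gcd_eq_one]
    by_contra hne
    obtain ⟨q, hq, hqd⟩ := Nat.exists_prime_and_dvd hne
    have hq1 : q = p := Fin_prime hp hr hq (hqd.trans (Nat.gcd_dvd_left _ _))
    have hq2 : q ∣ 6 := hqd.trans (Nat.gcd_dvd_right _ _)
    have hq3 : q ∣ 2 * 3 := hq2
    rcases (Nat.Prime.dvd_mul hq).1 hq3 with h2 | h3
    · exact h (Or.inl (hq1 ▸ (Nat.prime_dvd_prime_iff_eq hq Nat.prime_two).1 h2))
    · exact h (Or.inr (hq1 ▸ (Nat.prime_dvd_prime_iff_eq hq Nat.prime_three).1 h3))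

theorem Fin_nil {R : Type} [NonUnitalRing R] [Finite R] :
    NilF R ↔ NFl R ∧ ¬ (Nat.card R).Coprime 6 := by
  constructor
  · rintro ⟨h3, p, H, hp, ⟨r, hr⟩, hH, g, L, hg, hL, hi, hne⟩
    have hpp : p.Prime := by rcases hp with rfl | rfl <;> norm_num
    have hc : ¬ (Nat.card R).Coprime 6 := fun h => (Fin_six hpp hr hH).1 h hp
    exact ⟨⟨h3, p, H, hpp, ⟨r, hr⟩, hH, g, L, hg, fun q hq => ⟨(hL q hq).1, (hL q hq).2.1,
      (hL q hq).2.2, fun h => (hc h).elim⟩, hi, hne⟩, hc⟩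
  · rintro ⟨⟨h3, p, H, hp, ⟨r, hr⟩, hH, g, L, hg, hL, hi, hne⟩, hc⟩
    have hpp : p = 2 ∨ p = 3 := by
      by_contra h
      exact hc ((Fin_six hp hr hH).2 h)
    exact ⟨h3, p, H, hpp, ⟨r, hr⟩, hH, g, L, hg, fun q hq => ⟨(hL q hq).1, (hL q hq).2.1,
      (hL q hq).2.2.1⟩, hi, hne⟩

theorem Fin_cen {R : Type} [NonUnitalRing R] [Finite R] {n : ℕ} :
    CenF R n ↔ CFl R n ∧ ¬ (Nat.card R).Coprime 6 := by
  constructor
  · rintro ⟨h3, p, H, hp, ⟨r, hr⟩, hH, g, L, hk, hg, hL, hi, hne⟩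
    have hpp : p.Prime := by rcases hp with rfl | rfl <;> norm_num
    have hc : ¬ (Nat.card R).Coprime 6 := fun h => (Fin_six hpp hr hH).1 h hp
    exact ⟨⟨h3, p, H, hpp, ⟨r, hr⟩, hH, g, L, hk, hg, fun q hq => ⟨(hL q hq).1, (hL q hq).2.1,
      (hL q hq).2.2.1, (hL q hq).2.2.2, fun h => (hc h).elim⟩, hi, hne⟩, hc⟩
  · rintro ⟨⟨h3, p, H, hp, ⟨r, hr⟩, hH, g, L, hk, hg, hL, hi, hne⟩, hc⟩
    have hpp : p = 2 ∨ p = 3 := by
      by_contra h
      exact hc ((Fin_six hp hr hH).2 h)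
    exact ⟨h3, p, H, hpp, ⟨r, hr⟩, hH, g, L, hk, hg, fun q hq => ⟨(hL q hq).1, (hL q hq).2.1,
      (hL q hq).2.2.1, (hL q hq).2.2.2.1⟩, hi, hne⟩

/-- Central local critical rings of order prime to 6. -/
theorem Fin_cft (hLfx : St_Lfx) (hLca : St_Lca) {n : ℕ} {R : Type} [NonUnitalRing R] [Finite R]
    (hn : 4 ≤ n) (hM : InM n R) (hT : ¬ Twn R) (h6 : (Nat.card R).Coprime 6)
    (hc : Critical R) (h : CFl R n) : CenT R n := by
  obtain ⟨⟨e, he, h1⟩, p, H, hp, hr, hH, g, L, -, ⟨t, x, ht, htc, -, -⟩, -, -, -⟩ := h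
  have hC : Cy R n p := ⟨hn, hM, hT, hp, hr⟩
  obtain ⟨N, -, hN⟩ := hLfx n p R hC e he h1
  exact hLca n p N R e t ⟨hN t ht, htc, h6⟩ hc

/-- The theorem. -/
def St_Fin : Prop := ∀ n : ℕ, 4 ≤ n → ∀ (R : Type) [NonUnitalRing R] [Finite R], InM n R →
  (Critical R ↔ MatType R 2 ∨ MatType R 3 ∨ TriType R ∨ TriType Rᵐᵒᵖ ∨
    (¬ Twn R ∧ (PthType R n ∨ PthType Rᵐᵒᵖ n ∨ Twl R n ∨
      ((Nat.card R).Coprime 6 ∧ (CenT R n ∨ NilT R)) ∨ CenF R n ∨ NilF R)))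

theorem thm_Fin (hMfp : St_Mfp) (hCfb : St_Cfb) (hLfx : St_Lfx) (hLca : St_Lca) (hLcb : St_Lcb)
    (hNtf : St_Ntf) (hNtb : St_Ntb) : St_Fin := by
  intro n hn R _ _ hM
  constructor
  · intro hc
    rcases (hMfp n hn R hM).1 hc with h | h | h | h | ⟨hT, h | h | h | h | h⟩
    · exact Or.inl h
    · exact Or.inr (Or.inl h)
    · exact Or.inr (Or.inr (Or.inl h))
    · exact Or.inr (Or.inr (Or.inr (Or.inl h)))
    · exact Or.inr (Or.inr (Or.inr (Or.inr ⟨hT, Or.inl h⟩)))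
    · exact Or.inr (Or.inr (Or.inr (Or.inr ⟨hT, Or.inr (Or.inl h)⟩)))
    · exact Or.inr (Or.inr (Or.inr (Or.inr ⟨hT, Or.inr (Or.inr (Or.inl h))⟩)))
    · refine Or.inr (Or.inr (Or.inr (Or.inr ⟨hT, Or.inr (Or.inr (Or.inr ?_))⟩)))
      by_cases h6 : (Nat.card R).Coprime 6
      · exact Or.inl ⟨h6, Or.inl (Fin_cft hLfx hLca hn hM hT h6 hc h)⟩
      · exact Or.inr (Or.inl (Fin_cen.2 ⟨h, h6⟩))
    · refine Or.inr (Or.inr (Or.inr (Or.inr ⟨hT, Or.inr (Or.inr (Or.inr ?_))⟩)))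
      by_cases h6 : (Nat.card R).Coprime 6
      · exact Or.inl ⟨h6, Or.inr (hNtf R h.1 h6 hc)⟩
      · exact Or.inr (Or.inr (Fin_nil.2 ⟨h, h6⟩))
  · rintro (h | h | h | h | ⟨hT, h | h | h | ⟨h6, h | h⟩ | h | h⟩)
    · exact (hMfp n hn R hM).2 (Or.inl h)
    · exact (hMfp n hn R hM).2 (Or.inr (Or.inl h))
    · exact (hMfp n hn R hM).2 (Or.inr (Or.inr (Or.inl h)))
    · exact (hMfp n hn R hM).2 (Or.inr (Or.inr (Or.inr (Or.inl h))))
    · exact (hMfp n hn R hM).2 (Or.inr (Or.inr (Or.inr (Or.inr ⟨hT, Or.inl h⟩))))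
    · exact (hMfp n hn R hM).2 (Or.inr (Or.inr (Or.inr (Or.inr ⟨hT, Or.inr (Or.inl h)⟩))))
    · exact (hMfp n hn R hM).2
        (Or.inr (Or.inr (Or.inr (Or.inr ⟨hT, Or.inr (Or.inr (Or.inl h))⟩))))
    · exact hLcb n R hn hM hT h6 h
    · exact hNtb R h6 h
    · exact hCfb n R hn hM hT (Fin_cen.1 h).1
    · exact CRM.nfb R (Fin_nil.1 h).1

end Pool.Agent.CRQ
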