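import Pool.Agent.CRQ.St
import Pool.Agent.CRK.Alt
import Pool.Agent.CRK.Wic
import Pool.Agent.CRK.Wid

/-!
Campaign CRQ, module KCB: the case `b = g` with coefficients in `K`.
-/

set_option autoImplicit false

namespace Pool.Agent.CRQ

open Pool.Agent.CRR Pool.Agent.CRN Pool.Agent.CRK Pool.Agent.CRL Pool.Agent.CRM Pool.Agent.CRP
open Finset

section

variable {K : Type} [CommRing K] {A : Type} [NonUnitalRing A] [Module K A]

theorem Kcb_eq {b : ℕ} {φ : (Fin b → A) → A}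
    (h : KFn K b b φ) (x : Fin b → A) (i j : Fin b) (hij : i ≠ j) (hx : x i = x j) : φ x = 0 := by
  obtain ⟨k, rfl⟩ : ∃ k, b = k + 1 := ⟨b - 1, by have := i.2; omega⟩
  have key : ∀ t : Fin (k + 1), ∃ s : Fin k, x (i.succAbove s) = x t := by
    intro t
    by_cases ht : t = i
    · obtain ⟨s, hs⟩ := Fin.exists_succAbove_eq (Ne.symm hij)
      exact ⟨s, by rw [hs, ht, hx]⟩
    · obtain ⟨s, hs⟩ := Fin.exists_succAbove_eq ht
      exact ⟨s, by rw [hs]⟩
  choose s hs using key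
  have := h.van k (Nat.lt_succ_self k) (fun u => x (i.succAbove u)) s
  simp only [hs] at this
  exact this

theorem Kcb_24 (hN : N6 A) (y : A) (h : (24 : ℤ) • y = 0) : y = 0 := by
  apply hN.tf
  apply hN.tf
  have : (6 : ℤ) • (6 : ℤ) • y = (36 : ℤ) • y := by rw [smul_smul]; norm_num
  have h2 : (6 : ℤ) • (4 : ℤ) • y = 0 := by rw [smul_smul]; norm_num; exact h
  have h3 : (4 : ℤ) • y = 0 := hN.tf _ h2
  rw [this]
  have : (36 : ℤ) • y = (9 : ℤ) • (4 : ℤ) • y := by rw [smul_smul]; norm_num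
  rw [this, h3, smul_zero]

theorem Kcb_add {b : ℕ} {φ : (Fin b → A) → A} (h : KML K b φ) (v : Fin b → A) (k : Fin b)
    (x y : A) : φ (Function.update v k (x + y)) =
      φ (Function.update v k x) + φ (Function.update v k y) := by
  obtain ⟨c, hc⟩ := h
  rw [hc, hc, hc, ← Finset.sum_add_distrib]
  refine Finset.sum_congr rfl fun σ _ => ?_
  have h1 : ∀ z : A, (fun i => Function.update v k z (σ i)) =
      Function.update (fun i => v (σ i)) (σ.symm k) z := by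
    intro z
    exact Function.update_comp_equiv v σ k z
  rw [h1, h1, h1, Alt_wp, smul_add]

/-- the alternating map of the last four arguments -/
noncomputable def Kcb_map (φ : (Fin 5 → A) → A) (h : KML K 5 φ)
    (h2 : ∀ (x : Fin 5 → A) (i j : Fin 5), i ≠ j → x i = x j → φ x = 0) (x₀ : A) :
    AlternatingMap ℤ A A (Fin 4) where
  toFun := fun a => φ (Fin.cons x₀ a)
  map_update_add' := by
    intro inst v k x y
    rw [Subsingleton.elim inst (instDecidableEqFin 4)]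
    rw [Fin.cons_update, Fin.cons_update, Fin.cons_update]
    exact Kcb_add h _ _ x y
  map_update_smul' := by
    intro inst v k c x
    rw [Subsingleton.elim inst (instDecidableEqFin 4)]
    rw [Fin.cons_update, Fin.cons_update]
    exact (AddMonoidHom.mk' (fun z => φ (Function.update (Fin.cons x₀ v : Fin 5 → A) k.succ z))
      (Kcb_add h _ _)).map_zsmul c x
  map_eq_zero_of_eq' := fun x i j hx hij => h2 _ i.succ j.succ
    (fun e => hij (Fin.succ_injective _ e)) (by simpa using hx)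

theorem Kcb_perm (φ : (Fin 5 → A) → A) (h : KML K 5 φ)
    (h2 : ∀ (x : Fin 5 → A) (i j : Fin 5), i ≠ j → x i = x j → φ x = 0) (x₀ : A)
    (a : Fin 4 → A) (π : Equiv.Perm (Fin 4)) :
    φ (Fin.cons x₀ fun i => a (π i)) = ((Equiv.Perm.sign π : ℤˣ) : ℤ) • φ (Fin.cons x₀ a) :=
  (Kcb_map φ h h2 x₀).map_perm a π

theorem Kcb_split (σ : Equiv.Perm (Fin 5)) : ∃ (j : Fin 5) (τ : Equiv.Perm (Fin 4)),
    ∀ (x₀ : A) (b : Fin 4 → A), (fun i => (Fin.cons x₀ b : Fin 5 → A) (σ i)) =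
      (Fin.insertNth j x₀ (fun i => b (τ i)) : Fin 5 → A) := by
  obtain ⟨j, hj⟩ : ∃ j, j = σ.symm 0 := ⟨_, rfl⟩
  have hσj : σ j = 0 := by rw [hj, Equiv.apply_symm_apply]
  have hex : ∀ i : Fin 4, ∃ k : Fin 4, k.succ = σ (j.succAbove i) := by
    intro i
    apply Fin.exists_succ_eq.2
    intro h0
    rw [← hσj] at h0
    exact Fin.succAbove_ne j i (σ.injective h0)
  choose f hf using hex
  have hinj : Function.Injective f := by
    intro a b hab
    have h1 : σ (j.succAbove a) = σ (j.succAbove b) := by rw [← hf, ← hf, hab]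
    exact Fin.succAbove_right_injective (σ.injective h1)
  refine ⟨j, Equiv.ofBijective f (Finite.injective_iff_bijective.1 hinj), fun x₀ b => ?_⟩
  funext i
  rcases Fin.eq_self_or_eq_succAbove j i with h | ⟨k, h⟩
  · subst h
    rw [Fin.insertNth_apply_same, hσj, Fin.cons_zero]
  · subst h
    rw [Fin.insertNth_apply_succAbove, ← hf, Fin.cons_succ]
    rfl

theorem Kcb_Wi (j : Fin 5) (τ : Equiv.Perm (Fin 4)) (x₀ : A) (a : Fin 4 → A) :
    ∑ π : Equiv.Perm (Fin 4), ((Equiv.Perm.sign π : ℤˣ) : ℤ) •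
      wp (List.ofFn (Fin.insertNth j x₀ (fun i => a (π (τ i))) : Fin 5 → A)) =
      ((Equiv.Perm.sign τ : ℤˣ) : ℤ) • Wi j x₀ a := by
  unfold Wi
  rw [Finset.smul_sum]
  symm
  rw [← Equiv.sum_comp (Equiv.mulRight τ)]
  refine Finset.sum_congr rfl fun π _ => ?_
  rw [Equiv.coe_mulRight, smul_smul]
  have h5 : ((Equiv.Perm.sign τ : ℤˣ) : ℤ) * ((Equiv.Perm.sign (π * τ) : ℤˣ) : ℤ) =
      ((Equiv.Perm.sign π : ℤˣ) : ℤ) := by
    rw [Equiv.Perm.sign_mul]
    rcases Int.units_eq_one_or (Equiv.Perm.sign τ) with h5 | h5 <;> rw [h5] <;> simp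
  rw [h5]
  rfl

theorem Kcb_W (hN : N6 A) (j : Fin 5) : ∃ n : ℤ, ∀ (x₀ : A) (a : Fin 4 → A),
    Wi j x₀ a = n • (x₀ * stp a) := by
  have h0 : ∀ (x₀ : A) (a : Fin 4 → A), Wi 0 x₀ a = x₀ * stp a := fun x₀ a =>
    (thm_Wid A 3 x₀ a).1
  have hW := fun (x₀ : A) (a : Fin 4 → A) => (thm_Wic CRK.ida) A hN x₀ a
  fin_cases j
  · exact ⟨1, fun x₀ a => by rw [one_smul]; exact h0 x₀ a⟩
  · exact ⟨0, fun x₀ a => by rw [zero_smul]; exact (hW x₀ a).1⟩
  · exact ⟨-2, fun x₀ a => by rw [← h0]; exact (hW x₀ a).2.2.1⟩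
  · exact ⟨0, fun x₀ a => by rw [zero_smul]; exact (hW x₀ a).2.1⟩
  · exact ⟨1, fun x₀ a => by rw [one_smul, ← h0]; exact (hW x₀ a).2.2.2⟩

theorem Kcb_five (hN : N6 A) (φ : (Fin 5 → A) → A) (hF : KFn K 5 5 φ) : KOut K 5 5 φ := by
  obtain ⟨c, hc⟩ := hF.ml
  choose jj τ hτ using fun σ : Equiv.Perm (Fin 5) => Kcb_split (A := A) σ
  choose n hn using Kcb_W hN
  obtain ⟨m, hm⟩ : ∃ m : K, m = ∑ σ : Equiv.Perm (Fin 5),
      c σ * ((((Equiv.Perm.sign (τ σ) : ℤˣ) : ℤ) * n (jj σ) : ℤ) : K) := ⟨_, rfl⟩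
  have key : ∀ (x₀ : A) (a : Fin 4 → A),
      (24 : ℤ) • φ (Fin.cons x₀ a) = m • (x₀ * stp a) := by
    intro x₀ a
    have h1 : ∑ π : Equiv.Perm (Fin 4), ((Equiv.Perm.sign π : ℤˣ) : ℤ) •
        φ (Fin.cons x₀ fun i => a (π i)) = (24 : ℤ) • φ (Fin.cons x₀ a) := by
      have h4 : ∀ π ∈ (univ : Finset (Equiv.Perm (Fin 4))), ((Equiv.Perm.sign π : ℤˣ) : ℤ) •
          φ (Fin.cons x₀ fun i => a (π i)) = φ (Fin.cons x₀ a) := by
        intro π _
        rw [Kcb_perm φ hF.ml (Kcb_eq hF), smul_smul]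
        rcases Int.units_eq_one_or (Equiv.Perm.sign π) with h5 | h5 <;> rw [h5] <;> simp
      rw [Finset.sum_congr rfl h4, Finset.sum_const, card_univ, Fintype.card_perm,
        Fintype.card_fin, ← natCast_zsmul]
      rfl
    rw [← h1]
    have h5 : ∀ π ∈ (univ : Finset (Equiv.Perm (Fin 4))),
        ((Equiv.Perm.sign π : ℤˣ) : ℤ) • φ (Fin.cons x₀ fun i => a (π i)) =
        ∑ σ, c σ • (((Equiv.Perm.sign π : ℤˣ) : ℤ) • wp (List.ofFn
          (Fin.insertNth (jj σ) x₀ (fun i => a (π (τ σ i))) : Fin 5 → A))) := by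
      intro π _
      rw [hc, Finset.smul_sum]
      refine Finset.sum_congr rfl fun σ _ => ?_
      rw [smul_comm, hτ σ x₀ fun i => a (π i)]
    rw [Finset.sum_congr rfl h5, Finset.sum_comm, hm, Finset.sum_smul]
    refine Finset.sum_congr rfl fun σ _ => ?_
    rw [← Finset.smul_sum, Kcb_Wi, hn, mul_smul, smul_smul]
    congr 1
    rw [Int.cast_smul_eq_zsmul]
  refine ⟨fun x => m • (x 0 * stp fun k : Fin 4 => x k.succ), 24, id, ?_, ?_, ?_⟩
  · refine Or.inr (Or.inr (Or.inr (Or.inr (Or.inr (Or.inl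
      ⟨m, 0, fun k => k.succ, rfl, Fin.succ_injective 4, fun k => Fin.succ_ne_zero k,
        fun x => rfl⟩)))))
  · intro x
    have h1 := key (x 0) fun k : Fin 4 => x k.succ
    have h2 : (Fin.cons (x 0) (fun k : Fin 4 => x k.succ) : Fin 5 → A) = x :=
      Fin.cons_self_tail x
    rw [h2] at h1
    exact h1.symm
  · obtain ⟨z, i, -, hne⟩ := hF.ne
    refine ⟨fun t => z (i t), fun h0 => hne (Kcb_24 hN _ ?_)⟩
    have h1 := key ((fun t => z (i t)) 0) fun k : Fin 4 => (fun t => z (i t)) k.succ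
    have h2 : (Fin.cons ((fun t => z (i t)) 0) (fun k : Fin 4 => (fun t => z (i t)) k.succ) :
        Fin 5 → A) = fun t => z (i t) := Fin.cons_self_tail (fun t => z (i t))
    rw [h2] at h1
    rw [h1]
    exact h0

end

theorem thm_Kcb (hKlt : St_Klt) : St_Kcb := by
  intro K _ A _ _ _ _ hN b φ hb1 hb5 hF
  by_cases hb : b ≤ 4
  · obtain ⟨m, hm⟩ := hKlt K A b φ hF.ml (Kcb_eq hF)
    obtain ⟨z, i, -, hne⟩ := hF.ne
    have hfac : ∀ y : A, (b.factorial : ℤ) • y = 0 → y = 0 := by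
      intro y hy
      apply Kcb_24 hN
      obtain ⟨c, hc⟩ : b.factorial ∣ 24 := Nat.factorial_dvd_factorial hb
      have : (24 : ℤ) = (c : ℤ) * (b.factorial : ℤ) := by
        have : (24 : ℤ) = ((24 : ℕ) : ℤ) := by norm_num
        rw [this, hc]
        push_cast
        ring
      rw [this, mul_smul, hy, smul_zero]
    exact ⟨fun x => (b.factorial : ℤ) • φ x, b.factorial, id, Or.inl ⟨m, hm⟩,
      fun x => rfl, ⟨fun t => z (i t), fun h0 => hne (hfac _ h0)⟩⟩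
  · obtain rfl : b = 5 := by omega
    exact Kcb_five hN φ hF

end Pool.Agent.CRQ
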