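import Pool.Agent.CRQ.St

/-! Campaign CRQ, module KCD: the cases `b = 4, 5`, `g = 2` with coefficients. -/

set_option autoImplicit false

namespace Pool.Agent.CRQ

open Pool.Agent.CRR Pool.Agent.CRN Pool.Agent.CRK Pool.Agent.CRL Pool.Agent.CRM Pool.Agent.CRP

private theorem Kcd_stp {R : Type} [NonUnitalRing R] (x : Fin 2 → R) :
    stp x = x 0 * x 1 - x 1 * x 0 := by
  unfold stp
  have : (Finset.univ : Finset (Equiv.Perm (Fin 2))) = {1, Equiv.swap 0 1} := by decide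
  rw [this, Finset.sum_pair (by decide)]
  simp [wp, sub_eq_add_neg]

private theorem Kcd_a {R : Type} (z : Fin 2 → R) :
    (fun t => z ((![0, 0, 0, 1] : Fin 4 → Fin 2) t)) = ![z 0, z 0, z 0, z 1] := by
  funext t
  fin_cases t <;> rfl

private theorem Kcd_b {R : Type} (z : Fin 2 → R) :
    (fun t => z ((![0, 0, 1, 1] : Fin 4 → Fin 2) t)) = ![z 0, z 0, z 1, z 1] := by
  funext t
  fin_cases t <;> rfl

private theorem Kcd_c {R : Type} (z : Fin 2 → R) :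
    (fun t => z ((![0, 0, 0, 0, 1] : Fin 5 → Fin 2) t)) = ![z 0, z 0, z 0, z 0, z 1] := by
  funext t
  fin_cases t <;> rfl

private theorem Kcd_d {R : Type} (z : Fin 2 → R) :
    (fun t => z ((![0, 0, 0, 1, 1] : Fin 5 → Fin 2) t)) = ![z 0, z 0, z 0, z 1, z 1] := by
  funext t
  fin_cases t <;> rfl

theorem thm_Kcd (hE : St_Kxa) : St_Kcd := by
  intro K _ A _ _ _ _ hN
  obtain ⟨-, hE4, hE5⟩ := hE K A hN
  refine ⟨fun φ => ⟨fun hF => ?_, fun hF => ?_⟩, fun φ => ⟨fun hF => ?_, fun hF => ?_⟩⟩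
  · obtain ⟨⟨m, hm⟩, -⟩ := hE4 φ hF.ml
    refine ⟨fun x => φ (fun t => x ((![0, 0, 0, 1] : Fin 4 → Fin 2) t)), 1, ![0, 0, 0, 1],
      Or.inr (Or.inr (Or.inl ⟨-m, 0, fun x => ?_⟩)), fun x => (one_smul ℤ _).symm, hF.ne⟩
    show φ (fun t => x ((![0, 0, 0, 1] : Fin 4 → Fin 2) t)) = _
    rw [Kcd_a, hm, Kcd_stp]
    simp only [mul_sub, ← mul_assoc]
    rw [hN.nz, zero_mul, zero_sub, smul_neg, neg_smul, neg_neg]
  · obtain ⟨-, a, b, hab⟩ := hE4 φ hF.ml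
    refine ⟨fun x => φ (fun t => x ((![0, 0, 1, 1] : Fin 4 → Fin 2) t)), 1, ![0, 0, 1, 1],
      Or.inr (Or.inr (Or.inr (Or.inl ⟨a, b, 0, 1, rfl, by decide, fun x => ?_⟩))),
      fun x => (one_smul ℤ _).symm, hF.ne⟩
    show φ (fun t => x ((![0, 0, 1, 1] : Fin 4 → Fin 2) t)) = _
    rw [Kcd_b, hab]
  · obtain ⟨z, hz⟩ := hF.ne
    exfalso
    apply hz
    rw [Kcd_c]
    exact (hE5 φ hF.ml).1 (z 0) (z 1)
  · obtain ⟨m, hm⟩ := (hE5 φ hF.ml).2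
    refine ⟨fun x => φ (fun t => x ((![0, 0, 0, 1, 1] : Fin 5 → Fin 2) t)), 1,
      ![0, 0, 0, 1, 1],
      Or.inr (Or.inr (Or.inr (Or.inr (Or.inl ⟨m, 0, 1, rfl, by decide, fun x => ?_⟩)))),
      fun x => (one_smul ℤ _).symm, hF.ne⟩
    show φ (fun t => x ((![0, 0, 0, 1, 1] : Fin 5 → Fin 2) t)) = _
    rw [Kcd_d]
    exact hm (x 0) (x 1)

end Pool.Agent.CRQ
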