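import Pool.Agent.CRQ.St

/-!
# CRQ, module KCF: the pattern `x, x, y, z` with coefficients in a ring `K`

Helper2, for MP_1bb14d_al (statement of helper39).
-/

set_option autoImplicit false

namespace Pool.Agent.CRQ

open Pool.Agent.CRR Pool.Agent.CRN Pool.Agent.CRK Pool.Agent.CRL Pool.Agent.CRM Pool.Agent.CRP

/-- [KCF] -/
theorem thm_Kcf (hKoa : St_Koa) : St_Kcf := by
  intro K _ A _ _ _ _ h6 φ F
  obtain ⟨c, hc⟩ := hKoa K A h6 φ F.ml (F.van 2 (by norm_num))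
  have hkey : ∀ x y z : A, (16 : ℤ) • φ ![x, x, y, z] =
      (2 * c 0 - c 1 - 3 * c 2) • (x * stp ![x, y, z]) +
      (2 * c 3 - 3 * c 1 - c 2) • (stp ![x, y, z] * x) := by
    intro x y z
    have h1 := hc x y z
    rw [Fin.sum_univ_four] at h1
    have h2 := CRK.thm_Wia CRK.ida A h6 x ![x, y, z]
    have h3 := CRK.thm_Wib A x y z
    obtain ⟨h4, h5⟩ := CRK.thm_Wid A 2 x ![x, y, z]
    have h5' : Wi 3 x ![x, y, z] = stp ![x, y, z] * x := h5
    rw [← h4, ← h5']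
    generalize Wi 0 x ![x, y, z] = W0 at *
    generalize Wi 1 x ![x, y, z] = W1 at *
    generalize Wi 2 x ![x, y, z] = W2 at *
    generalize Wi 3 x ![x, y, z] = W3 at *
    generalize φ ![x, x, y, z] = p at *
    have e1 : (16 : ℤ) • p = (2 : ℤ) • ((8 : ℤ) • p) := by module
    rw [e1, h1]
    linear_combination (norm := module) (c 1 + c 2) • h2 + (c 2 - c 1) • h3
  have h2t := (CRK.ida A h6).1
  refine ⟨fun x => (16 : ℤ) • φ (fun t => x ((![0, 0, 1, 2] : Fin 4 → Fin 3) t)), 16,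
    ![0, 0, 1, 2], Or.inr (Or.inl ⟨2 * c 0 - c 1 - 3 * c 2, 2 * c 3 - 3 * c 1 - c 2, 0, ?_⟩),
    fun x => rfl, ?_⟩
  · intro x
    have e1 : (fun t => x ((![0, 0, 1, 2] : Fin 4 → Fin 3) t)) = Matrix.vecCons (x 0) x := by
      funext t
      fin_cases t <;> rfl
    have e2 : (![x 0, x 1, x 2] : Fin 3 → A) = x := by
      funext t
      fin_cases t <;> rfl
    have h := hkey (x 0) (x 1) (x 2)
    rw [e2] at h
    show (16 : ℤ) • φ (fun t => x ((![0, 0, 1, 2] : Fin 4 → Fin 3) t)) = _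
    rw [e1]
    exact h
  · obtain ⟨z, hz⟩ := F.ne
    refine ⟨z, fun h => hz ?_⟩
    beta_reduce at h
    generalize φ (fun t => z ((![0, 0, 1, 2] : Fin 4 → Fin 3) t)) = p at *
    have e1 : (16 : ℤ) • p = (2 : ℤ) • ((2 : ℤ) • ((2 : ℤ) • ((2 : ℤ) • p))) := by module
    have h' : (16 : ℤ) • p = 0 := h
    rw [e1] at h'
    exact h2t _ (h2t _ (h2t _ (h2t _ h')))

end Pool.Agent.CRQ

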