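import Pool.Agent.CRQ.St

/-!
Campaign CRQ, module Kcg: degree 5, four variables, without the hypothesis on 5-torsion.
-/

set_option autoImplicit false

namespace Pool.Agent.CRQ

open Pool.Agent.CRR Pool.Agent.CRN Pool.Agent.CRK Finset

/-- a word with a first letter, permuted -/
theorem Kcg_key {n : ℕ} (σ : Equiv.Perm (Fin (n + 1))) :
    ∃ (j : Fin (n + 1)) (ρ : Equiv.Perm (Fin n)), ∀ (R : Type) (x : R) (y : Fin n → R),
      (fun i => (Fin.cons x y : Fin (n + 1) → R) (σ i)) =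
        (Fin.insertNth j x (fun i => y (ρ i)) : Fin (n + 1) → R) := by
  have hρ : ∀ i : Fin n, σ ((σ.symm 0).succAbove i) ≠ 0 := by
    intro i h
    have h1 : (σ.symm 0).succAbove i = σ.symm 0 := by
      rw [← Equiv.symm_apply_apply σ ((σ.symm 0).succAbove i), h]
    exact Fin.succAbove_ne _ _ h1
  have hr : Function.Injective fun i : Fin n => (σ ((σ.symm 0).succAbove i)).pred (hρ i) := by
    intro i i' h
    have h1 := Fin.pred_inj.1 h
    exact Fin.succAbove_right_injective (σ.injective h1)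
  set ρ : Equiv.Perm (Fin n) := Equiv.ofBijective _ (Finite.injective_iff_bijective.1 hr) with hρdef
  have hρ2 : ∀ i, σ ((σ.symm 0).succAbove i) = (ρ i).succ := by
    intro i
    exact (Fin.succ_pred _ (hρ i)).symm
  refine ⟨σ.symm 0, ρ, ?_⟩
  intro R x y
  rw [Fin.eq_insertNth_iff]
  refine ⟨?_, ?_⟩
  · rw [Equiv.apply_symm_apply]
    rfl
  · funext i
    change (Fin.cons x y : Fin (n + 1) → R) (σ ((σ.symm 0).succAbove i)) = _
    rw [hρ2]
    rfl

/-- the alternating sum of a word with two fixed letters -/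
theorem Kcg_word (σ : Equiv.Perm (Fin 5)) :
    ∃ (i : Fin 5) (j : Fin 4) (s : ℤ), ∀ (R : Type) [NonUnitalRing R] (x : R) (a : Fin 3 → R),
      ∑ π : Equiv.Perm (Fin 3), ((Equiv.Perm.sign π : ℤˣ) : ℤ) •
        wp (List.ofFn fun i => (Fin.cons x (Fin.cons x (fun t => a (π t)) : Fin 4 → R) :
          Fin 5 → R) (σ i)) = s • W2 i j x a := by
  obtain ⟨i, ρ, h1⟩ := Kcg_key σ
  obtain ⟨j, ρ', h2⟩ := Kcg_key ρ
  refine ⟨i, j, ((Equiv.Perm.sign ρ' : ℤˣ) : ℤ), ?_⟩
  intro R _ x a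
  unfold W2
  rw [Finset.smul_sum]
  symm
  rw [← Equiv.sum_comp (Equiv.mulRight ρ')]
  refine Finset.sum_congr rfl fun π _ => ?_
  rw [h1, h2, Equiv.coe_mulRight, smul_smul]
  have h5 : ((Equiv.Perm.sign ρ' : ℤˣ) : ℤ) * ((Equiv.Perm.sign (π * ρ') : ℤˣ) : ℤ) =
      ((Equiv.Perm.sign π : ℤˣ) : ℤ) := by
    rw [Equiv.Perm.sign_mul]
    rcases Int.units_eq_one_or (Equiv.Perm.sign ρ') with h5 | h5 <;> rw [h5] <;> simp
  rw [h5]
  rfl

section

variable {K : Type} [CommRing K] {A : Type} [NonUnitalRing A] [Module K A]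

theorem Kcg_add {b : ℕ} {φ : (Fin b → A) → A} (h : KML K b φ) (v : Fin b → A) (k : Fin b)
    (x y : A) : φ (Function.update v k (x + y)) =
      φ (Function.update v k x) + φ (Function.update v k y) := by
  obtain ⟨c, hc⟩ := h
  rw [hc, hc, hc, ← Finset.sum_add_distrib]
  refine Finset.sum_congr rfl fun σ _ => ?_
  have h1 : ∀ z : A, (fun i => Function.update v k z (σ i)) =
      Function.update (fun i => v (σ i)) (σ.symm k) z := by
    intro z
    exact Function.update_comp_equiv v σ k z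
  rw [h1, h1, h1, Alt_wp, smul_add]

theorem Kcg_smul {b : ℕ} {φ : (Fin b → A) → A} (h : KML K b φ) (v : Fin b → A) (k : Fin b)
    (c : ℤ) (x : A) : φ (Function.update v k (c • x)) = c • φ (Function.update v k x) :=
  (AddMonoidHom.mk' (fun z => φ (Function.update v k z)) (Kcg_add h v k)).map_zsmul c x

omit [NonUnitalRing A] in
theorem Kcg_upd (x : A) (v : Fin 3 → A) (k : Fin 3) (z : A) :
    (Fin.cons x (Fin.cons x (Function.update v k z) : Fin 4 → A) : Fin 5 → A) =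
      Function.update (Fin.cons x (Fin.cons x v : Fin 4 → A) : Fin 5 → A) k.succ.succ z := by
  rw [Fin.cons_update, Fin.cons_update]

theorem Kcg_zero {φ : (Fin 5 → A) → A}
    (hv : ∀ (a : Fin 3 → A) (j : Fin 5 → Fin 3), φ (fun t => a (j t)) = 0) (x : A)
    (v : Fin 3 → A) (i j : Fin 3) (h : v i = v j) (hij : i ≠ j) :
    φ (Fin.cons x (Fin.cons x v : Fin 4 → A) : Fin 5 → A) = 0 := by
  have key : ∀ (a : Fin 3 → A) (q : Fin 5 → Fin 3),
      (Fin.cons x (Fin.cons x v : Fin 4 → A) : Fin 5 → A) = (fun t => a (q t)) →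
      φ (Fin.cons x (Fin.cons x v : Fin 4 → A) : Fin 5 → A) = 0 := by
    intro a q e
    rw [e]
    exact hv a q
  fin_cases i <;> fin_cases j
  · exact absurd rfl hij
  · refine key ![x, v 0, v 2] ![0, 0, 1, 1, 2] ?_
    funext t
    fin_cases t
    · rfl
    · rfl
    · rfl
    · exact h.symm
    · rfl
  · refine key ![x, v 0, v 1] ![0, 0, 1, 2, 1] ?_
    funext t
    fin_cases t
    · rfl
    · rfl
    · rfl
    · rfl
    · exact h.symm
  · refine key ![x, v 0, v 2] ![0, 0, 1, 1, 2] ?_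
    funext t
    fin_cases t
    · rfl
    · rfl
    · rfl
    · exact h
    · rfl
  · exact absurd rfl hij
  · refine key ![x, v 0, v 1] ![0, 0, 1, 2, 2] ?_
    funext t
    fin_cases t
    · rfl
    · rfl
    · rfl
    · rfl
    · exact h.symm
  · refine key ![x, v 0, v 1] ![0, 0, 1, 2, 1] ?_
    funext t
    fin_cases t
    · rfl
    · rfl
    · rfl
    · rfl
    · exact h
  · refine key ![x, v 0, v 1] ![0, 0, 1, 2, 2] ?_
    funext t
    fin_cases t
    · rfl
    · rfl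
    · rfl
    · rfl
    · exact h
  · exact absurd rfl hij

/-- the alternating map of the last three arguments -/
noncomputable def Kcg_map (φ : (Fin 5 → A) → A) (h : KML K 5 φ)
    (hv : ∀ (a : Fin 3 → A) (j : Fin 5 → Fin 3), φ (fun t => a (j t)) = 0) (x : A) :
    AlternatingMap ℤ A A (Fin 3) where
  toFun := fun v => φ (Fin.cons x (Fin.cons x v : Fin 4 → A) : Fin 5 → A)
  map_update_add' := by
    intro inst v k y z
    rw [Subsingleton.elim inst (instDecidableEqFin 3)]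
    rw [Kcg_upd, Kcg_upd, Kcg_upd]
    exact Kcg_add h _ _ y z
  map_update_smul' := by
    intro inst v k c y
    rw [Subsingleton.elim inst (instDecidableEqFin 3)]
    rw [Kcg_upd, Kcg_upd]
    exact Kcg_smul h _ _ c y
  map_eq_zero_of_eq' := fun v i j h1 hij => Kcg_zero hv x v i j h1 hij

theorem Kcg_six (φ : (Fin 5 → A) → A) (h : KML K 5 φ)
    (hv : ∀ (a : Fin 3 → A) (j : Fin 5 → Fin 3), φ (fun t => a (j t)) = 0) (x : A)
    (a : Fin 3 → A) :
    ∑ π : Equiv.Perm (Fin 3), ((Equiv.Perm.sign π : ℤˣ) : ℤ) •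
      φ (Fin.cons x (Fin.cons x (fun t => a (π t)) : Fin 4 → A) : Fin 5 → A) =
      (6 : ℤ) • φ (Fin.cons x (Fin.cons x a : Fin 4 → A) : Fin 5 → A) := by
  have h4 : ∀ π ∈ (univ : Finset (Equiv.Perm (Fin 3))), ((Equiv.Perm.sign π : ℤˣ) : ℤ) •
      φ (Fin.cons x (Fin.cons x (fun t => a (π t)) : Fin 4 → A) : Fin 5 → A) =
      φ (Fin.cons x (Fin.cons x a : Fin 4 → A) : Fin 5 → A) := by
    intro π _
    have h3 : φ (Fin.cons x (Fin.cons x (fun t => a (π t)) : Fin 4 → A) : Fin 5 → A) =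
        ((Equiv.Perm.sign π : ℤˣ) : ℤ) •
          φ (Fin.cons x (Fin.cons x a : Fin 4 → A) : Fin 5 → A) :=
      (Kcg_map φ h hv x).map_perm a π
    rw [h3, smul_smul]
    rcases Int.units_eq_one_or (Equiv.Perm.sign π) with h5 | h5 <;> rw [h5] <;> simp
  rw [Finset.sum_congr rfl h4, Finset.sum_const, card_univ, Fintype.card_perm, Fintype.card_fin]
  rw [← natCast_zsmul]
  rfl

end

/-- `St_Kcg`. -/
theorem thm_Kcg (hW : St_Kwa) : St_Kcg := by
  classical
  intro K _ A _ _ _ _ hN φ hF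
  have hv : ∀ (a : Fin 3 → A) (j : Fin 5 → Fin 3), φ (fun t => a (j t)) = 0 :=
    fun a j => hF.van 3 (by norm_num) a j
  obtain ⟨c, hc⟩ := id hF.ml
  choose i j s hs using Kcg_word
  choose α β hαβ using hW A hN
  have hz : ∀ z : Fin 4 → A, (fun t => z ((![0, 0, 1, 2, 3] : Fin 5 → Fin 4) t)) =
      (Fin.cons (z 0) (Fin.cons (z 0) (fun k : Fin 3 => z k.succ) : Fin 4 → A) : Fin 5 → A) := by
    intro z
    funext t
    fin_cases t <;> rfl
  have hcons : ∀ z : Fin 4 → A, (Fin.cons (z 0) (fun k : Fin 3 => z k.succ) : Fin 4 → A) = z := by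
    intro z
    funext t
    fin_cases t <;> rfl
  have hsum : ∀ z : Fin 4 → A, (6 : ℤ) • φ (fun t => z ((![0, 0, 1, 2, 3] : Fin 5 → Fin 4) t)) =
      ∑ σ, c σ • (s σ • W2 (i σ) (j σ) (z 0) (fun k : Fin 3 => z k.succ)) := by
    intro z
    rw [hz, ← Kcg_six φ hF.ml hv]
    have h1 : ∀ π ∈ (univ : Finset (Equiv.Perm (Fin 3))), ((Equiv.Perm.sign π : ℤˣ) : ℤ) •
        φ (Fin.cons (z 0) (Fin.cons (z 0) (fun t => z (π t).succ) : Fin 4 → A) : Fin 5 → A) =
        ∑ σ, c σ • (((Equiv.Perm.sign π : ℤˣ) : ℤ) • wp (List.ofFn fun i =>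
          (Fin.cons (z 0) (Fin.cons (z 0) (fun t => z (π t).succ) : Fin 4 → A) : Fin 5 → A)
            (σ i))) := by
      intro π _
      rw [hc, Finset.smul_sum]
      exact Finset.sum_congr rfl fun σ _ => smul_comm _ _ _
    rw [Finset.sum_congr rfl h1, Finset.sum_comm]
    refine Finset.sum_congr rfl fun σ _ => ?_
    rw [← Finset.smul_sum]
    congr 1
    exact hs σ A (z 0) (fun k : Fin 3 => z k.succ)
  have hzs : ∀ (m : K) (n : ℤ) (y : A), m • (n • y) = (m * (n : K)) • y := by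
    intro m n y
    rw [mul_smul, Int.cast_smul_eq_zsmul]
  refine ⟨fun x => (12 : ℤ) • φ (fun t => x ((![0, 0, 1, 2, 3] : Fin 5 → Fin 4) t)), 12,
    ![0, 0, 1, 2, 3], ?_, fun x => rfl, ?_⟩
  · refine Or.inr (Or.inr (Or.inr (Or.inr (Or.inr (Or.inr ⟨
      ∑ σ, c σ * ((s σ * α (i σ) (j σ) : ℤ) : K), ∑ σ, c σ * ((s σ * β (i σ) (j σ) : ℤ) : K), 0,
      fun k => k.succ, rfl, Fin.succ_injective 3, fun k => Fin.succ_ne_zero k, fun z => ?_⟩)))))
    change (12 : ℤ) • φ (fun t => z ((![0, 0, 1, 2, 3] : Fin 5 → Fin 4) t)) = _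
    have h12 : (12 : ℤ) • φ (fun t => z ((![0, 0, 1, 2, 3] : Fin 5 → Fin 4) t)) =
        (2 : ℤ) • ((6 : ℤ) • φ (fun t => z ((![0, 0, 1, 2, 3] : Fin 5 → Fin 4) t))) := by
      rw [smul_smul]
      norm_num
    rw [h12, hsum, Finset.smul_sum, Finset.sum_smul, Finset.sum_smul, ← Finset.sum_add_distrib]
    refine Finset.sum_congr rfl fun σ _ => ?_
    rw [smul_comm (2 : ℤ) (c σ), smul_comm (2 : ℤ) (s σ), hαβ, hcons, smul_add, smul_smul,
      smul_smul, smul_add, hzs, hzs]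
  · obtain ⟨z, hz0⟩ := hF.ne
    refine ⟨z, fun h => hz0 ?_⟩
    have h6 : (6 : ℤ) • ((2 : ℤ) • φ (fun t => z ((![0, 0, 1, 2, 3] : Fin 5 → Fin 4) t))) = 0 := by
      rw [smul_smul]
      exact h
    have h2 := hN.tf _ h6
    refine hN.tf _ ?_
    have h3 : (6 : ℤ) • φ (fun t => z ((![0, 0, 1, 2, 3] : Fin 5 → Fin 4) t)) =
        (3 : ℤ) • ((2 : ℤ) • φ (fun t => z ((![0, 0, 1, 2, 3] : Fin 5 → Fin 4) t))) := by
      rw [smul_smul]
      norm_num
    rw [h3, h2, smul_zero]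

end Pool.Agent.CRQ
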