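import Pool.Agent.CRQ.St

/-!
Campaign CRQ, module Kch: the pattern `x, x, x, y, z`, with coefficients (helper63).
-/

set_option autoImplicit false

namespace Pool.Agent.CRQ

open Pool.Agent.CRR Pool.Agent.CRN Pool.Agent.CRK Pool.Agent.CRL Pool.Agent.CRM Pool.Agent.CRP

theorem thm_Kch (hX : St_Kxb) : St_Kch := by
  intro K _ A _ _ _ _ hN φ hφ
  obtain ⟨a, b, hab⟩ := (hX K A hN φ hφ.ml).1
  obtain ⟨h2, _, _, _⟩ := CRK.ida A hN
  -- the function vanishes if the last two arguments are equal
  have hz : ∀ x w : A, (a + b) • (x * x * w * x * w) = 0 := by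
    intro x w
    have h1 := hφ.van 2 (by norm_num) ![x, w] ![0, 0, 0, 1, 1]
    have h3 : (fun t => (![x, w] : Fin 2 → A) ((![0, 0, 0, 1, 1] : Fin 5 → Fin 2) t)) =
        ![x, x, x, w, w] := by
      funext t
      fin_cases t <;> rfl
    rw [h3, hab] at h1
    rw [add_smul]
    exact h1
  have hz2 : ∀ x y z : A, (a + b) • (x * x * y * x * z + x * x * z * x * y) = 0 := by
    intro x y z
    have h1 := hz x (y + z)
    have h3 := hz x y
    have h4 := hz x z
    have e : x * x * (y + z) * x * (y + z) = x * x * y * x * y + x * x * z * x * z +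
        (x * x * y * x * z + x * x * z * x * y) := by
      simp only [mul_add, add_mul]
      abel
    rw [e, smul_add, smul_add, h3, h4, zero_add, zero_add] at h1
    exact h1
  have hmain : ∀ x y z : A, (4 : ℤ) • φ ![x, x, x, y, z] = (b - a) • (x * x * stp ![x, y, z]) := by
    intro x y z
    obtain ⟨_, _, i3, _, _, _⟩ := CRK.idd A hN x y z
    obtain ⟨_, _, i3', _, _, _⟩ := CRK.idd A hN x z y
    have n1 : ∀ w : A, x * x * (x * w) = 0 := by
      intro w
      rw [← mul_assoc, hN.nz x, zero_mul]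
    have e1 : x * x * stp ![x, y, z] =
        (2 : ℤ) • (x * x * z * x * y) - (2 : ℤ) • (x * x * y * x * z) := by
      rw [CRK.Csh_stp]
      simp only [Matrix.cons_val_zero, Matrix.cons_val_one, Matrix.cons_val]
      have e2 : x * x * (x * (y * z) - x * (z * y) - y * (x * z) + y * (z * x) + z * (x * y) -
          z * (y * x)) = x * x * (x * (y * z)) - x * x * (x * (z * y)) - x * x * y * x * z +
          x * x * y * z * x + x * x * z * x * y - x * x * z * y * x := by
        simp only [mul_sub, mul_add, mul_assoc]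
      rw [e2, n1, n1, i3, i3']
      abel
    rw [e1, hab]
    have e3 := hz2 x y z
    have e4 : (4 : ℤ) • (a • (x * x * y * x * z) + b • (x * x * z * x * y)) =
        (b - a) • ((2 : ℤ) • (x * x * z * x * y) - (2 : ℤ) • (x * x * y * x * z)) +
        (2 : ℤ) • ((a + b) • (x * x * y * x * z + x * x * z * x * y)) := by
      generalize x * x * y * x * z = T
      generalize x * x * z * x * y = T'
      module
    rw [e4, e3, smul_zero, add_zero]
  have hsh : ∀ x : Fin 3 → A,
      (fun t => x ((![0, 0, 0, 1, 2] : Fin 5 → Fin 3) t)) = ![x 0, x 0, x 0, x 1, x 2] := by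
    intro x
    funext t
    fin_cases t <;> rfl
  have hst : ∀ x : Fin 3 → A, stp ![x 0, x 1, x 2] = stp x := by
    intro x
    congr 1
    funext t
    fin_cases t <;> rfl
  refine ⟨fun x => (4 : ℤ) • φ (fun t => x ((![0, 0, 0, 1, 2] : Fin 5 → Fin 3) t)), 4,
    ![0, 0, 0, 1, 2], ?_, fun x => rfl, ?_⟩
  · right; right; left
    refine ⟨b - a, 0, fun x => ?_⟩
    show (4 : ℤ) • φ (fun t => x ((![0, 0, 0, 1, 2] : Fin 5 → Fin 3) t)) =
      (b - a) • (x 0 * x 0 * stp x)
    rw [hsh, hmain, hst]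
  · obtain ⟨z, hz'⟩ := hφ.ne
    refine ⟨z, fun h => hz' ?_⟩
    have h4 : (4 : ℤ) • φ (fun t => z ((![0, 0, 0, 1, 2] : Fin 5 → Fin 3) t)) =
        (2 : ℤ) • ((2 : ℤ) • φ (fun t => z ((![0, 0, 0, 1, 2] : Fin 5 → Fin 3) t))) := by
      rw [smul_smul]
      norm_num
    exact h2 _ (h2 _ (h4.symm.trans h))

end Pool.Agent.CRQ
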