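import Pool.Agent.CRQ.St

/-!
Campaign CRQ, module Kci: the case `b = 5`, `g = 3` with the pattern `x, x, y, y, z`, coefficients in `K`.
-/

set_option autoImplicit false

namespace Pool.Agent.CRQ

open Pool.Agent.CRR Pool.Agent.CRN Pool.Agent.CRK Pool.Agent.CRL Pool.Agent.CRM Pool.Agent.CRP

theorem Kci_wp {R : Type} [NonUnitalRing R] (f : Fin 5 → R) :
    wp (List.ofFn f) = f 0 * (f 1 * (f 2 * (f 3 * f 4))) := by
  simp [List.ofFn_succ, wp]

theorem Kci_add {K : Type} [CommRing K] {R : Type} [NonUnitalRing R] [Module K R]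
    (φ : (Fin 5 → R) → R) (h : KML K 5 φ)
    (v : Fin 5 → R) (k : Fin 5) (a b : R) :
    φ (Function.update v k (a + b)) = φ (Function.update v k a) + φ (Function.update v k b) := by
  obtain ⟨c, hc⟩ := h
  rw [hc, hc, hc, ← Finset.sum_add_distrib]
  refine Finset.sum_congr rfl fun σ _ => ?_
  rw [← smul_add]
  congr 1
  have key : ∀ a : R, (fun i => Function.update v k a (σ i)) =
      Function.update (v ∘ σ) (σ.symm k) a := fun a => Function.update_comp_equiv v σ k a
  rw [key, key, key, Kci_wp, Kci_wp, Kci_wp]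
  generalize v ∘ σ = w
  generalize σ.symm k = j
  fin_cases j <;> simp [Function.update, mul_add, add_mul]

theorem Kci_exp {K : Type} [CommRing K] {R : Type} [NonUnitalRing R] [Module K R]
    (φ : (Fin 5 → R) → R) (h : KML K 5 φ)
    (x y z : R) : φ ![x, x, y + x, y + x, z] =
      φ ![x, x, y, y, z] + φ ![x, x, y, x, z] + φ ![x, x, x, y, z] + φ ![x, x, x, x, z] := by
  have e1 : ∀ p q r : R, Function.update (![x, x, p, q, z] : Fin 5 → R) 2 r = ![x, x, r, q, z] := by
    intro p q r
    funext t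
    fin_cases t <;> rfl
  have e2 : ∀ p q r : R, Function.update (![x, x, p, q, z] : Fin 5 → R) 3 r = ![x, x, p, r, z] := by
    intro p q r
    funext t
    fin_cases t <;> rfl
  have h1 := Kci_add φ h ![x, x, y, y + x, z] 2 y x
  have h2 := Kci_add φ h ![x, x, y, y, z] 3 y x
  have h3 := Kci_add φ h ![x, x, x, y, z] 3 y x
  rw [e1, e1, e1] at h1
  rw [e2, e2, e2] at h2 h3
  rw [h1, h2, h3]
  abel

/-- Step (4). -/
theorem Kci_w {K : Type} [CommRing K] {R : Type} [NonUnitalRing R] [Module K R] (hR : N6 R)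
    (hIda : St_Ida) (hIde : St_Ide) (m : K) (hm : ∀ x y : R, m • (x * x * y * x * y) = 0) (x y z : R) :
    m • (x * y * z * x * y) = 0 ∧ m • (x * x * y * y * z + x * y * x * y * z) = 0 := by
  obtain ⟨h2, _, _, _⟩ := hIda R hR
  obtain ⟨⟨i1, i2, i3, i4⟩, ⟨j1, j2, j3, j4, j5, j6⟩, ⟨k1, k2, k3, k4, k5, k6⟩,
    ⟨l1, l2, l3, l4, l5, l6⟩, ⟨n1, n2, n3, n4, n5⟩⟩ := hIde R hR x y z _ _ _ rfl rfl rfl
  have a0 := hm x y
  have a1 := hm (x + z) y
  have a2 := hm (x - z) y
  have b0 := hm y x
  have b1 := hm (y + z) x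
  have b2 := hm (y - z) x
  have A : m • ((-2 : ℤ) • (x * x * y * y * z) - (2 : ℤ) • (x * y * x * y * z)
      - x * y * z * x * y) = 0 := by
    apply h2
    have e : z * x * y * x * y + x * z * y * x * y + x * x * y * z * y =
        (-2 : ℤ) • (x * x * y * y * z) - (2 : ℤ) • (x * y * x * y * z) - x * y * z * x * y := by
      rw [j2, l5, k1]; module
    rw [← e]
    have e3 : (2 : ℤ) • m • (z * x * y * x * y + x * z * y * x * y + x * x * y * z * y) =
      m • ((x + z) * (x + z) * y * (x + z) * y) - m • ((x - z) * (x - z) * y * (x - z) * y)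
      - (2 : ℤ) • m • (z * z * y * z * y) := by
      simp only [mul_add, add_mul, mul_sub, sub_mul]
      module
    rw [e3, a1, a2, hm z y]
    simp
  have B : m • ((-2 : ℤ) • (x * x * y * y * z) - (2 : ℤ) • (x * y * x * y * z)
      + x * y * z * x * y) = 0 := by
    apply h2
    have e : z * y * x * y * x + y * z * x * y * x + y * y * x * z * x =
        (-2 : ℤ) • (x * x * y * y * z) - (2 : ℤ) • (x * y * x * y * z) + x * y * z * x * y := by
      rw [j5, l6, k2]; module
    rw [← e]
    have e3 : (2 : ℤ) • m • (z * y * x * y * x + y * z * x * y * x + y * y * x * z * x) =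
      m • ((y + z) * (y + z) * x * (y + z) * x) - m • ((y - z) * (y - z) * x * (y - z) * x)
      - (2 : ℤ) • m • (z * z * x * z * x) := by
      simp only [mul_add, add_mul, mul_sub, sub_mul]
      module
    rw [e3, b1, b2, hm z x]
    simp
  constructor
  · apply h2
    linear_combination (norm := module) B - A
  · apply h2
    apply h2
    linear_combination (norm := module) -A - B

/-- Step (5). -/
theorem Kci_t {K : Type} [CommRing K] {R : Type} [NonUnitalRing R] [Module K R] (hR : N6 R)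
    (hIda : St_Ida) (hIde : St_Ide) (m : K) (hm : ∀ x y z : R, m • (x * x * y * x * z - x * x * z * x * y) = 0) (x y z : R) :
    m • (x * x * y * y * z - x * y * x * y * z - x * y * z * x * y) = 0 := by
  obtain ⟨h2, _, _, _⟩ := hIda R hR
  obtain ⟨⟨i1, i2, i3, i4⟩, ⟨j1, j2, j3, j4, j5, j6⟩, ⟨k1, k2, k3, k4, k5, k6⟩,
    ⟨l1, l2, l3, l4, l5, l6⟩, ⟨n1, n2, n3, n4, n5⟩⟩ := hIde R hR x y z _ _ _ rfl rfl rfl
  have a1 := hm (x + y) y z
  have a2 := hm (x - y) y z
  apply h2
  apply h2
  have e : (y * x * y * x * z + x * y * y * x * z + x * x * y * y * z) -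
      (y * x * z * x * y + x * y * z * x * y + x * x * z * y * y) =
      (2 : ℤ) • (x * x * y * y * z - x * y * x * y * z - x * y * z * x * y) := by
    rw [i3, i1, n4, n1]; module
  have e2 : (2 : ℤ) • (2 : ℤ) • m •
      (x * x * y * y * z - x * y * x * y * z - x * y * z * x * y) =
      (2 : ℤ) • m • ((y * x * y * x * z + x * y * y * x * z + x * x * y * y * z) -
      (y * x * z * x * y + x * y * z * x * y + x * x * z * y * y)) := by
    rw [e]; module
  rw [e2]
  have e3 : (2 : ℤ) • m • ((y * x * y * x * z + x * y * y * x * z + x * x * y * y * z) -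
      (y * x * z * x * y + x * y * z * x * y + x * x * z * y * y)) =
      m • ((x + y) * (x + y) * y * (x + y) * z - (x + y) * (x + y) * z * (x + y) * y)
      - m • ((x - y) * (x - y) * y * (x - y) * z - (x - y) * (x - y) * z * (x - y) * y)
      - (2 : ℤ) • m • (y * y * y * y * z - y * y * z * y * y) := by
    simp only [mul_add, add_mul, mul_sub, sub_mul]
    module
  rw [e3, a1, a2, hm y y z]
  simp

theorem Kci_main (hIda : St_Ida) (hIdc : St_Idc) (hIdd : St_Idd) (hIde : St_Ide)
    (hKxb : St_Kxb) : St_Kci := by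
  intro K _ R _ _ _ _ hR φ hφ hF
  obtain ⟨h2, _, _, _⟩ := hIda R hR
  obtain ⟨_, a, b, c, habc⟩ := hKxb K R hR φ hF.ml
  have nz := hR.nz
  -- (2)
  have s2 : ∀ x y : R, (a + c) • (x * x * y * x * y) = 0 := by
    intro x y
    obtain ⟨c1, c2, c3, c4, c5, c6⟩ := hIdc R hR x y
    have h1 := hF.van 2 (by norm_num) ![x, y] ![0, 0, 1, 1, 0]
    have h3 : (fun t => (![x, y] : Fin 2 → R) ((![0, 0, 1, 1, 0] : Fin 5 → Fin 2) t)) =
        ![x, x, y, y, x] := by
      funext t; fin_cases t <;> rfl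
    rw [h3, habc, c4, c3, c1] at h1
    linear_combination (norm := module) -h1
  have s3 : ∀ x y : R, (c - b) • (x * x * y * x * y) = 0 := by
    intro y x
    obtain ⟨c1, c2, c3, c4, c5, c6⟩ := hIdc R hR y x
    have h1 := hF.van 2 (by norm_num) ![x, y] ![0, 0, 1, 1, 1]
    have h3 : (fun t => (![x, y] : Fin 2 → R) ((![0, 0, 1, 1, 1] : Fin 5 → Fin 2) t)) =
        ![x, x, y, y, y] := by
      funext t; fin_cases t <;> rfl
    have h4 : x * x * y * y * y = 0 := by
      rw [mul_assoc (x * x) y y, mul_assoc (x * x) (y * y) y, nz, mul_zero]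
    rw [h3, habc, h4, c5, c6] at h1
    linear_combination (norm := module) h1
  -- (1)
  have s1 : ∀ x y z : R, (a - b) • (x * x * y * x * z - x * x * z * x * y) = 0 := by
    have s0 : ∀ x y z : R, (a - b + c) • (x * x * y * x * z) + c • (x * x * z * x * y) = 0 := by
      intro x y z
      obtain ⟨d1, d2, d3, d4, d5, d6⟩ := hIdd R hR x y z
      have h1 := Kci_exp φ hF.ml x y z
      rw [(hφ x y z).1, (hφ x y z).2, (hφ x x z).1, habc, habc] at h1
      simp only [mul_add, add_mul, nz, zero_mul, d1, d4] at h1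
      have h5 : x * x * z * x * x = 0 := by
        obtain ⟨_, _, _, d4', _, _⟩ := hIdd R hR x x z
        rw [d4', nz, zero_mul, zero_mul]
      rw [h5] at h1
      linear_combination (norm := module) h1
    intro x y z
    linear_combination (norm := module) s0 x y z - s0 x z y
  obtain ⟨w, hw⟩ := hF.ne
  have h3 : (fun t => w ((![0, 0, 1, 1, 2] : Fin 5 → Fin 3) t)) =
      ![w 0, w 0, w 1, w 1, w 2] := by
    funext t; fin_cases t <;> rfl
  rw [h3] at hw
  apply hw
  have w1 := Kci_w hR hIda hIde _ s2 (w 0) (w 1) (w 2)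
  have w2 := Kci_w hR hIda hIde _ s3 (w 0) (w 1) (w 2)
  have w3 := Kci_t hR hIda hIde _ s1 (w 0) (w 1) (w 2)
  apply h2
  rw [habc]
  linear_combination (norm := module) w1.2 - w2.2 + w3 + w1.1 + w2.1

/-- **KCI.** -/
theorem thm_Kci (hKxb : St_Kxb) : St_Kci := Kci_main ida idc idd ide hKxb

end Pool.Agent.CRQ
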