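import Pool.Agent.CRQ.St

/-!
Campaign CRQ, module Kcs: the case analysis with coefficients.
-/

set_option autoImplicit false

namespace Pool.Agent.CRQ

open Pool.Agent.CRR Pool.Agent.CRN Pool.Agent.CRK Pool.Agent.CRL Pool.Agent.CRM Pool.Agent.CRP

variable {K : Type} [CommRing K] {A : Type} [NonUnitalRing A] [Module K A]

theorem Kcs_out {b g : ℕ} {φ : (Fin b → A) → A} (π : Equiv.Perm (Fin b))
    (h : KOut K b g (fun x => φ (fun t => x (π t)))) : KOut K b g φ := by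
  obtain ⟨f, N, i, hf, hφ, hne⟩ := h
  exact ⟨f, N, fun t => i (π t), hf, hφ, hne⟩

theorem Kcs_fp (hKta : St_Kta) {b g : ℕ} {φ : (Fin b → A) → A} (h : KFn K b g φ) (z : Fin g → A)
    (i : Fin b → Fin g) (hne : φ (fun t => z (i t)) ≠ 0) (q : Fin b → Fin g)
    (π : Equiv.Perm (Fin b)) (τ : Equiv.Perm (Fin g)) (hπ : ∀ t, i (π t) = τ (q t)) :
    KFp K b g q (fun x => φ (fun t => x (π.symm t))) := by
  refine ⟨hKta K A b φ π.symm h.ml, fun k hk a j => h.van k hk a (fun t => j (π.symm t)),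
    fun t => z (τ t), ?_⟩
  have h1 : (fun t => z (τ (q (π.symm t)))) = fun t => z (i t) := by
    funext t
    rw [← hπ, Equiv.apply_symm_apply]
  show φ (fun t => z (τ (q (π.symm t)))) ≠ 0
  rw [h1]
  exact hne

theorem thm_Kcs (hKta : St_Kta) (hKca : St_Kca) (hKcb : St_Kcb) (hKcc : St_Kcc)
    (hKcd : St_Kcd) (hKcf : St_Kcf) (hKcg : St_Kcg) (hKch : St_Kch)
    (hKci : St_Kci) : St_Kcs := by
  intro K _ A _ _ _ _ hN b g φ hb1 hb5 hF
  obtain ⟨z, i, hi, hne⟩ := hF.ne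
  have hgb : g ≤ b := by
    have := Fintype.card_le_of_surjective i hi
    simpa using this
  have hg1 : 1 ≤ g := by
    by_contra h
    have h0 : g = 0 := by omega
    subst h0
    exact (i ⟨0, hb1⟩).elim0
  obtain ⟨p32, p42, p43, p52, p53, p54⟩ := CRK.thm_Ptb
  by_cases h1 : g = 1
  · subst h1
    exact hKca K A hN b φ hb1 hF
  by_cases hbg : g = b
  · subst hbg
    exact hKcb K A hN g φ hg1 hb5 hF
  have hcase : (b = 3 ∧ g = 2) ∨ (b = 4 ∧ g = 2) ∨ (b = 4 ∧ g = 3) ∨ (b = 5 ∧ g = 2) ∨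
      (b = 5 ∧ g = 3) ∨ (b = 5 ∧ g = 4) := by omega
  rcases hcase with ⟨rfl, rfl⟩ | ⟨rfl, rfl⟩ | ⟨rfl, rfl⟩ | ⟨rfl, rfl⟩ | ⟨rfl, rfl⟩ | ⟨rfl, rfl⟩
  · obtain ⟨π, τ, h⟩ := p32 i hi
    exact Kcs_out π.symm (hKcc K A hN _ (Kcs_fp hKta hF z i hne _ π τ h))
  · obtain ⟨π, τ, h | h⟩ := p42 i hi
    · exact Kcs_out π.symm (((hKcd K A hN).1 _).1 (Kcs_fp hKta hF z i hne _ π τ h))
    · exact Kcs_out π.symm (((hKcd K A hN).1 _).2 (Kcs_fp hKta hF z i hne _ π τ h))
  · obtain ⟨π, τ, h⟩ := p43 i hi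
    exact Kcs_out π.symm (hKcf K A hN _ (Kcs_fp hKta hF z i hne _ π τ h))
  · obtain ⟨π, τ, h | h⟩ := p52 i hi
    · exact Kcs_out π.symm (((hKcd K A hN).2 _).1 (Kcs_fp hKta hF z i hne _ π τ h))
    · exact Kcs_out π.symm (((hKcd K A hN).2 _).2 (Kcs_fp hKta hF z i hne _ π τ h))
  · obtain ⟨π, τ, h | h⟩ := p53 i hi
    · exact Kcs_out π.symm (hKch K A hN _ (Kcs_fp hKta hF z i hne _ π τ h))
    · have hfp := Kcs_fp hKta hF z i hne _ π τ h
      apply Kcs_out π.symm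
      set φ' : (Fin 5 → A) → A := fun x => φ (fun t => x (π.symm t)) with hφ'
      by_cases hA : ∀ x y z, φ' ![x, x, x, y, z] = 0 ∧ φ' ![x, x, y, x, z] = 0
      · exact (hKci K A hN φ' hA hfp).elim
      · rw [not_forall] at hA
        obtain ⟨x, hA⟩ := hA
        rw [not_forall] at hA
        obtain ⟨y, hA⟩ := hA
        rw [not_forall] at hA
        obtain ⟨w, hA⟩ := hA
        by_cases hB : φ' ![x, x, x, y, w] = 0
        · have hC : φ' ![x, x, y, x, w] ≠ 0 := fun hC => hA ⟨hB, hC⟩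
          apply Kcs_out (Equiv.swap 2 3)
          refine hKch K A hN _ ⟨hKta K A 5 φ' _ hfp.ml,
            fun k hk a j => hfp.van k hk a (fun t => j (Equiv.swap 2 3 t)), ![x, y, w], ?_⟩
          intro h'
          apply hC
          have h5 : (![x, x, y, x, w] : Fin 5 → A) =
              fun t => (![x, y, w] : Fin 3 → A) ((![0, 0, 0, 1, 2] : Fin 5 → Fin 3)
                (Equiv.swap 2 3 t)) := by
            funext t
            fin_cases t <;> rfl
          rw [h5]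
          exact h'
        · refine hKch K A hN _ ⟨hfp.ml, hfp.van, ![x, y, w], ?_⟩
          intro h'
          apply hB
          have h5 : (![x, x, x, y, w] : Fin 5 → A) =
              fun t => (![x, y, w] : Fin 3 → A) ((![0, 0, 0, 1, 2] : Fin 5 → Fin 3) t) := by
            funext t
            fin_cases t <;> rfl
          rw [h5]
          exact h'
  · obtain ⟨π, τ, h⟩ := p54 i hi
    exact Kcs_out π.symm (hKcg K A hN _ (Kcs_fp hKta hF z i hne _ π τ h))

end Pool.Agent.CRQ
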