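import Pool.Agent.CRQ.St
import Mathlib.LinearAlgebra.Alternating.Basic
import Mathlib.LinearAlgebra.Multilinear.Basic
import Mathlib.Algebra.Algebra.Unitization

/-!
Campaign CRQ, module Kdp: the functions `KFun` vanish if the arguments are linearly dependent.
-/

set_option autoImplicit false

namespace Pool.Agent.CRQ

open Pool.Agent.CRR Pool.Agent.CRN Pool.Agent.CRK Pool.Agent.CRL Pool.Agent.CRM Pool.Agent.CRP

section

variable {K : Type} [CommRing K] {A : Type} [NonUnitalRing A] [Module K A]
  [IsScalarTower K A A] [SMulCommClass K A A]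

theorem Kdp_inr_wp : ∀ l : List A, l ≠ [] →
    ((wp l : A) : Unitization K A) = (l.map (Unitization.inr : A → Unitization K A)).prod
  | [], h => absurd rfl h
  | [x], _ => by simp [wp]
  | x :: y :: l, _ => by
      have ih := Kdp_inr_wp (y :: l) (List.cons_ne_nil _ _)
      rw [show wp (x :: y :: l) = x * wp (y :: l) from rfl, Unitization.inr_mul, ih, List.map_cons,
        List.map_cons, List.map_cons, List.prod_cons, List.prod_cons, List.prod_cons]

variable (K A) in
/-- The standard polynomial as an alternating map. -/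
noncomputable def KdpA (g : ℕ) :
    AlternatingMap K (Unitization K A) (Unitization K A) (Fin g) :=
  MultilinearMap.alternatization (MultilinearMap.mkPiAlgebraFin K g (Unitization K A))

theorem Kdp_inr_zsmul (n : ℤ) (a : A) :
    ((n • a : A) : Unitization K A) = n • (a : Unitization K A) :=
  map_zsmul (Unitization.inrHom K K A) n a

theorem Kdp_inr_stp {g : ℕ} (hg : g ≠ 0) (x : Fin g → A) :
    ((stp x : A) : Unitization K A) = KdpA K A g fun i => (x i : Unitization K A) := by
  have h : KdpA K A g (fun i => (x i : Unitization K A)) =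
      ∑ σ : Equiv.Perm (Fin g), ((Equiv.Perm.sign σ : ℤˣ) : ℤ) •
        (List.ofFn fun i => (x (σ i) : Unitization K A)).prod := by
    rw [KdpA, MultilinearMap.alternatization_apply]
    refine Finset.sum_congr rfl fun σ _ => ?_
    rw [MultilinearMap.domDomCongr_apply, MultilinearMap.mkPiAlgebraFin_apply]
    rfl
  rw [h, stp]
  have h2 : ∀ s : Finset (Equiv.Perm (Fin g)), ∀ u : Equiv.Perm (Fin g) → A,
      ((∑ σ ∈ s, u σ : A) : Unitization K A) = ∑ σ ∈ s, (u σ : Unitization K A) := by
    intro s u
    exact map_sum (Unitization.inrHom K K A) u s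
  rw [h2]
  refine Finset.sum_congr rfl fun σ _ => ?_
  rw [Kdp_inr_zsmul, Kdp_inr_wp]
  · rw [List.map_ofFn]; rfl
  · intro h0
    have := congrArg List.length h0
    rw [List.length_ofFn] at this
    exact hg this

theorem Kdp_inr_update {g : ℕ} (x : Fin g → A) (l : Fin g) (v : A) :
    (fun i => ((Function.update x l v) i : Unitization K A)) =
      Function.update (fun i => (x i : Unitization K A)) l (v : Unitization K A) := by
  funext i
  by_cases h : i = l
  · subst h
    rw [Function.update_self, Function.update_self]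
  · rw [Function.update_of_ne h, Function.update_of_ne h]

variable (K) in
/-- The standard polynomial is linear in every argument. -/
theorem Kdp_stp_lin {g : ℕ} (x : Fin g → A) (l : Fin g) :
    ∃ L : A →ₗ[K] A, ∀ v, stp (Function.update x l v) = L v := by
  have hg : g ≠ 0 := by
    rintro rfl
    exact l.elim0
  have hinj : Function.Injective (fun r : A => (r : Unitization K A)) := Unitization.inr_injective
  refine ⟨{ toFun := fun v => stp (Function.update x l v), map_add' := ?_, map_smul' := ?_ },
    fun v => rfl⟩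
  · intro u v
    apply hinj
    show ((stp (Function.update x l (u + v)) : A) : Unitization K A) =
      ((stp (Function.update x l u) + stp (Function.update x l v) : A) : Unitization K A)
    rw [Unitization.inr_add, Kdp_inr_stp hg, Kdp_inr_stp hg, Kdp_inr_stp hg, Kdp_inr_update,
      Kdp_inr_update, Kdp_inr_update, Unitization.inr_add, AlternatingMap.map_update_add]
  · intro c v
    apply hinj
    show ((stp (Function.update x l (c • v)) : A) : Unitization K A) =
      ((c • stp (Function.update x l v) : A) : Unitization K A)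
    rw [Unitization.inr_smul, Kdp_inr_stp hg, Kdp_inr_stp hg, Kdp_inr_update,
      Kdp_inr_update, Unitization.inr_smul, AlternatingMap.map_update_smul]

omit [Module K A] [IsScalarTower K A A] [SMulCommClass K A A] in
/-- The standard polynomial is zero if two arguments are equal. -/
theorem Kdp_stp_eq {g : ℕ} (x : Fin g → A) (i j : Fin g) (hij : i ≠ j) (h : x i = x j) :
    stp x = 0 := by
  have hg : g ≠ 0 := by
    rintro rfl
    exact i.elim0
  have hinj : Function.Injective (fun r : A => (r : Unitization ℤ A)) := Unitization.inr_injective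
  apply hinj
  show ((stp x : A) : Unitization ℤ A) = ((0 : A) : Unitization ℤ A)
  rw [Kdp_inr_stp hg, Unitization.inr_zero]
  refine AlternatingMap.map_eq_zero_of_eq _ _ ?_ hij
  show (x i : Unitization ℤ A) = (x j : Unitization ℤ A)
  rw [h]

/-- A function linear in the argument `l` and zero if two arguments are equal. -/
theorem Kdp_zero {g : ℕ} (f : (Fin g → A) → A)
    (hf : ∀ (x : Fin g → A) (i j : Fin g), i ≠ j → x i = x j → f x = 0)
    (x : Fin g → A) (l : Fin g) (μ : Fin g → K)
    (hlin : ∃ L : A →ₗ[K] A, ∀ v, f (Function.update x l v) = L v)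
    (hl : μ l = 0) (hx : x l = ∑ k, μ k • x k) : f x = 0 := by
  obtain ⟨L, hL⟩ := hlin
  have h1 : f x = L (x l) := by
    rw [← hL, Function.update_eq_self]
  rw [h1, hx, map_sum]
  refine Finset.sum_eq_zero fun k _ => ?_
  rw [map_smul, ← hL]
  by_cases hk : k = l
  · subst hk
    rw [hl, zero_smul]
  · rw [hf (Function.update x l (x k)) l k (Ne.symm hk), smul_zero]
    rw [Function.update_self, Function.update_of_ne hk]

theorem Kdp_stp {g : ℕ} (x : Fin g → A) (k : Fin g) (μ : Fin g → K) (hk : μ k = 0)
    (hx : x k = ∑ j, μ j • x j) : stp x = 0 :=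
  Kdp_zero (K := K) stp (fun y i j hij h => Kdp_stp_eq y i j hij h) x k μ
    (Kdp_stp_lin K x k) hk hx

omit [Module K A] [IsScalarTower K A A] [SMulCommClass K A A] in
theorem Kdp_stp_zero {g : ℕ} (x : Fin g → A) (k : Fin g) (hx : x k = 0) : stp x = 0 := by
  obtain ⟨L, hL⟩ := Kdp_stp_lin ℤ x k
  have h1 : stp x = L (x k) := by
    rw [← hL, Function.update_eq_self]
  rw [h1, hx, map_zero]

theorem Kdp_mul (hz : ∀ x : A, x * x * x = 0) (a : A) (s t u v : K) :
    (s • a) * (t • a) * (u • a) * (v • a) = 0 := by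
  simp only [smul_mul_assoc, mul_smul_comm, hz, zero_mul, smul_zero]

theorem Kdp_two (x : Fin 2 → A) (k : Fin 2) (μ : Fin 2 → K) (hk : μ k = 0)
    (hx : x k = ∑ j, μ j • x j) (i j : Fin 2) :
    ∃ (c : A) (s t : K), x i = s • c ∧ x j = t • c := by
  rw [Fin.sum_univ_two] at hx
  have h : ∃ (c : A) (s : Fin 2 → K), ∀ i, x i = s i • c := by
    fin_cases k
    · refine ⟨x 1, ![μ 1, 1], fun i => ?_⟩
      have h0 : μ 0 = 0 := hk
      have h1 : x 0 = μ 0 • x 0 + μ 1 • x 1 := hx
      fin_cases i
      · show x 0 = μ 1 • x 1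
        rw [h0, zero_smul, zero_add] at h1
        exact h1
      · show x 1 = (1 : K) • x 1
        rw [one_smul]
    · refine ⟨x 0, ![1, μ 0], fun i => ?_⟩
      have h0 : μ 1 = 0 := hk
      have h1 : x 1 = μ 0 • x 0 + μ 1 • x 1 := hx
      fin_cases i
      · show x 0 = (1 : K) • x 0
        rw [one_smul]
      · show x 1 = μ 0 • x 0
        rw [h0, zero_smul, add_zero] at h1
        exact h1
  obtain ⟨c, s, hs⟩ := h
  exact ⟨c, s i, s j, hs i, hs j⟩

variable (K) in
/-- `x_i s(x_j)` is linear in every argument. -/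
theorem Kdp_lin_six {g n : ℕ} (i : Fin g) (j : Fin n → Fin g) (hj : Function.Injective j)
    (hji : ∀ k, j k ≠ i) (hsur : ∀ l, l = i ∨ ∃ k, l = j k) (x : Fin g → A) (l : Fin g) :
    ∃ L : A →ₗ[K] A, ∀ v, (Function.update x l v) i *
      stp (fun k => (Function.update x l v) (j k)) = L v := by
  rcases hsur l with rfl | ⟨k₀, rfl⟩
  · refine ⟨LinearMap.mulRight K (stp fun k => x (j k)), fun v => ?_⟩
    rw [LinearMap.mulRight_apply, Function.update_self]
    congr 2
    funext k
    rw [Function.update_of_ne (hji k)]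
  · obtain ⟨L, hL⟩ := Kdp_stp_lin K (fun k => x (j k)) k₀
    refine ⟨(LinearMap.mulLeft K (x i)).comp L, fun v => ?_⟩
    rw [LinearMap.comp_apply, LinearMap.mulLeft_apply, ← hL,
      Function.update_of_ne (fun h => hji k₀ h.symm)]
    congr 2
    funext k
    by_cases hk : k = k₀
    · subst hk
      rw [Function.update_self, Function.update_self]
    · rw [Function.update_of_ne hk, Function.update_of_ne (fun h => hk (hj h))]

theorem Kdp_sur {n : ℕ} (i : Fin (n + 1)) (j : Fin n → Fin (n + 1)) (hj : Function.Injective j)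
    (hji : ∀ k, j k ≠ i) (l : Fin (n + 1)) : l = i ∨ ∃ k, l = j k := by
  by_contra hcon
  simp only [not_or, not_exists] at hcon
  obtain ⟨h1, h2⟩ := hcon
  have h3 : (Finset.univ.image j).card = n := by
    rw [Finset.card_image_of_injective _ hj, Finset.card_univ, Fintype.card_fin]
  have h4 : Finset.univ.image j ⊆ (Finset.univ.erase i).erase l := by
    intro y hy
    obtain ⟨k, -, rfl⟩ := Finset.mem_image.mp hy
    exact Finset.mem_erase.mpr ⟨fun h => h2 k h.symm, Finset.mem_erase.mpr ⟨hji k, Finset.mem_univ _⟩⟩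
  have h5 := Finset.card_le_card h4
  rw [h3, Finset.card_erase_of_mem (Finset.mem_erase.mpr ⟨h1, Finset.mem_univ _⟩),
    Finset.card_erase_of_mem (Finset.mem_univ _), Finset.card_univ, Fintype.card_fin] at h5
  have hn : 0 < n := by
    rcases Nat.eq_zero_or_pos n with rfl | h
    · exact absurd (by omega) h1
    · exact h
  omega

end

theorem thm_Kdp : St_Kdp := by
  intro K _ A _ _ _ _ hz g f hf heq
  rcases hf with ⟨m, h⟩ | ⟨a, b, i, h⟩ | ⟨m, i, h⟩ | ⟨a, b, i, j, hg, hij, h⟩ |
    ⟨m, i, j, hg, hij, h⟩ | ⟨m, i, j, hg, hj, hji, h⟩ | ⟨a, b, i, j, hg, hj, hji, h⟩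
  · refine ⟨fun x k hx => ?_, fun _ => True, fun i j hi => absurd trivial hi,
      fun x k μ _ hk hx => ?_⟩
    · rw [h, Kdp_stp_zero x k hx, smul_zero]
    · rw [h, Kdp_stp x k μ hk hx, smul_zero]
  · refine ⟨fun x k hx => ?_, fun _ => True, fun i j hi => absurd trivial hi,
      fun x k μ _ hk hx => ?_⟩
    · rw [h, Kdp_stp_zero x k hx, mul_zero, zero_mul, smul_zero, smul_zero, add_zero]
    · rw [h, Kdp_stp x k μ hk hx, mul_zero, zero_mul, smul_zero, smul_zero, add_zero]
  · refine ⟨fun x k hx => ?_, fun _ => True, fun i j hi => absurd trivial hi,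
      fun x k μ _ hk hx => ?_⟩
    · rw [h, Kdp_stp_zero x k hx, mul_zero, smul_zero]
    · rw [h, Kdp_stp x k μ hk hx, mul_zero, smul_zero]
  · subst hg
    refine ⟨fun x k hx => ?_, fun _ => True, fun i j hi => absurd trivial hi,
      fun x k μ _ hk hx => ?_⟩
    · have hk : k = i ∨ k = j := by omega
      rcases hk with rfl | rfl
      · rw [h, hx]
        simp only [zero_mul, mul_zero, smul_zero, add_zero]
      · rw [h, hx]
        simp only [zero_mul, mul_zero, smul_zero, add_zero]
    · have hc : ∃ (c : A) (s t : K), x i = s • c ∧ x j = t • c := Kdp_two x k μ hk hx i j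
      obtain ⟨c, s, t, hi, hj⟩ := hc
      rw [h, hi, hj, Kdp_mul hz, Kdp_mul hz, smul_zero, smul_zero, add_zero]
  · subst hg
    refine ⟨fun x k hx => ?_, fun _ => True, fun i j hi => absurd trivial hi,
      fun x k μ _ hk hx => ?_⟩
    · have hk : k = i ∨ k = j := by omega
      rcases hk with rfl | rfl
      · rw [h, hx]
        simp only [zero_mul, mul_zero, smul_zero]
      · rw [h, hx]
        simp only [zero_mul, mul_zero, smul_zero]
    · have hc : ∃ (c : A) (s t : K), x i = s • c ∧ x j = t • c := Kdp_two x k μ hk hx i j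
      obtain ⟨c, s, t, hi, hj⟩ := hc
      rw [h, hi, hj, Kdp_mul hz, zero_mul, smul_zero]
  · subst hg
    have hsur := Kdp_sur i j hj hji
    refine ⟨fun x k hx => ?_, fun _ => True, fun i j hi => absurd trivial hi,
      fun x l μ _ hl hx => ?_⟩
    · rcases hsur k with rfl | ⟨k₀, rfl⟩
      · rw [h, hx, zero_mul, smul_zero]
      · rw [h, Kdp_stp_zero (fun k => x (j k)) k₀ hx, mul_zero, smul_zero]
    · refine Kdp_zero f heq x l μ ?_ hl hx
      obtain ⟨L, hL⟩ := Kdp_lin_six K i j hj hji hsur x l
      exact ⟨m • L, fun v => by rw [h, LinearMap.smul_apply, hL]⟩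
  · subst hg
    have hsur := Kdp_sur i j hj hji
    refine ⟨fun x k hx => ?_, fun l => l ≠ i, fun i' j' hi' hj' => ?_,
      fun x l μ hli hl hx => ?_⟩
    · rw [h, Kdp_stp_zero x k hx]
      rcases hsur k with rfl | ⟨k₀, rfl⟩
      · rw [hx]
        simp only [zero_mul, mul_zero, smul_zero, add_zero]
      · rw [Kdp_stp_zero (fun k => x (j k)) k₀ hx]
        simp only [mul_zero, smul_zero, add_zero]
    · rw [not_not] at hi' hj'
      rw [hi', hj']
    · refine Kdp_zero f heq x l μ ?_ hl hx
      obtain ⟨L₁, hL₁⟩ := Kdp_stp_lin K x l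
      rcases hsur l with rfl | ⟨k₀, rfl⟩
      · exact absurd rfl hli
      · obtain ⟨L₂, hL₂⟩ := Kdp_stp_lin K (fun k => x (j k)) k₀
        refine ⟨a • ((LinearMap.mulLeft K (x i)).comp L₁) +
          b • ((LinearMap.mulLeft K (x i * x i)).comp L₂), fun v => ?_⟩
        rw [h, LinearMap.add_apply, LinearMap.smul_apply, LinearMap.smul_apply,
          LinearMap.comp_apply, LinearMap.comp_apply, LinearMap.mulLeft_apply,
          LinearMap.mulLeft_apply, hL₁, ← hL₂, Function.update_of_ne (Ne.symm hli)]
        congr 4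
        funext k
        by_cases hk : k = k₀
        · subst hk
          rw [Function.update_self, Function.update_self]
        · rw [Function.update_of_ne hk, Function.update_of_ne (fun h => hk (hj h))]

end Pool.Agent.CRQ
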