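import Pool.Agent.CRQ.St
import Pool.Agent.CRK.Alt

/-!
Campaign CRQ, module Klt: multilinear alternating functions are multiples of the standard
polynomial (coefficients in a commutative ring).
-/

set_option autoImplicit false

namespace Pool.Agent.CRQ

open Pool.Agent.CRR Pool.Agent.CRN Pool.Agent.CRK Finset

section

variable {K : Type} [CommRing K] {A : Type} [NonUnitalRing A] [Module K A]

/-- multilinear functions are additive in every variable -/
theorem Klt_add {b : ℕ} {φ : (Fin b → A) → A} (h : KML K b φ) (v : Fin b → A) (k : Fin b)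
    (x y : A) : φ (Function.update v k (x + y)) =
      φ (Function.update v k x) + φ (Function.update v k y) := by
  obtain ⟨c, hc⟩ := h
  rw [hc, hc, hc, ← Finset.sum_add_distrib]
  refine Finset.sum_congr rfl fun σ _ => ?_
  have h1 : ∀ z : A, (fun i => Function.update v k z (σ i)) =
      Function.update (fun i => v (σ i)) (σ.symm k) z := by
    intro z
    exact Function.update_comp_equiv v σ k z
  rw [h1, h1, h1, Alt_wp, smul_add]

theorem Klt_smul {b : ℕ} {φ : (Fin b → A) → A} (h : KML K b φ) (v : Fin b → A) (k : Fin b)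
    (c : ℤ) (x : A) : φ (Function.update v k (c • x)) = c • φ (Function.update v k x) :=
  (AddMonoidHom.mk' (fun z => φ (Function.update v k z)) (Klt_add h v k)).map_zsmul c x

/-- the alternating map of an alternating function -/
noncomputable def Klt_map {b : ℕ} (φ : (Fin b → A) → A) (h : KML K b φ)
    (h2 : ∀ (x : Fin b → A) (i j : Fin b), i ≠ j → x i = x j → φ x = 0) :
    AlternatingMap ℤ A A (Fin b) where
  toFun := φ
  map_update_add' := by
    intro inst v k x y
    rw [Subsingleton.elim inst (instDecidableEqFin b)]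
    exact Klt_add h v k x y
  map_update_smul' := by
    intro inst v k c x
    rw [Subsingleton.elim inst (instDecidableEqFin b)]
    exact Klt_smul h v k c x
  map_eq_zero_of_eq' := fun x i j hx hij => h2 x i j hij hx

theorem Klt_perm {b : ℕ} (φ : (Fin b → A) → A) (h : KML K b φ)
    (h2 : ∀ (x : Fin b → A) (i j : Fin b), i ≠ j → x i = x j → φ x = 0) (x : Fin b → A)
    (σ : Equiv.Perm (Fin b)) :
    φ (fun i => x (σ i)) = ((Equiv.Perm.sign σ : ℤˣ) : ℤ) • φ x := by
  have h3 := (Klt_map φ h h2).map_perm x σ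
  exact h3

end

/-- **KLT.** -/
theorem thm_Klt : St_Klt := by
  intro K _ A _ _ _ _ b φ h h2
  obtain ⟨c, hc⟩ := id h
  refine ⟨∑ τ, c τ * ((((Equiv.Perm.sign τ : ℤˣ) : ℤ)) : K), fun x => ?_⟩
  have h3 : ∑ σ : Equiv.Perm (Fin b), ((Equiv.Perm.sign σ : ℤˣ) : ℤ) • φ (fun i => x (σ i)) =
      (b.factorial : ℤ) • φ x := by
    have h4 : ∀ σ ∈ (univ : Finset (Equiv.Perm (Fin b))),
        ((Equiv.Perm.sign σ : ℤˣ) : ℤ) • φ (fun i => x (σ i)) = φ x := by
      intro σ _
      rw [Klt_perm φ h h2, smul_smul]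
      rcases Int.units_eq_one_or (Equiv.Perm.sign σ) with h5 | h5 <;> rw [h5] <;> simp
    rw [Finset.sum_congr rfl h4, Finset.sum_const, card_univ, Fintype.card_perm, Fintype.card_fin]
    simp
  have h4 : ∀ τ : Equiv.Perm (Fin b), ∑ σ : Equiv.Perm (Fin b),
      ((Equiv.Perm.sign σ : ℤˣ) : ℤ) • wp (List.ofFn fun i => x (σ (τ i))) =
      ((Equiv.Perm.sign τ : ℤˣ) : ℤ) • stp x := by
    intro τ
    unfold stp
    rw [Finset.smul_sum]
    symm
    rw [← Equiv.sum_comp (Equiv.mulRight τ)]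
    refine Finset.sum_congr rfl fun σ _ => ?_
    rw [Equiv.coe_mulRight, smul_smul]
    have h5 : ((Equiv.Perm.sign τ : ℤˣ) : ℤ) * ((Equiv.Perm.sign (σ * τ) : ℤˣ) : ℤ) =
        ((Equiv.Perm.sign σ : ℤˣ) : ℤ) := by
      rw [Equiv.Perm.sign_mul]
      rcases Int.units_eq_one_or (Equiv.Perm.sign τ) with h5 | h5 <;> rw [h5] <;> simp
    rw [h5]
    rfl
  rw [← h3]
  have h5 : ∀ σ ∈ (univ : Finset (Equiv.Perm (Fin b))),
      ((Equiv.Perm.sign σ : ℤˣ) : ℤ) • φ (fun i => x (σ i)) =
      ∑ τ, c τ • (((Equiv.Perm.sign σ : ℤˣ) : ℤ) • wp (List.ofFn fun i => x (σ (τ i)))) := by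
    intro σ _
    rw [hc, Finset.smul_sum]
    exact Finset.sum_congr rfl fun τ _ => smul_comm _ _ _
  rw [Finset.sum_congr rfl h5, Finset.sum_comm, Finset.sum_smul]
  refine Finset.sum_congr rfl fun τ _ => ?_
  rw [← Finset.smul_sum, h4, mul_smul, Int.cast_smul_eq_zsmul]

end Pool.Agent.CRQ
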