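import Pool.Agent.CRQ.St
import Pool.Agent.CRK.Hoa

/-!
Campaign CRQ: `8 φ (x, x, y, z)` is a combination of alternating sums (coefficients in `K`).
-/

set_option autoImplicit false

namespace Pool.Agent.CRQ

open Pool.Agent.CRR Pool.Agent.CRN Pool.Agent.CRK Pool.Agent.CRL Pool.Agent.CRM Pool.Agent.CRP

section

variable {K : Type} [CommRing K] {A : Type} [NonUnitalRing A] [Module K A]

theorem Koa_ml_add {b : ℕ} {φ : (Fin b → A) → A} (h : KML K b φ) (v : Fin b → A) (i : Fin b)
    (x y : A) : φ (Function.update v i (x + y)) =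
      φ (Function.update v i x) + φ (Function.update v i y) := by
  obtain ⟨c, hc⟩ := h
  rw [hc, hc, hc, ← Finset.sum_add_distrib]
  refine Finset.sum_congr rfl fun σ _ => ?_
  rw [← smul_add]
  congr 1
  have h1 : ∀ a : A, (fun k => Function.update v i a (σ k)) =
      Function.update (fun k => v (σ k)) (σ.symm i) a := fun a =>
    Function.update_comp_equiv v σ i a
  rw [h1, h1, h1, Hoa_wp_add]

/-- The alternating sum over the arguments other than the `i`-th. -/
theorem Koa_alt {n : ℕ} {φ : (Fin (n + 1) → A) → A} (h : KML K (n + 1) φ) (i : Fin (n + 1)) :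
    ∃ c : Fin (n + 1) → K, ∀ (x : A) (a : Fin n → A),
      ∑ π : Equiv.Perm (Fin n), ((Equiv.Perm.sign π : ℤˣ) : ℤ) •
        φ (Fin.insertNth i x (fun k => a (π k)) : Fin (n + 1) → A) = ∑ j, c j • Wi j x a := by
  classical
  obtain ⟨c, hc⟩ := h
  have hρ : ∀ σ : Equiv.Perm (Fin (n + 1)), ∃ ρ : Equiv.Perm (Fin n),
      ∀ k, σ ((σ.symm i).succAbove k) = i.succAbove (ρ k) := by
    intro σ
    have h1 : ∀ k, ∃ l, i.succAbove l = σ ((σ.symm i).succAbove k) := fun k =>
      Fin.exists_succAbove_eq fun h => Fin.succAbove_ne (σ.symm i) k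
        ((Equiv.eq_symm_apply σ).2 h)
    choose r hr using h1
    have hinj : Function.Injective r := by
      intro k l hkl
      have h2 : σ ((σ.symm i).succAbove k) = σ ((σ.symm i).succAbove l) := by
        rw [← hr, ← hr, hkl]
      exact Fin.succAbove_right_injective (σ.injective h2)
    exact ⟨Equiv.ofBijective r (Finite.injective_iff_bijective.1 hinj), fun k => (hr k).symm⟩
  choose ρ hρ using hρ
  refine ⟨fun j => ∑ σ with σ.symm i = j, c σ * (((Equiv.Perm.sign (ρ σ) : ℤˣ) : ℤ) : K), ?_⟩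
  intro x a
  have key : ∀ σ : Equiv.Perm (Fin (n + 1)),
      ∑ π : Equiv.Perm (Fin n), ((Equiv.Perm.sign π : ℤˣ) : ℤ) •
        wp (List.ofFn fun k => (Fin.insertNth i x (fun k => a (π k)) : Fin (n + 1) → A) (σ k)) =
      ((Equiv.Perm.sign (ρ σ) : ℤˣ) : ℤ) • Wi (σ.symm i) x a := by
    intro σ
    have h1 : ∀ π : Equiv.Perm (Fin n),
        (fun k => (Fin.insertNth i x (fun k => a (π k)) : Fin (n + 1) → A) (σ k)) =
        (Fin.insertNth (σ.symm i) x (fun k => a ((π * ρ σ) k)) : Fin (n + 1) → A) := by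
      intro π
      rw [Fin.eq_insertNth_iff]
      refine ⟨?_, ?_⟩
      · rw [Equiv.apply_symm_apply, Fin.insertNth_apply_same]
      · ext k
        simp only [Fin.removeNth]
        rw [hρ, Fin.insertNth_apply_succAbove]
        rfl
    rw [Wi, Finset.smul_sum]
    refine Fintype.sum_equiv (Equiv.mulRight (ρ σ)) _ _ fun π => ?_
    rw [h1, Equiv.coe_mulRight, smul_smul, Equiv.Perm.sign_mul]
    congr 1
    rw [Units.val_mul, mul_comm ((Equiv.Perm.sign π : ℤˣ) : ℤ), ← mul_assoc, ← Units.val_mul,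
      Int.units_mul_self, Units.val_one, one_mul]
  simp only [hc, Finset.smul_sum]
  rw [Finset.sum_comm]
  simp only [Finset.sum_smul]
  rw [← Finset.sum_fiberwise Finset.univ (fun σ : Equiv.Perm (Fin (n + 1)) => σ.symm i)]
  refine Finset.sum_congr rfl fun j _ => ?_
  refine Finset.sum_congr rfl fun σ hσ => ?_
  rw [← (Finset.mem_filter.1 hσ).2, mul_smul, Int.cast_smul_eq_zsmul, ← key, Finset.smul_sum]
  refine Finset.sum_congr rfl fun π _ => ?_
  rw [smul_comm]

/-- [KOA]. -/
theorem thm_Koa : St_Koa := by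
  intro K _ R _ _ _ _ hR φ hφ hvan
  obtain ⟨c0, hc0⟩ := Koa_alt hφ 0
  obtain ⟨c1, hc1⟩ := Koa_alt hφ 1
  refine ⟨fun j => c0 j + c1 j, fun x y z => ?_⟩
  simp only [add_smul, Finset.sum_add_distrib]
  rw [← hc0, ← hc1]
  rw [Hoa_sum3 (fun v => φ (Fin.insertNth 0 x v : Fin 4 → R)) x y z,
    Hoa_sum3 (fun v => φ (Fin.insertNth 1 x v : Fin 4 → R)) x y z]
  have i0 : ∀ a b c : R, (Fin.insertNth 0 x ![a, b, c] : Fin 4 → R) = ![x, a, b, c] := by
    intro a b c
    ext k; fin_cases k <;> rfl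
  have i1 : ∀ a b c : R, (Fin.insertNth 1 x ![a, b, c] : Fin 4 → R) = ![a, x, b, c] := by
    intro a b c
    ext k; fin_cases k <;> rfl
  simp only [i0, i1]
  refine Hoa_core hR.tf (fun a b c d => φ ![a, b, c, d]) ?_ ?_ ?_ ?_ ?_ x y z
  · intro a a' b c d
    have e := Koa_ml_add hφ ![a, b, c, d] 0 a a'
    have u : ∀ w : R, Function.update ![a, b, c, d] 0 w = ![w, b, c, d] := fun w => by
      ext k; fin_cases k <;> rfl
    rw [u, u, u] at e
    exact e
  · intro a b b' c d
    have e := Koa_ml_add hφ ![a, b, c, d] 1 b b'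
    have u : ∀ w : R, Function.update ![a, b, c, d] 1 w = ![a, w, c, d] := fun w => by
      ext k; fin_cases k <;> rfl
    rw [u, u, u] at e
    exact e
  · intro a b c c' d
    have e := Koa_ml_add hφ ![a, b, c, d] 2 c c'
    have u : ∀ w : R, Function.update ![a, b, c, d] 2 w = ![a, b, w, d] := fun w => by
      ext k; fin_cases k <;> rfl
    rw [u, u, u] at e
    exact e
  · intro a b c d d'
    have e := Koa_ml_add hφ ![a, b, c, d] 3 d d'
    have u : ∀ w : R, Function.update ![a, b, c, d] 3 w = ![a, b, c, w] := fun w => by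
      ext k; fin_cases k <;> rfl
    rw [u, u, u] at e
    exact e
  · intro a j
    have e := hvan a j
    have : (fun t => a (j t)) = ![a (j 0), a (j 1), a (j 2), a (j 3)] := by
      ext k; fin_cases k <;> rfl
    rw [this] at e
    exact e

end

end Pool.Agent.CRQ
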