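import Pool.Agent.CRQ.St

/-! # CRQ, module Kta: permutation of the variables of a multilinear function -/

set_option autoImplicit false

namespace Pool.Agent.CRQ

open Pool.Agent.CRR Pool.Agent.CRN Pool.Agent.CRK Pool.Agent.CRL Pool.Agent.CRM Pool.Agent.CRP

theorem thm_Kta : St_Kta := by
  intro K _ A _ _ b φ π h
  obtain ⟨c, hc⟩ := h
  refine ⟨fun τ => c (π⁻¹ * τ), ?_⟩
  intro x
  change φ (fun t => x (π t)) = _
  rw [hc]
  refine Fintype.sum_equiv (Equiv.mulLeft π) _ _ ?_
  intro σ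
  simp only [Equiv.coe_mulLeft, inv_mul_cancel_left, Equiv.Perm.coe_mul, Function.comp]

end Pool.Agent.CRQ
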