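import Pool.Agent.CRQ.St
import Pool.Agent.CRK.All

/-!
Campaign CRQ, module Kxa: values of multilinear functions with coefficients in `K` at repeated arguments.
-/

set_option autoImplicit false

namespace Pool.Agent.CRQ

open Pool.Agent.CRR Pool.Agent.CRN Pool.Agent.CRK Pool.Agent.CRL Pool.Agent.CRM Pool.Agent.CRP

/-- One word is multilinear. -/
theorem Kxa_word {A : Type} [NonUnitalRing A] {b : ℕ} (σ : Equiv.Perm (Fin b)) :
    ML b (fun x : Fin b → A => wp (List.ofFn fun i => x (σ i))) := by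
  refine ⟨Pi.single σ 1, fun x => ?_⟩
  rw [Finset.sum_eq_single σ]
  · rw [Pi.single_eq_same, one_smul]
  · intro τ _ h
    rw [Pi.single_eq_of_ne h, zero_smul]
  · intro h
    exact absurd (Finset.mem_univ σ) h

theorem Kxa_smul {K : Type} [CommRing K] {A : Type} [NonUnitalRing A] [Module K A] (k : K)
    (m : ℤ) (w : A) : k • (m • w) = (k * (m : K)) • w := by
  rw [mul_smul, Int.cast_smul_eq_zsmul]

theorem thm_Kxa : St_Kxa := by
  intro K _ A _ _ _ _ hN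
  refine ⟨fun φ hφ => ?_, fun φ hφ => ⟨?_, ?_⟩, fun φ hφ => ⟨?_, ?_⟩⟩
  · obtain ⟨c, hc⟩ := hφ
    choose a₁ a₂ a₃ ha using fun σ : Equiv.Perm (Fin 3) => thm_Exa A _ (Kxa_word σ)
    refine ⟨∑ σ, c σ * (a₁ σ : K), ∑ σ, c σ * (a₂ σ : K), ∑ σ, c σ * (a₃ σ : K),
      fun x y => ?_⟩
    rw [hc, Finset.sum_smul, Finset.sum_smul, Finset.sum_smul, ← Finset.sum_add_distrib,
      ← Finset.sum_add_distrib]
    refine Finset.sum_congr rfl fun σ _ => ?_
    have h := ha σ x y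
    rw [h, smul_add, smul_add, Kxa_smul, Kxa_smul, Kxa_smul]
  · obtain ⟨c, hc⟩ := hφ
    choose a₁ ha using fun σ : Equiv.Perm (Fin 4) => (thm_Exb CRK.idb A hN _ (Kxa_word σ)).1
    refine ⟨∑ σ, c σ * (a₁ σ : K), fun x y => ?_⟩
    rw [hc, Finset.sum_smul]
    refine Finset.sum_congr rfl fun σ _ => ?_
    have h := ha σ x y
    rw [h, Kxa_smul]
  · obtain ⟨c, hc⟩ := hφ
    choose a₁ a₂ ha using fun σ : Equiv.Perm (Fin 4) =>
      (thm_Exb CRK.idb A hN _ (Kxa_word σ)).2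
    refine ⟨∑ σ, c σ * (a₁ σ : K), ∑ σ, c σ * (a₂ σ : K), fun x y => ?_⟩
    rw [hc, Finset.sum_smul, Finset.sum_smul, ← Finset.sum_add_distrib]
    refine Finset.sum_congr rfl fun σ _ => ?_
    have h := ha σ x y
    rw [h, smul_add, Kxa_smul, Kxa_smul]
  · intro x y
    obtain ⟨c, hc⟩ := hφ
    rw [hc]
    refine Finset.sum_eq_zero fun σ _ => ?_
    have h := (thm_Exc CRK.idb CRK.idc A hN _ (Kxa_word σ)).1 x y
    rw [h, smul_zero]
  · obtain ⟨c, hc⟩ := hφ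
    choose a₁ ha using fun σ : Equiv.Perm (Fin 5) =>
      (thm_Exc CRK.idb CRK.idc A hN _ (Kxa_word σ)).2
    refine ⟨∑ σ, c σ * (a₁ σ : K), fun x y => ?_⟩
    rw [hc, Finset.sum_smul]
    refine Finset.sum_congr rfl fun σ _ => ?_
    have h := ha σ x y
    rw [h, Kxa_smul]

end Pool.Agent.CRQ
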