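import Pool.Agent.CRQ.St

/-!
CRQ, module Kxb: the values at `(x, x, x, y, z)` and `(x, x, y, y, z)` of a multilinear function of
five arguments with coefficients in `K`.  The theorems of CRK for single words give the integral
coefficients of the words.
-/

set_option autoImplicit false

namespace Pool.Agent.CRQ

open Pool.Agent.CRR Pool.Agent.CRN Pool.Agent.CRK Pool.Agent.CRL Pool.Agent.CRM Pool.Agent.CRP

/-- A single word is a multilinear function. -/
private theorem Kxb_ml {A : Type} [NonUnitalRing A] (b : ℕ) (σ : Equiv.Perm (Fin b)) :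
    ML b (fun x : Fin b → A => wp (List.ofFn fun i => x (σ i))) := by
  classical
  refine ⟨fun τ => if τ = σ then 1 else 0, fun x => ?_⟩
  rw [Finset.sum_eq_single σ]
  · simp only [if_true, one_smul]
  · intro τ _ hτ
    simp only [if_neg hτ, zero_smul]
  · intro h
    exact absurd (Finset.mem_univ σ) h

theorem thm_Kxb : St_Kxb := by
  intro K _ A _ _ _ _ hN φ hφ
  obtain ⟨c, hc⟩ := hφ
  constructor
  · have h1 : ∀ σ : Equiv.Perm (Fin 5), ∃ α β : ℤ, ∀ x y z : A,
        wp (List.ofFn fun i => (![x, x, x, y, z] : Fin 5 → A) (σ i)) =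
          α • (x * x * y * x * z) + β • (x * x * z * x * y) :=
      fun σ => CRK.thm_Exd CRK.idd A hN _ (Kxb_ml 5 σ)
    choose α β hαβ using h1
    refine ⟨∑ σ, c σ * (α σ : K), ∑ σ, c σ * (β σ : K), fun x y z => ?_⟩
    rw [hc, Finset.sum_smul, Finset.sum_smul, ← Finset.sum_add_distrib]
    refine Finset.sum_congr rfl fun σ _ => ?_
    rw [hαβ, smul_add, mul_smul, mul_smul, Int.cast_smul_eq_zsmul, Int.cast_smul_eq_zsmul]
  · have h1 : ∀ σ : Equiv.Perm (Fin 5), ∃ α β γ : ℤ, ∀ x y z : A,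
        wp (List.ofFn fun i => (![x, x, y, y, z] : Fin 5 → A) (σ i)) =
          α • (x * x * y * y * z) + β • (x * y * x * y * z) + γ • (x * y * z * x * y) :=
      fun σ => CRK.thm_Exe CRK.ide A hN _ (Kxb_ml 5 σ)
    choose α β γ hαβ using h1
    refine ⟨∑ σ, c σ * (α σ : K), ∑ σ, c σ * (β σ : K), ∑ σ, c σ * (γ σ : K), fun x y z => ?_⟩
    rw [hc, Finset.sum_smul, Finset.sum_smul, Finset.sum_smul, ← Finset.sum_add_distrib,
      ← Finset.sum_add_distrib]
    refine Finset.sum_congr rfl fun σ _ => ?_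
    rw [hαβ, smul_add, smul_add, mul_smul, mul_smul, mul_smul, Int.cast_smul_eq_zsmul,
      Int.cast_smul_eq_zsmul, Int.cast_smul_eq_zsmul]

end Pool.Agent.CRQ
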