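import Pool.Agent.CRQ.St
import Pool.Agent.CRM.All
import Pool.Agent.CRP.Dcp

/-!
Campaign CRQ, module Lca: central local critical rings of order prime to 6 are of the type `CenT`.
-/

set_option autoImplicit false

namespace Pool.Agent.CRQ

open Pool.Agent.CRR Pool.Agent.CRN Pool.Agent.CRK Pool.Agent.CRL Pool.Agent.CRM Pool.Agent.CRP
open Polynomial (X)

/-! ### The function `FF` -/

section ff

variable {R : Type} [NonUnitalRing R]

theorem Lca_add (e : R) {b : ℕ} (c : Equiv.Perm (Fin b) → List (ℤ × ℕ)) (t : R) (x : Fin b → R)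
    (k : Fin b) (u v : R) : FF e c t (Function.update x k (u + v)) =
      FF e c t (Function.update x k u) + FF e c t (Function.update x k v) := by
  unfold FF
  rw [← Finset.sum_add_distrib]
  refine Finset.sum_congr rfl fun σ _ => ?_
  rw [Lib_comp, Lib_comp, Lib_comp, Lib_ofFn, mul_add]

/-- `FF` as an additive map in one variable. -/
def Lca_hom (e : R) {b : ℕ} (c : Equiv.Perm (Fin b) → List (ℤ × ℕ)) (t : R) (x : Fin b → R)
    (k : Fin b) : R →+ R :=
  AddMonoidHom.mk' (fun v => FF e c t (Function.update x k v)) fun u v => Lca_add e c t x k u v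

theorem Lca_hom_apply (e : R) {b : ℕ} (c : Equiv.Perm (Fin b) → List (ℤ × ℕ)) (t : R)
    (x : Fin b → R) (k : Fin b) (v : R) :
    Lca_hom e c t x k v = FF e c t (Function.update x k v) := rfl

theorem Lca_wp {n : ℕ} (y : Fin n → R) (j : Fin n) (w a : R) (hw : ∀ r, w * r = r * w) :
    wp (List.ofFn (Function.update y j (w * a))) = w * wp (List.ofFn (Function.update y j a)) := by
  induction n with
  | zero => exact j.elim0
  | succ n ih =>
    rcases Fin.eq_zero_or_eq_succ j with rfl | ⟨i, rfl⟩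
    · have h1 : ∀ z : R, List.ofFn (Function.update y 0 z) =
          z :: List.ofFn (fun i : Fin n => y i.succ) := by
        intro z
        rw [List.ofFn_succ, Function.update_self]
        congr 2
      rw [h1, h1]
      cases n with
      | zero => simp [wp]
      | succ n =>
        have h2 : List.ofFn (fun i : Fin (n + 1) => y i.succ) ≠ [] := by simp
        rw [Lib_cons _ h2, Lib_cons _ h2, mul_assoc]
    · have h1 : ∀ z : R, wp (List.ofFn (Function.update y i.succ z)) =
          y 0 * wp (List.ofFn (Function.update (fun i : Fin n => y i.succ) i z)) := by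
        intro z
        rw [List.ofFn_succ]
        have h3 : (fun k : Fin n => Function.update y i.succ z k.succ) =
            Function.update (fun i : Fin n => y i.succ) i z := by
          funext k
          by_cases hk : k = i
          · subst hk
            simp
          · rw [Function.update_of_ne hk, Function.update_of_ne (by simpa using hk)]
        have h4 : Function.update y i.succ z 0 = y 0 :=
          Function.update_of_ne (Fin.succ_ne_zero i).symm _ _
        rw [h3, h4, Lib_cons]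
        intro h5
        have h6 := congrArg List.length h5
        rw [List.length_ofFn, List.length_nil] at h6
        have := i.2
        omega
      rw [h1, h1, ih, ← mul_assoc, ← hw, mul_assoc]

theorem Lca_mul (e : R) {b : ℕ} (c : Equiv.Perm (Fin b) → List (ℤ × ℕ)) (t : R) (x : Fin b → R)
    (k : Fin b) (w a : R) (hw : ∀ r, w * r = r * w) :
    FF e c t (Function.update x k (w * a)) = w * FF e c t (Function.update x k a) := by
  unfold FF
  rw [Finset.mul_sum]
  refine Finset.sum_congr rfl fun σ _ => ?_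
  rw [Lib_comp, Lib_comp, Lca_wp _ _ _ _ hw, ← mul_assoc, ← hw, mul_assoc]

/-- If `FF` is zero on the generators then it is zero. -/
theorem Lca_span {b g p : ℕ} {e t : R} {c : Equiv.Perm (Fin b) → List (ℤ × ℕ)} (z : Fin g → R)
    (hz : ∀ i, Nl (z i))
    (hW : ∀ u ∈ NonUnitalSubring.closure ({t} : Set R), ∀ r, u * r = r * u)
    (hdec : ∀ y, Nl y → ∃ κ ∈ KJ R p, ∃ u : Fin g → R,
      (∀ i, u i ∈ NonUnitalSubring.closure ({t} : Set R)) ∧ y = κ + ∑ i, u i * z i)
    (hKN : ∀ κ ∈ KJ R p, Nl κ)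
    (hK : ∀ x : Fin b → R, (∀ i, Nl (x i)) → ∀ i, x i ∈ KJ R p → FF e c t x = 0)
    (h0 : ∀ s : Fin b → Fin g, FF e c t (fun i => z (s i)) = 0)
    (x : Fin b → R) (hx : ∀ i, Nl (x i)) : FF e c t x = 0 := by
  classical
  have key : ∀ F : Finset (Fin b), ∀ x : Fin b → R, (∀ i, Nl (x i)) →
      (∀ i, i ∉ F → ∃ k, x i = z k) → FF e c t x = 0 := by
    intro F
    induction F using Finset.induction_on with
    | empty =>
      intro x _ h1
      choose s hs using fun i => h1 i (Finset.notMem_empty i)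
      rw [show x = fun i => z (s i) from funext hs]
      exact h0 s
    | insert a F ha ih =>
      intro x hx h1
      have hnu : ∀ v, Nl v → ∀ i, Nl (Function.update x a v i) := by
        intro v hv i
        by_cases h : i = a
        · subst h
          rw [Function.update_self]
          exact hv
        · rw [Function.update_of_ne h]
          exact hx i
      obtain ⟨κ, hκ, u, hu, h2⟩ := hdec (x a) (hx a)
      have h3 : FF e c t x = Lca_hom e c t x a (x a) := by
        rw [Lca_hom_apply, Function.update_eq_self]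
      rw [h3, h2, map_add, map_sum, Lca_hom_apply, hK _ (hnu κ (hKN κ hκ)) a (by
        rw [Function.update_self]
        exact hκ), zero_add]
      refine Finset.sum_eq_zero fun i _ => ?_
      rw [Lca_hom_apply, Lca_mul _ _ _ _ _ _ _ (hW _ (hu i)), ih _ (hnu _ (hz i)), mul_zero]
      intro j hj
      by_cases h : j = a
      · subst h
        exact ⟨i, Function.update_self ..⟩
      · rw [Function.update_of_ne h]
        exact h1 j (by
          rw [Finset.mem_insert]
          tauto)
  exact key Finset.univ x hx fun i hi => absurd (Finset.mem_univ i) hi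

/-- `FF` depends only on the arguments modulo `KJ`. -/
theorem Lca_inv {b p : ℕ} {e t : R} {c : Equiv.Perm (Fin b) → List (ℤ × ℕ)}
    (hK : ∀ x : Fin b → R, (∀ i, Nl (x i)) → ∀ i, x i ∈ KJ R p → FF e c t x = 0)
    (hKN : ∀ κ ∈ KJ R p, Nl κ)
    (x y : Fin b → R) (hx : ∀ i, Nl (x i)) (hy : ∀ i, Nl (y i) ∧ x i - y i ∈ KJ R p) :
    FF e c t x = FF e c t y := by
  classical
  have key : ∀ F : Finset (Fin b), FF e c t (fun i => if i ∈ F then y i else x i) = FF e c t x := by
    intro F
    induction F using Finset.induction_on with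
    | empty => simp
    | insert a F ha ih =>
      rw [← ih]
      set v : Fin b → R := fun i => if i ∈ F then y i else x i with hv
      have hvn : ∀ i, Nl (v i) := by
        intro i
        rw [hv]
        dsimp only
        split_ifs
        · exact (hy i).1
        · exact hx i
      have h1 : (fun i => if i ∈ insert a F then y i else x i) = Function.update v a (y a) := by
        funext i
        by_cases h : i = a
        · subst h
          rw [Function.update_self, if_pos (Finset.mem_insert_self _ _)]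
        · rw [Function.update_of_ne h, hv]
          dsimp only
          simp [Finset.mem_insert, h]
      have h2 : v = Function.update v a (x a) := by
        have h3 : v a = x a := by
          rw [hv]
          dsimp only
          rw [if_neg ha]
        rw [← h3, Function.update_eq_self]
      rw [h1]
      conv_rhs => rw [h2]
      have h3 : Lca_hom e c t v a (x a - y a) = 0 := by
        rw [Lca_hom_apply]
        refine hK _ (fun i => ?_) a (by
          rw [Function.update_self]
          exact (hy a).2)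
        by_cases h : i = a
        · subst h
          rw [Function.update_self]
          exact hKN _ (hy i).2
        · rw [Function.update_of_ne h]
          exact hvn i
      rw [map_sub, Lca_hom_apply, Lca_hom_apply, sub_eq_zero] at h3
      exact h3.symm
  have h1 := key Finset.univ
  simp only [Finset.mem_univ, if_true] at h1
  exact h1.symm

end ff

/-! ### The ring of functions -/

section fn

variable {R : Type} [NonUnitalRing R] (T : Type) (τ : T → R) (J : NonUnitalSubring R)

/-- The multiplication with the frame. -/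
def Lca_th (hJ : ∀ s x, x ∈ J → τ s * x ∈ J) : Module.End ℤ (T → J) where
  toFun x := fun s => ⟨τ s * x s, hJ s _ (x s).2⟩
  map_add' x y := by
    funext s
    refine Subtype.ext ?_
    show τ s * ((x s : R) + y s) = τ s * x s + τ s * y s
    rw [mul_add]
  map_smul' k x := by
    funext s
    refine Subtype.ext ?_
    show τ s * (k • (x s : R)) = k • (τ s * x s)
    rw [mul_smul_comm]

/-- The module structure over the polynomials. -/
noncomputable def Lca_mod (hJ : ∀ s x, x ∈ J → τ s * x ∈ J) : Module (Polynomial ℤ) (T → J) :=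
  Module.compHom (T → J) (Polynomial.aeval (Lca_th T τ J hJ) :
    Polynomial ℤ →ₐ[ℤ] Module.End ℤ (T → J)).toRingHom

/-- The polynomial of a list. -/
noncomputable def Lca_pol (m : List (ℤ × ℕ)) : Polynomial ℤ :=
  (m.map fun q => Polynomial.C q.1 * X ^ q.2).sum

theorem Lca_pol_ex (P : Polynomial ℤ) : ∃ m, Lca_pol m = P := by
  unfold Lca_pol
  induction P using Polynomial.induction_on' with
  | add p q hp hq =>
    obtain ⟨m, rfl⟩ := hp
    obtain ⟨m', rfl⟩ := hq
    exact ⟨m ++ m', by rw [List.map_append, List.sum_append]⟩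
  | monomial k a =>
    refine ⟨[(a, k)], ?_⟩
    rw [List.map_cons, List.map_nil, List.sum_cons, List.sum_nil, add_zero]
    exact Polynomial.C_mul_X_pow_eq_monomial

theorem Lca_thp (hJ : ∀ s x, x ∈ J → τ s * x ∈ J) (e : R) (he : ∀ x, e * x = x) (k : ℕ)
    (x : T → J) (s : T) : (((Lca_th T τ J hJ) ^ k) x s : R) = te e (τ s) k * x s := by
  induction k with
  | zero =>
    rw [pow_zero]
    exact (he _).symm
  | succ k ih =>
    rw [pow_succ']
    show τ s * (((Lca_th T τ J hJ) ^ k) x s : R) = τ s * te e (τ s) k * x s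
    rw [ih, mul_assoc]

theorem Lca_sm (hJ : ∀ s x, x ∈ J → τ s * x ∈ J) (e : R) (he : ∀ x, e * x = x)
    (m : List (ℤ × ℕ)) (x : T → J) (s : T) :
    ((Polynomial.aeval (Lca_th T τ J hJ) (Lca_pol m) : Module.End ℤ (T → J)) x s : R) =
      Cv m e (τ s) * x s := by
  unfold Lca_pol Cv
  induction m with
  | nil =>
    simp only [List.map_nil, List.sum_nil, map_zero, LinearMap.zero_apply, Pi.zero_apply,
      ZeroMemClass.coe_zero, zero_mul]
  | cons q m ih =>
    rw [List.map_cons, List.map_cons, List.sum_cons, List.sum_cons, map_add, LinearMap.add_apply,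
      Pi.add_apply, add_mul, ← ih]
    have h1 : (Polynomial.aeval (Lca_th T τ J hJ) (Polynomial.C q.1 * X ^ q.2) :
        Module.End ℤ (T → J)) = q.1 • (Lca_th T τ J hJ) ^ q.2 := by
      rw [map_mul, Polynomial.aeval_C, map_pow, Polynomial.aeval_X, ← Algebra.smul_def]
    rw [h1]
    show (q.1 • (((Lca_th T τ J hJ) ^ q.2) x s : R)) + _ = _
    rw [Lca_thp T τ J hJ e he, smul_mul_assoc]

/-- The value at `s`. -/
def Lca_ev (s : T) : (T → J) →+ R where
  toFun x := (x s : R)
  map_zero' := rfl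
  map_add' _ _ := rfl

theorem Lca_evwp (s : T) (l : List (T → J)) :
    ((wp l : T → J) s : R) = wp (l.map fun a => (a s : R)) := by
  induction l with
  | nil => rfl
  | cons a l ih =>
    cases l with
    | nil => rfl
    | cons b l =>
      show (a s : R) * ((wp (b :: l) : T → J) s : R) =
        (a s : R) * wp ((b :: l).map fun a => (a s : R))
      rw [ih]

theorem Lca_evstp (s : T) {g : ℕ} (x : Fin g → T → J) :
    ((stp x : T → J) s : R) = stp (fun i => (x i s : R)) := by
  show Lca_ev T J s (stp x) = _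
  unfold stp
  rw [map_sum]
  refine Finset.sum_congr rfl fun σ _ => ?_
  rw [map_zsmul]
  congr 1
  show ((wp (List.ofFn fun i => x (σ i)) : T → J) s : R) = _
  rw [Lca_evwp, List.map_ofFn]
  rfl

theorem Lca_sme (hJ : ∀ s x, x ∈ J → τ s * x ∈ J) (e : R) (he : ∀ x, e * x = x)
    (m : List (ℤ × ℕ)) (x : T → J) (s : T) :
    letI := Lca_mod T τ J hJ
    ((Lca_pol m • x : T → J) s : R) = Cv m e (τ s) * x s :=
  Lca_sm T τ J hJ e he m x s

theorem Lca_tower (hJ : ∀ s x, x ∈ J → τ s * x ∈ J) (e : R) (he : ∀ x, e * x = x) :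
    letI := Lca_mod T τ J hJ
    IsScalarTower (Polynomial ℤ) (T → J) (T → J) := by
  letI := Lca_mod T τ J hJ
  refine ⟨fun P x y => ?_⟩
  obtain ⟨m, rfl⟩ := Lca_pol_ex P
  funext s
  refine Subtype.ext ?_
  show ((Lca_pol m • x : T → J) s : R) * (y s : R) = ((Lca_pol m • (x * y) : T → J) s : R)
  rw [Lca_sme T τ J hJ e he, Lca_sme T τ J hJ e he]
  exact mul_assoc _ _ _

theorem Lca_cvc {e t : R} (he : ∀ x, e * x = x ∧ x * e = x) (ht : ∀ r, t * r = r * t)
    (m : List (ℤ × ℕ)) (r : R) : Cv m e t * r = r * Cv m e t := by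
  have h1 : ∀ k, te e t k * r = r * te e t k := by
    intro k
    induction k with
    | zero =>
      show e * r = r * e
      rw [(he r).1, (he r).2]
    | succ k ih =>
      show t * te e t k * r = r * (t * te e t k)
      rw [mul_assoc, ih, ← mul_assoc, ht, mul_assoc]
  unfold Cv
  induction m with
  | nil => rw [List.map_nil, List.sum_nil, zero_mul, mul_zero]
  | cons q m ih =>
    rw [List.map_cons, List.sum_cons, add_mul, mul_add, ih, smul_mul_assoc, mul_smul_comm, h1]

theorem Lca_comm (hJ : ∀ s x, x ∈ J → τ s * x ∈ J) (e : R) (he : ∀ x, e * x = x ∧ x * e = x)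
    (hc : ∀ s r, τ s * r = r * τ s) :
    letI := Lca_mod T τ J hJ
    SMulCommClass (Polynomial ℤ) (T → J) (T → J) := by
  letI := Lca_mod T τ J hJ
  refine ⟨fun P x y => ?_⟩
  obtain ⟨m, rfl⟩ := Lca_pol_ex P
  funext s
  refine Subtype.ext ?_
  show ((Lca_pol m • (x * y) : T → J) s : R) = (x s : R) * ((Lca_pol m • y : T → J) s : R)
  rw [Lca_sme T τ J hJ e (fun x => (he x).1), Lca_sme T τ J hJ e (fun x => (he x).1)]
  show Cv m e (τ s) * ((x s : R) * y s) = x s * (Cv m e (τ s) * y s)
  rw [← mul_assoc, Lca_cvc he (hc s), mul_assoc]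

/-- The function `φ`. -/
noncomputable def Lca_phi (hJ : ∀ s x, x ∈ J → τ s * x ∈ J) {b : ℕ}
    (c : Equiv.Perm (Fin b) → List (ℤ × ℕ)) (x : Fin b → T → J) : T → J :=
  letI := Lca_mod T τ J hJ
  ∑ σ, Lca_pol (c σ) • wp (List.ofFn fun i => x (σ i))

theorem Lca_evphi (hJ : ∀ s x, x ∈ J → τ s * x ∈ J) (e : R) (he : ∀ x, e * x = x) {b : ℕ}
    (c : Equiv.Perm (Fin b) → List (ℤ × ℕ)) (x : Fin b → T → J) (s : T) :
    (Lca_phi T τ J hJ c x s : R) = FF e c (τ s) (fun i => (x i s : R)) := by
  letI := Lca_mod T τ J hJ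
  show Lca_ev T J s (∑ σ, Lca_pol (c σ) • wp (List.ofFn fun i => x (σ i))) = _
  unfold FF
  rw [map_sum]
  refine Finset.sum_congr rfl fun σ _ => ?_
  show ((Lca_pol (c σ) • wp (List.ofFn fun i => x (σ i)) : T → J) s : R) = _
  rw [Lca_sme T τ J hJ e he, Lca_evwp, List.map_ofFn]
  rfl

/-- The functions of the list. -/
theorem Lca_loc (hJ : ∀ s x, x ∈ J → τ s * x ∈ J) (e : R) (he : ∀ x, e * x = x) {g : ℕ}
    (f : (Fin g → T → J) → T → J)
    (hf : letI := Lca_mod T τ J hJ; KFun (Polynomial ℤ) g f) :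
    ∃ f' : R → (Fin g → R) → R, LocFun e g f' ∧
      ∀ x s, (f x s : R) = f' (τ s) (fun i => (x i s : R)) := by
  letI := Lca_mod T τ J hJ
  have hsm := Lca_sme T τ J hJ e he
  rcases hf with ⟨m, h⟩ | ⟨a, b, i, h⟩ | ⟨m, i, h⟩ | ⟨a, b, i, j, hg, hij, h⟩ | ⟨m, i, j, hg, hij, h⟩ |
    ⟨m, i, j, hg, hj, hji, h⟩ | ⟨a, b, i, j, hg, hj, hji, h⟩
  · obtain ⟨m, rfl⟩ := Lca_pol_ex m
    refine ⟨fun t x => Cv m e t * stp x, Or.inl ⟨m, fun _ _ => rfl⟩, fun x s => ?_⟩
    rw [h x, hsm, Lca_evstp]
  · obtain ⟨a, rfl⟩ := Lca_pol_ex a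
    obtain ⟨b, rfl⟩ := Lca_pol_ex b
    refine ⟨fun t x => Cv a e t * (x i * stp x) + Cv b e t * (stp x * x i),
      Or.inr (Or.inl ⟨a, b, i, fun _ _ => rfl⟩), fun x s => ?_⟩
    rw [h x]
    show ((Lca_pol a • (x i * stp x) : T → J) s : R) + ((Lca_pol b • (stp x * x i) : T → J) s : R) = _
    rw [hsm, hsm]
    show Cv a e (τ s) * ((x i s : R) * ((stp x : T → J) s : R)) +
      Cv b e (τ s) * (((stp x : T → J) s : R) * (x i s : R)) = _
    rw [Lca_evstp]
  · obtain ⟨m, rfl⟩ := Lca_pol_ex m
    refine ⟨fun t x => Cv m e t * (x i * x i * stp x),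
      Or.inr (Or.inr (Or.inl ⟨m, i, fun _ _ => rfl⟩)), fun x s => ?_⟩
    rw [h x, hsm]
    show Cv m e (τ s) * ((x i s : R) * (x i s : R) * ((stp x : T → J) s : R)) = _
    rw [Lca_evstp]
  · obtain ⟨a, rfl⟩ := Lca_pol_ex a
    obtain ⟨b, rfl⟩ := Lca_pol_ex b
    refine ⟨fun t x => Cv a e t * (x i * x i * x j * x j) + Cv b e t * (x i * x j * x i * x j),
      Or.inr (Or.inr (Or.inr (Or.inl ⟨a, b, i, j, hg, hij, fun _ _ => rfl⟩))), fun x s => ?_⟩
    rw [h x]
    show ((Lca_pol a • (x i * x i * x j * x j) : T → J) s : R) +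
      ((Lca_pol b • (x i * x j * x i * x j) : T → J) s : R) = _
    rw [hsm, hsm]
    rfl
  · obtain ⟨m, rfl⟩ := Lca_pol_ex m
    refine ⟨fun t x => Cv m e t * (x i * x i * x j * x i * x j),
      Or.inr (Or.inr (Or.inr (Or.inr (Or.inl ⟨m, i, j, hg, hij, fun _ _ => rfl⟩)))), fun x s => ?_⟩
    rw [h x, hsm]
    rfl
  · obtain ⟨m, rfl⟩ := Lca_pol_ex m
    refine ⟨fun t x => Cv m e t * (x i * stp fun k => x (j k)),
      Or.inr (Or.inr (Or.inr (Or.inr (Or.inr (Or.inl ⟨m, i, j, hg, hj, hji, fun _ _ => rfl⟩))))),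
      fun x s => ?_⟩
    rw [h x, hsm]
    show Cv m e (τ s) * ((x i s : R) * ((stp (fun k => x (j k)) : T → J) s : R)) = _
    rw [Lca_evstp]
  · obtain ⟨a, rfl⟩ := Lca_pol_ex a
    obtain ⟨b, rfl⟩ := Lca_pol_ex b
    refine ⟨fun t x => Cv a e t * (x i * stp x) + Cv b e t * (x i * x i * stp fun k => x (j k)),
      Or.inr (Or.inr (Or.inr (Or.inr (Or.inr (Or.inr ⟨a, b, i, j, hg, hj, hji, fun _ _ => rfl⟩))))),
      fun x s => ?_⟩
    rw [h x]
    show ((Lca_pol a • (x i * stp x) : T → J) s : R) +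
      ((Lca_pol b • (x i * x i * stp fun k => x (j k)) : T → J) s : R) = _
    rw [hsm, hsm]
    show Cv a e (τ s) * ((x i s : R) * ((stp x : T → J) s : R)) +
      Cv b e (τ s) * ((x i s : R) * (x i s : R) * ((stp (fun k => x (j k)) : T → J) s : R)) = _
    rw [Lca_evstp, Lca_evstp]

end fn

/-! ### The theorem -/

theorem thm_Lca (hCfr : St_Cfr) (hLmu : St_Lmu) (hKcs : St_Kcs) : St_Lca := by
  classical
  intro n p N R _ _ e t₀ h0 hcr
  obtain ⟨H, hH⟩ := CRN.thm_Sir R hcr
  have hF := h0.fr
  refine ⟨p, e, t₀, H, ⟨hF.cy.pp, hF.cy.pr, hH, hF.prm, hF.one, hF.fr⟩, h0.cen, ?_⟩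
  rcases hLmu n p N R e t₀ h0 hcr H hH with h1 | ⟨b, c, hb1, hb5, hG, hK⟩
  · exact Or.inl h1
  right
  obtain ⟨J, hJ, hJn⟩ := CRL.jil n hF.cy.n4 R hF.cy.inM hF.cy.nt
  have hcen : ∀ t, Frame R n 1 (fun _ => t) → ∀ r, t * r = r * t :=
    fun t ht => (hCfr n p N R e t₀ h0 t ht).2.1
  have hcl : ∀ t, Frame R n 1 (fun _ => t) → ∀ S : Set R,
      NonUnitalSubring.closure ({t} ∪ S) = NonUnitalSubring.closure ({t₀} ∪ S) :=
    fun t ht => (hCfr n p N R e t₀ h0 t ht).2.2.2.2
  have hW : ∀ t, Frame R n 1 (fun _ => t) → ∀ u ∈ NonUnitalSubring.closure ({t} : Set R),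
      ∀ r, u * r = r * u := by
    intro t ht u hu r
    induction hu using NonUnitalSubring.closure_induction with
    | mem w hw => rw [Set.mem_singleton_iff.1 hw, hcen t ht]
    | zero => rw [zero_mul, mul_zero]
    | add a b _ _ ha hb => rw [add_mul, mul_add, ha, hb]
    | neg a _ ha => rw [neg_mul, mul_neg, ha]
    | mul a b _ _ ha hb => rw [mul_assoc, hb, ← mul_assoc, ha, mul_assoc]
  have hKJ : KJ R p ≤ J := by
    rw [← (CRM.kjf n p R hF.cy).2 e hF.prm hF.one t₀ hF.fr]
    unfold JW
    rw [AddSubgroup.closure_le]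
    rintro w (⟨a, b, ha, hb, rfl⟩ | ⟨_, hw⟩)
    · exact (hJ a b ((hJn b).2 hb)).1
    · exact (hJn w).2 hw
  have hKN : ∀ κ ∈ KJ R p, Nl κ := fun κ hκ => (hJn κ).1 (hKJ hκ)
  -- the minimal number of generators
  have hP : ∃ k, ∃ z : Fin k → R, (∀ i, Nl (z i)) ∧
      NonUnitalSubring.closure ({t₀} ∪ Set.range z) = ⊤ := by
    obtain ⟨m, ⟨E⟩⟩ := Finite.exists_equiv_fin {x : R // Nl x}
    refine ⟨m, fun i => (E.symm i).1, fun i => (E.symm i).2, ?_⟩
    rw [eq_top_iff]
    intro x _
    obtain ⟨d, hd, hx⟩ := CRL.gen n p R hF.cy 1 (fun _ => t₀) hF.fr x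
    have h1 : x = (x - ∑ i, d i) + ∑ i, d i := by rw [sub_add_cancel]
    rw [h1]
    refine add_mem (NonUnitalSubring.subset_closure (Or.inr ⟨E ⟨_, hx⟩, ?_⟩))
      (sum_mem fun i _ => ?_)
    · show ((E.symm (E ⟨_, hx⟩)).1 : R) = _
      rw [Equiv.symm_apply_apply]
    · rcases hd i with h | ⟨k, h⟩
      · rw [h]
        exact zero_mem _
      · rw [h]
        exact Dmk_pw _ (NonUnitalSubring.subset_closure
          (Set.mem_union_left _ (Set.mem_singleton t₀))) k
  obtain ⟨g, ⟨z, hzn, hzg⟩, hmin⟩ : ∃ g, (∃ z : Fin g → R, (∀ i, Nl (z i)) ∧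
      NonUnitalSubring.closure ({t₀} ∪ Set.range z) = ⊤) ∧ ∀ k, k < g →
      ¬ ∃ z : Fin k → R, (∀ i, Nl (z i)) ∧
        NonUnitalSubring.closure ({t₀} ∪ Set.range z) = ⊤ :=
    ⟨Nat.find hP, Nat.find_spec hP, fun k hk => Nat.find_min hP hk⟩
  have hsmall : ∀ (m : ℕ) (v : Fin m → R), (∀ i, Nl (v i)) → (Finset.univ.image v).card < g →
      ∀ t, Frame R n 1 (fun _ => t) → NonUnitalSubring.closure ({t} ∪ Set.range v) ≠ ⊤ := by
    intro m v hv hlt t ht h
    rw [hcl t ht] at h
    refine hmin _ hlt ⟨fun i => ((Finset.univ.image v).equivFin.symm i : R), fun i => ?_, ?_⟩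
    · obtain ⟨j, _, hj⟩ := Finset.mem_image.1 ((Finset.univ.image v).equivFin.symm i).2
      show Nl (((Finset.univ.image v).equivFin.symm i : R))
      rw [← hj]
      exact hv j
    · rw [← h]
      congr 2
      ext r
      constructor
      · rintro ⟨i, rfl⟩
        obtain ⟨j, _, hj⟩ := Finset.mem_image.1 ((Finset.univ.image v).equivFin.symm i).2
        exact ⟨j, hj⟩
      · rintro ⟨j, rfl⟩
        refine ⟨(Finset.univ.image v).equivFin ⟨v j, Finset.mem_image_of_mem _
          (Finset.mem_univ j)⟩, ?_⟩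
        show (((Finset.univ.image v).equivFin.symm ((Finset.univ.image v).equivFin _) : _) : R) = _
        rw [Equiv.symm_apply_apply]
  -- the ring of functions
  let T : Type := {t : R // Frame R n 1 (fun _ => t)}
  let τ : T → R := Subtype.val
  let S : NonUnitalSubring R :=
    { J with
      mul_mem' := fun {a b} _ hb => (hJ a b hb).1 }
  have hSn : ∀ x, x ∈ S ↔ Nl x := hJn
  have hS : ∀ s x, x ∈ S → τ s * x ∈ S := fun s x hx => (hJ _ x hx).1
  have hτ : ∀ s, Frame R n 1 (fun _ => τ s) := fun s => s.2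
  have hn : ∀ (a : T → S) (s : T), Nl (a s : R) := fun a s => (hSn _).1 (a s).2
  letI := Lca_mod T τ S hS
  haveI := Lca_tower T τ S hS e (fun x => (hF.one x).1)
  haveI := Lca_comm T τ S hS e hF.one (fun s => hcen _ (hτ s))
  have hev := Lca_evphi T τ S hS e (fun x => (hF.one x).1) c
  have hN6 : N6 (T → S) := by
    refine ⟨fun x => ?_, fun x hx => ?_⟩
    · funext s
      exact Subtype.ext (hn x s)
    · funext s
      refine Subtype.ext ?_
      have h1 : (6 : ℤ) • (x s : R) = 0 := congrArg (fun y : T → S => ((y s : S) : R)) hx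
      exact Fwm_cop (k := 6) h0.six _ (by exact_mod_cast h1)
  have hKFn : KFn (Polynomial ℤ) b g (Lca_phi T τ S hS c) := by
    refine ⟨⟨fun σ => Lca_pol (c σ), fun _ => rfl⟩, ?_, ?_⟩
    · intro k hk a j
      funext s
      refine Subtype.ext ?_
      rw [hev]
      refine hG.van _ _ (hτ s) (fun i => hn _ s) ?_
      intro h
      refine hsmall k (fun l => (a l s : R)) (fun l => hn _ s) ?_ _ (hτ s) ?_
      · refine lt_of_le_of_lt Finset.card_image_le ?_
        rw [Finset.card_univ, Fintype.card_fin]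
        exact hk
      · rw [eq_top_iff, ← h]
        refine NonUnitalSubring.closure_mono (Set.union_subset_union_right _ ?_)
        rintro _ ⟨i, rfl⟩
        exact ⟨j i, rfl⟩
    · obtain ⟨t, x, ht, hx, hne⟩ := hG.ne
      have hzt : NonUnitalSubring.closure ({t} ∪ Set.range z) = ⊤ := by rw [hcl t ht, hzg]
      obtain ⟨s, hs⟩ : ∃ s : Fin b → Fin g, FF e c t (fun i => z (s i)) ≠ 0 := by
        by_contra hcon
        refine hne (Lca_span (p := p) z hzn (hW t ht) ?_ hKN (fun x hx i => hK t x ht hx i)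
          (fun s => by_contra fun h => hcon ⟨s, h⟩) x hx)
        intro y hy
        exact Dcp_rep (Dcp_all (a := fun _ => 0) hF.cy hF.prm hF.one
          ⟨ht, fun i => ⟨hzn i, (hcen t ht _).symm⟩⟩ hzt hy)
      refine ⟨fun i _ => ⟨z i, (hSn _).2 (hzn i)⟩, s, ?_, ?_⟩
      · by_contra hsur
        refine hs (hG.van t _ ht (fun i => hzn _) (hsmall b _ (fun i => hzn _) ?_ t ht))
        have h1 : (Finset.univ.image fun i => z (s i)) =
            (Finset.univ.image s).image z := by
          rw [Finset.image_image]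
          rfl
        rw [h1]
        refine lt_of_le_of_lt Finset.card_image_le ?_
        refine lt_of_lt_of_eq (Finset.card_lt_card (t := Finset.univ) ?_) ?_
        · refine ⟨Finset.subset_univ _, fun h2 => hsur fun j => ?_⟩
          obtain ⟨i, _, hi⟩ := Finset.mem_image.1 (h2 (Finset.mem_univ j))
          exact ⟨i, hi⟩
        · rw [Finset.card_univ, Fintype.card_fin]
      · intro h
        apply hs
        have h1 := congrArg (fun y : T → S => ((y ⟨t, ht⟩ : S) : R)) h
        exact (hev (fun k _ => ⟨z (s k), (hSn _).2 (hzn _)⟩) ⟨t, ht⟩).symm.trans h1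
  obtain ⟨f, M, i, hf, hfi, x0, hx0⟩ := hKcs (Polynomial ℤ) (T → S) hN6 b g
    (Lca_phi T τ S hS c) hb1 hb5 hKFn
  obtain ⟨f', hf', hfe⟩ := Lca_loc T τ S hS e (fun x => (hF.one x).1) f hf
  have hval : ∀ (t : R) (x : Fin g → R), Frame R n 1 (fun _ => t) → (∀ j, Nl (x j)) →
      f' t x = M • FF e c t (fun k => x (i k)) := by
    intro t x ht hx
    have h1 := hfe (fun j _ => ⟨x j, (hSn _).2 (hx j)⟩) ⟨t, ht⟩
    rw [hfi] at h1
    rw [← show _ = f' t x from h1]
    show M • ((Lca_phi T τ S hS c _ : T → S) ⟨t, ht⟩ : R) = _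
    rw [hev]
  refine ⟨g, f', hf', ⟨z, hzn, hzg⟩, ?_, ?_⟩
  · intro t x ht hx
    refine ⟨?_, ?_, ?_⟩
    · rw [hval t x ht hx]
      exact zsmul_mem (hG.val t _ ht fun k => hx _) M
    · intro y hy
      rw [hval t x ht hx, hval t y ht fun j => (hy j).1]
      congr 1
      exact Lca_inv (p := p) (fun x hx i => hK t x ht hx i) hKN _ _ (fun k => hx _) fun k => hy _
    · intro j k hjk hxx
      rw [hval t x ht hx]
      have h1 : NonUnitalSubring.closure ({t} ∪ Set.range x) ≠ ⊤ := by
        refine hsmall g x hx ?_ t ht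
        refine lt_of_le_of_ne (Finset.card_image_le.trans (by simp)) fun h => ?_
        have h2 : (Finset.univ.image x).card = (Finset.univ : Finset (Fin g)).card := by
          rw [h, Finset.card_univ, Fintype.card_fin]
        exact hjk (Finset.card_image_iff.1 h2 (Finset.mem_coe.2 (Finset.mem_univ j))
          (Finset.mem_coe.2 (Finset.mem_univ k)) hxx)
      rw [hG.van t _ ht (fun k => hx _) ?_, smul_zero]
      intro h2
      apply h1
      rw [eq_top_iff, ← h2]
      refine NonUnitalSubring.closure_mono (Set.union_subset_union_right _ ?_)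
      rintro _ ⟨l, rfl⟩
      exact ⟨i l, rfl⟩
  · obtain ⟨s, hs⟩ : ∃ s, f x0 s ≠ 0 := by
      by_contra hcon
      exact hx0 (funext fun s => by_contra fun h => hcon ⟨s, h⟩)
    refine ⟨τ s, fun j => (x0 j s : R), hτ s, fun j => hn _ s, ?_⟩
    rw [← hfe]
    exact fun h => hs (Subtype.ext h)

end Pool.Agent.CRQ
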