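import Pool.Agent.CRQ.St
import Pool.Agent.CRP.Wpn
import Pool.Agent.CRM.Tyn
import Pool.Agent.CRM.Kjf
import Pool.Agent.CRM.Dmk
import Pool.Agent.CRM.Bkl
import Pool.Agent.CRK.Cvn
import Pool.Agent.CRL.All

/-!
Campaign CRQ, module Lcb: the rings of the central local type are critical.
-/

set_option autoImplicit false

namespace Pool.Agent.CRQ

open Pool.Agent.CRR Pool.Agent.CRN Pool.Agent.CRK Pool.Agent.CRL Pool.Agent.CRM Pool.Agent.CRP

/-! ### Products and standard polynomials under homomorphisms -/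

theorem Lcb_wp_map {A B : Type} [NonUnitalRing A] [NonUnitalRing B] (j : A →ₙ+* B) :
    ∀ l : List A, j (wp l) = wp (l.map j)
  | [] => map_zero j
  | [_] => rfl
  | x :: y :: l => by
    change j (x * wp (y :: l)) = j x * wp (List.map j (y :: l))
    rw [map_mul, Lcb_wp_map j (y :: l)]

theorem Lcb_stp_map {A B : Type} [NonUnitalRing A] [NonUnitalRing B] (j : A →ₙ+* B) {g : ℕ}
    (x : Fin g → A) : j (stp x) = stp (fun i => j (x i)) := by
  unfold stp
  rw [map_sum]
  refine Finset.sum_congr rfl fun σ _ => ?_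
  rw [map_zsmul, Lcb_wp_map, List.map_ofFn]
  rfl

/-! ### Term functions -/

section tm

variable {R : Type} [NonUnitalRing R]

theorem Lcb_tm_stp {m : ℕ} (ι : Fin m → ℕ) :
    TmF (R := R) (fun v => stp (fun i : Fin m => v (ι i))) := by
  unfold stp
  refine Cvn_TmF_sum _ _ fun σ => Cvn_TmF_zsmul ?_ _
  have h1 := Cvn_TmF_wp (R := R) (List.ofFn fun i => ι (σ i))
  simpa only [List.map_ofFn, Function.comp_def] using h1

theorem Lcb_tm_te (N k : ℕ) : TmF (R := R) (fun v => te (pw (v 0) N) (v 0) k) := by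
  induction k with
  | zero => exact (TmF.var 0).pw N
  | succ k ih => exact (TmF.var 0).mul ih

theorem Lcb_tm_Cv (N : ℕ) (m : List (ℤ × ℕ)) : TmF (R := R) (fun v => Cv m (pw (v 0) N) (v 0)) := by
  induction m with
  | nil => exact TmF.zero
  | cons q m ih =>
    have h1 := (Cvn_TmF_zsmul (Lcb_tm_te (R := R) N q.2) q.1).add ih
    simpa only [Cv, List.map_cons, List.sum_cons] using h1

/-- The functions of the list are term functions, the identity is replaced by a power of `t`. -/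
theorem Lcb_tm {e : R} {g : ℕ} {f : R → (Fin g → R) → R} (hf : LocFun e g f) (N : ℕ) :
    ∃ G : R → (Fin g → R) → R, TmF (fun v => G (v 0) (fun i : Fin g => v (1 + i))) ∧
      ∀ t x, pw t N = e → G t x = f t x := by
  have hv : ∀ i : Fin g, TmF (R := R) (fun v => v (1 + i)) := fun i => TmF.var _
  have hs : TmF (R := R) (fun v => stp (fun i : Fin g => v (1 + i))) :=
    Lcb_tm_stp fun i : Fin g => 1 + (i : ℕ)
  rcases hf with ⟨m, h⟩ | ⟨a, b, i, h⟩ | ⟨m, i, h⟩ | ⟨a, b, i, j, -, -, h⟩ | ⟨m, i, j, -, -, h⟩ |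
    ⟨m, i, j, -, -, -, h⟩ | ⟨a, b, i, j, -, -, -, h⟩
  · refine ⟨fun t x => Cv m (pw t N) t * stp x, (Lcb_tm_Cv N m).mul hs, ?_⟩
    intro t x ht
    rw [h t x, ← ht]
  · refine ⟨fun t x => Cv a (pw t N) t * (x i * stp x) + Cv b (pw t N) t * (stp x * x i),
      ((Lcb_tm_Cv N a).mul ((hv i).mul hs)).add ((Lcb_tm_Cv N b).mul (hs.mul (hv i))), ?_⟩
    intro t x ht
    rw [h t x, ← ht]
  · refine ⟨fun t x => Cv m (pw t N) t * (x i * x i * stp x),
      (Lcb_tm_Cv N m).mul (((hv i).mul (hv i)).mul hs), ?_⟩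
    intro t x ht
    rw [h t x, ← ht]
  · refine ⟨fun t x => Cv a (pw t N) t * (x i * x i * x j * x j) +
      Cv b (pw t N) t * (x i * x j * x i * x j),
      ((Lcb_tm_Cv N a).mul ((((hv i).mul (hv i)).mul (hv j)).mul (hv j))).add
        ((Lcb_tm_Cv N b).mul ((((hv i).mul (hv j)).mul (hv i)).mul (hv j))), ?_⟩
    intro t x ht
    rw [h t x, ← ht]
  · refine ⟨fun t x => Cv m (pw t N) t * (x i * x i * x j * x i * x j),
      (Lcb_tm_Cv N m).mul (((((hv i).mul (hv i)).mul (hv j)).mul (hv i)).mul (hv j)), ?_⟩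
    intro t x ht
    rw [h t x, ← ht]
  · refine ⟨fun t x => Cv m (pw t N) t * (x i * stp fun k => x (j k)),
      (Lcb_tm_Cv N m).mul ((hv i).mul (Lcb_tm_stp fun k => 1 + (j k : ℕ))), ?_⟩
    intro t x ht
    rw [h t x, ← ht]
  · refine ⟨fun t x => Cv a (pw t N) t * (x i * stp x) +
      Cv b (pw t N) t * (x i * x i * stp fun k => x (j k)),
      ((Lcb_tm_Cv N a).mul ((hv i).mul hs)).add
        ((Lcb_tm_Cv N b).mul (((hv i).mul (hv i)).mul (Lcb_tm_stp fun k => 1 + (j k : ℕ)))), ?_⟩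
    intro t x ht
    rw [h t x, ← ht]

end tm

/-! ### Central elements and the ring of nil elements -/

section cen

variable {R : Type} [NonUnitalRing R]

/-- The centre, with the identity `e`. -/
@[reducible] def LcbK (e : R) (he : ∀ x : R, e * x = x ∧ x * e = x) :
    CommRing (NonUnitalSubring.center R) :=
  { (inferInstance : NonUnitalCommRing (NonUnitalSubring.center R)) with
    one := ⟨e, by
      rw [NonUnitalSubring.mem_center_iff]
      intro g
      rw [(he g).1, (he g).2]⟩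
    one_mul := fun a => Subtype.ext (he a.1).1
    mul_one := fun a => Subtype.ext (he a.1).2 }

/-- The nil elements as a module over the centre. -/
@[reducible] def LcbM (J : NonUnitalSubring R) (hJ : ∀ r : R, ∀ x ∈ J, r * x ∈ J) (e : R)
    (he : ∀ x : R, e * x = x ∧ x * e = x) :
    letI := LcbK e he
    Module (NonUnitalSubring.center R) J :=
  letI := LcbK e he
  { smul := fun k a => ⟨k.1 * a.1, hJ k.1 a.1 a.2⟩
    one_smul := fun a => Subtype.ext (he a.1).1
    mul_smul := fun k l a => Subtype.ext (mul_assoc k.1 l.1 a.1)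
    smul_zero := fun k => Subtype.ext (mul_zero k.1)
    smul_add := fun k a b => Subtype.ext (mul_add k.1 a.1 b.1)
    add_smul := fun k l a => Subtype.ext (add_mul k.1 l.1 a.1)
    zero_smul := fun a => Subtype.ext (zero_mul a.1) }

theorem Lcb_te_cen {e t : R} (he : ∀ x : R, e * x = x ∧ x * e = x) (ht : ∀ r, t * r = r * t)
    (k : ℕ) (r : R) : te e t k * r = r * te e t k := by
  induction k with
  | zero => exact (he r).1.trans (he r).2.symm
  | succ k ih =>
    change t * te e t k * r = r * (t * te e t k)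
    rw [mul_assoc, ih, ← mul_assoc, ht r, mul_assoc]

theorem Lcb_Cv_cen {e t : R} (he : ∀ x : R, e * x = x ∧ x * e = x) (ht : ∀ r, t * r = r * t)
    (m : List (ℤ × ℕ)) (r : R) : Cv m e t * r = r * Cv m e t := by
  induction m with
  | nil =>
    change (0 : R) * r = r * 0
    rw [zero_mul, mul_zero]
  | cons q m ih =>
    have h1 : Cv (q :: m) e t = q.1 • te e t q.2 + Cv m e t := by
      simp only [Cv, List.map_cons, List.sum_cons]
    rw [h1, add_mul, mul_add, ih, smul_mul_assoc, mul_smul_comm, Lcb_te_cen he ht]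

theorem Lcb_W_cen {t u : R} (ht : ∀ r, t * r = r * t)
    (hu : u ∈ NonUnitalSubring.closure ({t} : Set R)) (r : R) : u * r = r * u := by
  induction hu using NonUnitalSubring.closure_induction with
  | mem x hx => rw [Set.mem_singleton_iff.1 hx, ht]
  | zero => rw [mul_zero, zero_mul]
  | add x y _ _ hx hy => rw [mul_add, add_mul, hx, hy]
  | neg x _ hx => rw [mul_neg, neg_mul, hx]
  | mul x y _ _ hx hy => rw [mul_assoc, hy, ← mul_assoc, hx, mul_assoc]

end cen

theorem Lcb_kdp (hKdp : St_Kdp) {R : Type} [NonUnitalRing R] (J : NonUnitalSubring R)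
    (hJI : ∀ r : R, ∀ x ∈ J, r * x ∈ J) (hJn : ∀ x ∈ J, x * x * x = 0) {e t : R}
    (he : ∀ x : R, e * x = x ∧ x * e = x) (ht : ∀ r, t * r = r * t) {g : ℕ}
    {f : R → (Fin g → R) → R} (hf : LocFun e g f)
    (hz : ∀ x : Fin g → R, (∀ i, x i ∈ J) → ∀ i j : Fin g, i ≠ j → x i = x j → f t x = 0) :
    (∀ x : Fin g → R, (∀ i, x i ∈ J) → ∀ k, x k = 0 → f t x = 0) ∧
    ∃ l₀ : Fin g → Prop, (∀ i j, ¬ l₀ i → ¬ l₀ j → i = j) ∧
      ∀ (x : Fin g → R) (l : Fin g) (μ : Fin g → R), (∀ i, x i ∈ J) →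
        (∀ i r, μ i * r = r * μ i) → l₀ l → μ l = 0 → x l = ∑ k, μ k * x k → f t x = 0 := by
  let iK : CommRing (NonUnitalSubring.center R) := LcbK e he
  let iM : Module (NonUnitalSubring.center R) J := LcbM J hJI e he
  have i1 : IsScalarTower (NonUnitalSubring.center R) J J :=
    ⟨fun k a b => Subtype.ext (mul_assoc k.1 a.1 b.1)⟩
  have i2 : SMulCommClass (NonUnitalSubring.center R) J J :=
    ⟨fun k a b => Subtype.ext (by
      change k.1 * (a.1 * b.1) = a.1 * (k.1 * b.1)
      rw [← mul_assoc, ← mul_assoc, NonUnitalSubring.mem_center_iff.1 k.2 a.1])⟩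
  have hcv : ∀ m : List (ℤ × ℕ), Cv m e t ∈ NonUnitalSubring.center R := by
    intro m
    rw [NonUnitalSubring.mem_center_iff]
    intro r
    exact (Lcb_Cv_cen he ht m r).symm
  have hstp : ∀ {m : ℕ} (x : Fin m → J), ((stp x : J) : R) = stp (fun i => (x i : R)) := by
    intro m x
    exact Lcb_stp_map (NonUnitalSubringClass.subtype J) x
  have hsm : ∀ (k : NonUnitalSubring.center R) (a : J), ((k • a : J) : R) = k.1 * a.1 :=
    fun _ _ => rfl
  obtain ⟨f', hf', hff⟩ : ∃ f' : (Fin g → J) → J, KFun (NonUnitalSubring.center R) g f' ∧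
      ∀ x, (f' x : R) = f t (fun i => (x i : R)) := by
    rcases hf with ⟨m, h⟩ | ⟨a, b, i, h⟩ | ⟨m, i, h⟩ | ⟨a, b, i, j, hg, hij, h⟩ |
      ⟨m, i, j, hg, hij, h⟩ | ⟨m, i, j, hg, hj, hji, h⟩ | ⟨a, b, i, j, hg, hj, hji, h⟩
    · refine ⟨fun x => (⟨_, hcv m⟩ : NonUnitalSubring.center R) • stp x,
        Or.inl ⟨⟨_, hcv m⟩, fun x => rfl⟩, fun x => ?_⟩
      rw [h, ← hstp]
      rfl
    · refine ⟨fun x => (⟨_, hcv a⟩ : NonUnitalSubring.center R) • (x i * stp x) +
        (⟨_, hcv b⟩ : NonUnitalSubring.center R) • (stp x * x i),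
        Or.inr (Or.inl ⟨⟨_, hcv a⟩, ⟨_, hcv b⟩, i, fun x => rfl⟩), fun x => ?_⟩
      rw [h, ← hstp]
      rfl
    · refine ⟨fun x => (⟨_, hcv m⟩ : NonUnitalSubring.center R) • (x i * x i * stp x),
        Or.inr (Or.inr (Or.inl ⟨⟨_, hcv m⟩, i, fun x => rfl⟩)), fun x => ?_⟩
      rw [h, ← hstp]
      rfl
    · refine ⟨fun x => (⟨_, hcv a⟩ : NonUnitalSubring.center R) • (x i * x i * x j * x j) +
        (⟨_, hcv b⟩ : NonUnitalSubring.center R) • (x i * x j * x i * x j),
        Or.inr (Or.inr (Or.inr (Or.inl ⟨⟨_, hcv a⟩, ⟨_, hcv b⟩, i, j, hg, hij, fun x => rfl⟩))),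
        fun x => ?_⟩
      rw [h]
      rfl
    · refine ⟨fun x => (⟨_, hcv m⟩ : NonUnitalSubring.center R) • (x i * x i * x j * x i * x j),
        Or.inr (Or.inr (Or.inr (Or.inr (Or.inl ⟨⟨_, hcv m⟩, i, j, hg, hij, fun x => rfl⟩)))),
        fun x => ?_⟩
      rw [h]
      rfl
    · refine ⟨fun x => (⟨_, hcv m⟩ : NonUnitalSubring.center R) • (x i * stp fun k => x (j k)),
        Or.inr (Or.inr (Or.inr (Or.inr (Or.inr (Or.inl
          ⟨⟨_, hcv m⟩, i, j, hg, hj, hji, fun x => rfl⟩))))), fun x => ?_⟩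
      rw [h, ← hstp (fun k => x (j k))]
      rfl
    · refine ⟨fun x => (⟨_, hcv a⟩ : NonUnitalSubring.center R) • (x i * stp x) +
        (⟨_, hcv b⟩ : NonUnitalSubring.center R) • (x i * x i * stp fun k => x (j k)),
        Or.inr (Or.inr (Or.inr (Or.inr (Or.inr (Or.inr
          ⟨⟨_, hcv a⟩, ⟨_, hcv b⟩, i, j, hg, hj, hji, fun x => rfl⟩))))), fun x => ?_⟩
      rw [h, ← hstp (fun k => x (j k)), ← hstp x]
      rfl
  have hf0 : ∀ x : Fin g → J, f' x = 0 ↔ f t (fun i => (x i : R)) = 0 := by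
    intro x
    rw [← hff]
    exact ⟨fun h => by rw [h]; rfl, fun h => Subtype.ext h⟩
  obtain ⟨h1, l₀, h2, h3⟩ := hKdp (NonUnitalSubring.center R) J
    (fun x => Subtype.ext (hJn x.1 x.2)) g f' hf' (fun x i j hij hx =>
      (hf0 x).2 (hz _ (fun i => (x i).2) i j hij (congrArg Subtype.val hx)))
  refine ⟨fun x hx k hk => ?_, l₀, h2, fun x l μ hx hμ hl hμl hrel => ?_⟩
  · exact (hf0 fun i => ⟨x i, hx i⟩).1 (h1 _ k (Subtype.ext hk))
  · have hμ' : ∀ i, μ i ∈ NonUnitalSubring.center R := by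
      intro i
      rw [NonUnitalSubring.mem_center_iff]
      intro r
      exact (hμ i r).symm
    refine (hf0 fun i => ⟨x i, hx i⟩).1 (h3 _ l (fun i => ⟨μ i, hμ' i⟩) hl (Subtype.ext hμl)
      (Subtype.ext ?_))
    change x l = NonUnitalSubringClass.subtype J
      (∑ k, (⟨μ k, hμ' k⟩ : NonUnitalSubring.center R) • (⟨x k, hx k⟩ : J))
    rw [map_sum]
    exact hrel

/-- An element of `M_j` is a combination of the `x_i`, `i < j`, modulo `KJ`. -/
theorem Lcb_Mj {R : Type} [NonUnitalRing R] {p g : ℕ} {t : R} {x : Fin g → R} {j : Fin g} {y : R}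
    (hy : y ∈ Mj p t x j) : ∃ u : Fin g → R,
      (∀ i, u i ∈ NonUnitalSubring.closure ({t} : Set R)) ∧ (∀ i, ¬ i < j → u i = 0) ∧
      y - ∑ i, u i * x i ∈ KJ R p := by
  obtain ⟨κ, hκ, s, hs, rfl⟩ := AddSubgroup.mem_sup.1 hy
  have h1 : ∃ u : Fin g → R, (∀ i, u i ∈ NonUnitalSubring.closure ({t} : Set R)) ∧
      (∀ i, ¬ i < j → u i = 0) ∧ s = ∑ i, u i * x i := by
    clear hy
    induction hs using AddSubgroup.closure_induction with
    | mem w hw =>
      obtain ⟨i, hi, u, hu, rfl⟩ := hw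
      refine ⟨Pi.single i u, fun k => ?_, fun k hk => ?_, ?_⟩
      · by_cases hki : k = i
        · rw [hki, Pi.single_eq_same]; exact hu
        · rw [Pi.single_eq_of_ne hki]; exact zero_mem _
      · refine Pi.single_eq_of_ne (fun h => hk ?_) _
        rw [h]
        exact hi
      · rw [Finset.sum_eq_single i, Pi.single_eq_same]
        · intro k _ hki
          rw [Pi.single_eq_of_ne hki, zero_mul]
        · intro h
          exact absurd (Finset.mem_univ i) h
    | zero => exact ⟨fun _ => 0, fun _ => zero_mem _, fun _ _ => rfl, by simp⟩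
    | add a b _ _ ha hb =>
      obtain ⟨u, h1, h2, h3⟩ := ha
      obtain ⟨u', h1', h2', h3'⟩ := hb
      refine ⟨fun i => u i + u' i, fun i => add_mem (h1 i) (h1' i), fun i hi => ?_, ?_⟩
      · change u i + u' i = 0
        rw [h2 i hi, h2' i hi, add_zero]
      · rw [h3, h3', ← Finset.sum_add_distrib]
        exact Finset.sum_congr rfl fun i _ => (add_mul _ _ _).symm
    | neg a _ ha =>
      obtain ⟨u, h1, h2, h3⟩ := ha
      refine ⟨fun i => -u i, fun i => neg_mem (h1 i), fun i hi => ?_, ?_⟩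
      · change -u i = 0
        rw [h2 i hi, neg_zero]
      · rw [h3, ← Finset.sum_neg_distrib]
        exact Finset.sum_congr rfl fun i _ => (neg_mul _ _).symm
  obtain ⟨u, h1, h2, rfl⟩ := h1
  refine ⟨u, h1, h2, ?_⟩
  rw [add_sub_cancel_right]
  exact hκ

/-- A relation modulo `KJ` which involves an argument in `l₀`, with coefficient 1. -/
theorem Lcb_rep {R : Type} [NonUnitalRing R] {p g : ℕ} {F : (Fin g → R) → R}
    (J : NonUnitalSubring R) (hJI : ∀ r : R, ∀ x ∈ J, r * x ∈ J)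
    (hinv : ∀ x y : Fin g → R, (∀ i, x i ∈ J) → (∀ i, y i ∈ J) → (∀ i, x i - y i ∈ KJ R p) →
      F x = F y)
    {l₀ : Fin g → Prop}
    (hk : ∀ (x : Fin g → R) (l : Fin g) (μ : Fin g → R), (∀ i, x i ∈ J) →
        (∀ i r, μ i * r = r * μ i) → l₀ l → μ l = 0 → x l = ∑ k, μ k * x k → F x = 0)
    (x : Fin g → R) (hx : ∀ i, x i ∈ J) (l : Fin g) (hl : l₀ l) (μ : Fin g → R)
    (hμ : ∀ i r, μ i * r = r * μ i) (hμl : μ l = 0) (hrel : x l - ∑ k, μ k * x k ∈ KJ R p) :
    F x = 0 := by
  have hs : ∑ k, μ k * x k ∈ J := sum_mem fun k _ => hJI _ _ (hx k)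
  have hx' : ∀ i, Function.update x l (∑ k, μ k * x k) i ∈ J := by
    intro i
    by_cases h : i = l
    · rw [h, Function.update_self]; exact hs
    · rw [Function.update_of_ne h]; exact hx i
  rw [hinv x (Function.update x l (∑ k, μ k * x k)) hx hx' fun i => ?_]
  · refine hk _ l μ hx' hμ hl hμl ?_
    rw [Function.update_self]
    refine Finset.sum_congr rfl fun k _ => ?_
    by_cases h : k = l
    · rw [h, hμl, zero_mul, zero_mul]
    · rw [Function.update_of_ne h]
  · by_cases h : i = l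
    · rw [h, Function.update_self]; exact hrel
    · rw [Function.update_of_ne h, sub_self]; exact zero_mem _

/-- The value is zero if there is a relation. -/
theorem Lcb_main (hKdp : St_Kdp) {R : Type} [NonUnitalRing R] {n p : ℕ} (hC : Cy R n p)
    (J : NonUnitalSubring R)
    (hJ : ∀ x, x ∈ J ↔ Nl x) (hJI : ∀ r : R, ∀ x ∈ J, r * x ∈ J) (hKI : Idl R (KJ R p)) {e t : R}
    (hpr : Prm R e)
    (he : ∀ x : R, e * x = x ∧ x * e = x) (ht : ∀ r, t * r = r * t) {g : ℕ}
    {f : R → (Fin g → R) → R} (hf : LocFun e g f)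
    (hinv : ∀ x y : Fin g → R, (∀ i, x i ∈ J) → (∀ i, y i ∈ J) → (∀ i, x i - y i ∈ KJ R p) →
      f t x = f t y)
    (hz : ∀ x : Fin g → R, (∀ i, x i ∈ J) → ∀ i j : Fin g, i ≠ j → x i = x j → f t x = 0)
    (x : Fin g → R) (hx : ∀ i, x i ∈ J) (j : Fin g) (hj : x j ∈ Mj p t x j) : f t x = 0 := by
  obtain ⟨h1, l₀, h2, h3⟩ := Lcb_kdp hKdp J hJI (fun x hx => (hJ x).1 hx) he ht hf hz
  obtain ⟨u, huW, hu0, hu⟩ := Lcb_Mj hj
  have huc : ∀ i r, u i * r = r * u i := fun i r => Lcb_W_cen ht (huW i) r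
  have huj : u j = 0 := hu0 j (lt_irrefl j)
  by_cases hlj : l₀ j
  · exact Lcb_rep J hJI hinv h3 x hx j hlj u huc huj hu
  · by_cases hex : ∃ l, l ≠ j ∧ ¬ Nl (u l)
    · obtain ⟨l, hne, hul⟩ := hex
      have hl : l₀ l := by
        by_contra hl
        exact hne (h2 l j hl hlj)
      rcases thm_Prl n hC.n4 R hC.inM e hpr (u l) (he _).1 (he _).2 with h | ⟨y, -, -, huy, hyu⟩
      · exact absurd h hul
      have hyc : ∀ r, y * r = r * y := by
        intro r
        calc y * r = y * r * (u l * y) := by rw [huy, (he _).2]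
          _ = y * (r * u l) * y := by simp only [mul_assoc]
          _ = y * (u l * r) * y := by rw [huc]
          _ = y * u l * r * y := by simp only [mul_assoc]
          _ = r * y := by rw [hyu, (he _).1]
      classical
      refine Lcb_rep J hJI hinv h3 x hx l hl
        (fun k => if k = l then 0 else if k = j then y else -(y * u k)) ?_ (if_pos rfl) ?_
      · intro k r
        split_ifs
        · rw [zero_mul, mul_zero]
        · exact hyc r
        · rw [neg_mul, mul_neg, mul_assoc, huc, ← mul_assoc, hyc, mul_assoc]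
      · have e1 : ∀ k, (if k = l then 0 else if k = j then y else -(y * u k)) * x k =
            (if k = j then y * x j else 0) - y * (u k * x k) + (if k = l then x l else 0) := by
          intro k
          by_cases hkl : k = l
          · have hkj : k ≠ j := fun h => hne (hkl.symm.trans h)
            rw [if_pos hkl, if_neg hkj, if_pos hkl, hkl, ← mul_assoc, hyu, (he _).1, zero_mul]
            abel
          · by_cases hkj : k = j
            · rw [if_neg hkl, if_pos hkj, if_pos hkj, if_neg hkl, hkj, huj, zero_mul, mul_zero,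
                sub_zero, add_zero]
            · rw [if_neg hkl, if_neg hkj, if_neg hkj, if_neg hkl, neg_mul, mul_assoc, zero_sub,
                add_zero]
        have e2 : x l - ∑ k, (if k = l then 0 else if k = j then y else -(y * u k)) * x k =
            -(y * (x j - ∑ i, u i * x i)) := by
          rw [Finset.sum_congr rfl fun k _ => e1 k, Finset.sum_add_distrib,
            Finset.sum_sub_distrib, Finset.sum_ite_eq', Finset.sum_ite_eq',
            if_pos (Finset.mem_univ _), if_pos (Finset.mem_univ _), mul_sub, Finset.mul_sum]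
          abel
        rw [e2]
        exact neg_mem (hKI y _ hu).1
    · push Not at hex
      have hxK : x j ∈ KJ R p := by
        have h4 : ∑ i, u i * x i ∈ KJ R p := by
          refine sum_mem fun i _ => ?_
          by_cases hij : i = j
          · rw [hij, huj, zero_mul]; exact zero_mem _
          · exact AddSubgroup.subset_closure
              (Or.inl ⟨u i, x i, hex i hij, (hJ _).1 (hx i), rfl⟩)
        have h5 := add_mem hu h4
        rwa [sub_add_cancel] at h5
      have hx' : ∀ i, Function.update x j 0 i ∈ J := by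
        intro i
        by_cases h : i = j
        · rw [h, Function.update_self]; exact zero_mem _
        · rw [Function.update_of_ne h]; exact hx i
      rw [hinv x (Function.update x j 0) hx hx' fun i => ?_]
      · exact h1 _ hx' j (Function.update_self ..)
      · by_cases h : i = j
        · rw [h, Function.update_self, sub_zero]; exact hxK
        · rw [Function.update_of_ne h, sub_self]; exact zero_mem _

theorem Lcb_frame {R : Type} [NonUnitalRing R] {n : ℕ} {v : ℕ → R}
    (h : Frame R n 1 (fun i : Fin 1 => v i)) : Frame R n 1 (fun _ => v 0) := by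
  have e : (fun i : Fin 1 => v i) = fun _ => v 0 := by
    funext i
    rw [Fin.fin_one_eq_zero i]
    rfl
  rwa [e] at h

/-- The case in which the frame generates the ring. -/
theorem Lcb_one {R : Type} [NonUnitalRing R] [Finite R] {n p N : ℕ} {e t₀ : R}
    (hL : Lfr n p N e t₀) {H : AddSubgroup R} (hH : Lst R H)
    (hgen : NonUnitalSubring.closure ({t₀} : Set R) = ⊤)
    (hcfr : ∀ t : R, Frame R n 1 (fun _ => t) →
      NonUnitalSubring.closure ({t} : Set R) = NonUnitalSubring.closure ({t₀} : Set R)) :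
    Critical R := by
  classical
  have he := hL.one
  have hex : ∃ r : ℕ, ∀ x : R, (p ^ r) • x = 0 := hL.cy.pr
  obtain ⟨k, hk, y, hy⟩ : ∃ k, (∀ x : R, (p ^ (k + 1)) • x = 0) ∧ ∃ x : R, (p ^ k) • x ≠ 0 := by
    have h0 : Nat.find hex ≠ 0 := by
      intro h
      have h1 := Nat.find_spec hex e
      rw [h, pow_zero, one_smul] at h1
      exact hL.prm.2.1 h1
    obtain ⟨k, hk⟩ := Nat.exists_eq_succ_of_ne_zero h0
    refine ⟨k, ?_, ?_⟩
    · have := Nat.find_spec hex
      rwa [hk] at this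
    · have := Nat.find_min hex (m := k) (by omega)
      push Not at this
      exact this
  obtain ⟨h, hh, hh0⟩ : ∃ h ∈ H, h ≠ 0 := by
    by_contra hcon
    push Not at hcon
    refine hH.2.1 ((AddSubgroup.eq_bot_iff_forall H).2 hcon)
  obtain ⟨l, u, u', -, hhu, hu1, -⟩ := (thm_Wpn n p N R e t₀ hL).2 h (by rw [hgen]; trivial) hh0
  have hle : (p ^ l) • e ∈ H := by
    have h1 := (hH.1 u' h hh).1
    rwa [hhu, mul_smul_comm, hu1] at h1
  have hlk : l ≤ k := by
    by_contra hcon
    obtain ⟨d, rfl⟩ := Nat.exists_eq_add_of_le (show k + 1 ≤ l by omega)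
    exact hh0 (by rw [hhu, pow_add, mul_comm, mul_smul, hk, smul_zero])
  have hkH : ∀ x : R, (p ^ k) • x ∈ H := by
    intro x
    obtain ⟨d, rfl⟩ := Nat.exists_eq_add_of_le hlk
    have h1 := (hH.1 x _ hle).2
    rw [smul_mul_assoc, (he x).1] at h1
    rw [pow_add, mul_comm, mul_smul]
    exact H.nsmul_mem h1 _
  refine thm_Bkl n p R hL.cy e hL.prm he H hH 0 (fun v => (p ^ k) • v 0) ⟨?_, ?_, ?_, ?_, ?_⟩
  · exact Cvn_TmF_nsmul (TmF.var 0) _
  · intro v v' hv
    rw [hv 0 (by omega)]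
  · intro v _
    exact hkH _
  · intro v hv S hS hvS
    exfalso
    apply hS
    rw [eq_top_iff, ← hgen, ← hcfr (v 0) (Lcb_frame hv.1), NonUnitalSubring.closure_le]
    intro x hx
    rw [Set.mem_singleton_iff.1 hx]
    exact hvS 0 (by omega)
  · refine ⟨fun _ => t₀, ⟨hL.fr, fun k hk => absurd hk (Nat.not_lt_zero k)⟩, fun h0 => hy ?_⟩
    have h1 : ∀ m, (p ^ k) • pw t₀ m = 0 := by
      intro m
      induction m with
      | zero => exact h0
      | succ m ih =>
        change (p ^ k) • (pw t₀ m * t₀) = 0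
        rw [← smul_mul_assoc, ih, zero_mul]
    have h2 := h1 (N - 1)
    rw [hL.pn] at h2
    rw [← (he y).1, ← smul_mul_assoc, h2, zero_mul]

theorem thm_Lcb (hCfr : St_Cfr) (hKdp : St_Kdp) : St_Lcb := by
  intro n R _ _ hn hM hnt h6 hR
  obtain ⟨p, e, t₀, H, hL, hcen, hcase⟩ := hR
  have hC : Cy R n p := ⟨hn, hM, hnt, hL.pp, hL.pr⟩
  have he := hL.one
  obtain ⟨N, hN1, -, hNp, -, hall⟩ := thm_Tyn n p R hC e hL.prm he
  have hfr : ∀ t : R, Frame R n 1 (fun _ => t) → Lfr n p N e t := fun t ht =>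
    ⟨hC, hL.prm, he, ht, hN1, hNp, (hall t ht).2.1, (hall t ht).2.2⟩
  have hcn : Cn0 n p N e t₀ := ⟨hfr t₀ hL.fr, hcen, h6⟩
  have hcfr := hCfr n p N R e t₀ hcn
  rcases hcase with hgen | ⟨g, f, hf, ⟨z, hz, hgen⟩, hval, t₁, x₁, ht₁, hx₁, hne⟩
  · refine Lcb_one (hfr t₀ hL.fr) hL.lst hgen fun t ht => ?_
    have h1 := (hcfr t ht).2.2.2.2 ∅
    simpa using h1
  · obtain ⟨J, hJI, hJ⟩ := jil n hn R hM hnt
    obtain ⟨JJ, hJJ⟩ : ∃ JJ : NonUnitalSubring R, ∀ x, x ∈ JJ ↔ Nl x := by
      refine ⟨{ carrier := {x | Nl x}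
                add_mem' := fun {a b} ha hb => (hJ _).1 (J.add_mem ((hJ a).2 ha) ((hJ b).2 hb))
                zero_mem' := (hJ 0).1 J.zero_mem
                mul_mem' := fun {a b} _ hb => (hJ _).1 (hJI a b ((hJ b).2 hb)).1
                neg_mem' := fun {a} ha => (hJ _).1 (J.neg_mem ((hJ a).2 ha)) }, fun x => Iff.rfl⟩
    have hJJI : ∀ r : R, ∀ x ∈ JJ, r * x ∈ JJ := fun r x hx =>
      (hJJ _).2 ((hJ _).1 (hJI r x ((hJ x).2 ((hJJ x).1 hx))).1)
    have hKI := Dmk_kj p hJI hJ
    obtain ⟨q, -, hq, -⟩ := (thm_Dmk thm_Tyn (thm_Kjf thm_Tyn)) n p R hC e hL.prm he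
    have hTy : ∀ (t : R) (x : Fin g → R), Frame R n 1 (fun _ => t) → (∀ i, Nl (x i)) →
        Ty n (fun _ : Fin g => 0) t x := fun t x ht hx =>
      ⟨ht, fun i => ⟨hx i, ((hcfr t ht).2.1 (x i)).symm⟩⟩
    have hcl : ∀ (t : R) (x : Fin g → R), Frame R n 1 (fun _ => t) → (∀ i, Nl (x i)) →
        NonUnitalSubring.closure ({t} ∪ Set.range x) ≠ ⊤ → f t x = 0 := by
      intro t x ht hx hcl
      by_contra hfx
      have h1 : ∀ j, x j ∉ Mj p t x j := by
        intro j hj
        refine hfx (Lcb_main hKdp hC JJ hJJ hJJI hKI hL.prm he (hcfr t ht).2.1 hf ?_ ?_ x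
          (fun i => (hJJ _).2 (hx i)) j hj)
        · intro x y hx hy hxy
          exact (hval t x ht fun i => (hJJ _).1 (hx i)).2.1 y
            fun i => ⟨(hJJ _).1 (hy i), hxy i⟩
        · intro x hx i j hij hxij
          exact (hval t x ht fun i => (hJJ _).1 (hx i)).2.2 i j hij hxij
      have h2 := (hq g _ t z (hTy t z ht hz)).1 (by rw [(hcfr t ht).2.2.2.2, hgen])
      exact hcl ((((hq g _ t x (hTy t x ht hx)).2 h1).2) h2)
    obtain ⟨G, hG1, hG2⟩ := Lcb_tm hf (N - 1)
    have hGf : ∀ v : ℕ → R, Vec n 1 g v →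
        G (v 0) (fun i : Fin g => v (1 + i)) = f (v 0) (fun i : Fin g => v (1 + i)) :=
      fun v hv => hG2 _ _ (hfr (v 0) (Lcb_frame hv.1)).pn
    refine thm_Bkl n p R hC e hL.prm he H hL.lst g
      (fun v => G (v 0) (fun i : Fin g => v (1 + i))) ⟨hG1, ?_, ?_, ?_, ?_⟩
    · intro v v' hv
      rw [hv 0 (by omega)]
      congr 1
      funext i
      exact hv _ (by have := i.2; omega)
    · intro v hv
      rw [hGf v hv]
      exact (hval _ _ (Lcb_frame hv.1) fun i => hv.2 i i.2).1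
    · intro v hv S hS hvS
      rw [hGf v hv]
      refine hcl _ _ (Lcb_frame hv.1) (fun i => hv.2 i i.2) fun htop => hS ?_
      rw [eq_top_iff, ← htop, NonUnitalSubring.closure_le]
      rintro x (hx | ⟨i, rfl⟩)
      · rw [Set.mem_singleton_iff.1 hx]
        exact hvS 0 (by omega)
      · exact hvS _ (by have := i.2; omega)
    · obtain ⟨v, hv0, hv1⟩ : ∃ v : ℕ → R, v 0 = t₁ ∧ ∀ i : Fin g, v (1 + i) = x₁ i := by
        refine ⟨fun i => if h : 1 ≤ i ∧ i - 1 < g then x₁ ⟨i - 1, h.2⟩ else t₁, ?_, fun i => ?_⟩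
        · simp
        · have h1 : 1 ≤ 1 + (i : ℕ) ∧ 1 + (i : ℕ) - 1 < g := by
            have := i.2
            omega
          dsimp only
          rw [dif_pos h1]
          congr 1
          exact Fin.ext (by simp)
      have hVec : Vec n 1 g v := by
        refine ⟨?_, fun k hk => ?_⟩
        · have e1 : (fun i : Fin 1 => v i) = fun _ => t₁ := by
            funext i
            rw [Fin.fin_one_eq_zero i]
            exact hv0
          rw [e1]
          exact ht₁
        · have := hv1 ⟨k, hk⟩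
          rw [this]
          exact hx₁ _
      refine ⟨v, hVec, ?_⟩
      rw [hGf v hVec, hv0]
      have e2 : (fun i : Fin g => v (1 + i)) = x₁ := funext hv1
      rw [e2]
      exact hne

end Pool.Agent.CRQ
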