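import Pool.Agent.CRQ.St
import Pool.Agent.CRP.Typ
import Pool.Agent.CRM.All

/-!
Campaign CRQ, module Lmb: multilinear functions on central local rings, first step (helper73).
-/

set_option autoImplicit false

namespace Pool.Agent.CRQ

open Pool.Agent.CRR Pool.Agent.CRN Pool.Agent.CRK Pool.Agent.CRL Pool.Agent.CRM Pool.Agent.CRP

section words

variable {R : Type} [NonUnitalRing R]

theorem Lmb_rs_mem (A : ℕ → ℕ) (i j d : ℕ) (w : List ℕ) :
    ∀ r ∈ Lff_rs A i j d w, i ∈ r.2 ∧ (∀ m ∈ r.2, m ∈ w ∨ m = i) ∧ ∀ m ∈ w, m ≠ j → m ∈ r.2 := by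
  induction w with
  | nil => intro r hr; simp [Lff_rs] at hr
  | cons k w ih =>
    intro r hr
    rw [Lff_rs_cons] at hr
    rcases List.mem_append.1 hr with h | h
    · obtain ⟨q, hq, rfl⟩ := List.mem_map.1 h
      obtain ⟨h0, h1, h2⟩ := ih q hq
      refine ⟨List.mem_cons_of_mem _ h0, fun m hm => ?_, fun m hm hmj => ?_⟩
      · rcases List.mem_cons.1 hm with h3 | h3
        · exact Or.inl (List.mem_cons.2 (Or.inl h3))
        · rcases h1 m h3 with h4 | h4
          · exact Or.inl (List.mem_cons_of_mem _ h4)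
          · exact Or.inr h4
      · rcases List.mem_cons.1 hm with h3 | h3
        · exact List.mem_cons.2 (Or.inl h3)
        · exact List.mem_cons_of_mem _ (h2 m h3 hmj)
    · split at h
      · rename_i hk
        subst hk
        rcases List.mem_cons.1 h with h | h
        · rw [h]
          refine ⟨List.mem_cons_self, fun m hm => ?_, fun m hm hmj => ?_⟩
          · rcases List.mem_cons.1 hm with h3 | h3
            · exact Or.inr h3
            · exact Or.inl (List.mem_cons_of_mem _ h3)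
          · rcases List.mem_cons.1 hm with h3 | h3
            · exact absurd h3 hmj
            · exact List.mem_cons_of_mem _ h3
        · obtain ⟨q, hq, rfl⟩ := List.mem_map.1 h
          obtain ⟨h0, h1, h2⟩ := ih q hq
          refine ⟨List.mem_cons_self, fun m hm => ?_, fun m hm hmj => ?_⟩
          · rcases List.mem_cons.1 hm with h3 | h3
            · exact Or.inr h3
            · rcases h1 m h3 with h4 | h4
              · exact Or.inl (List.mem_cons_of_mem _ h4)
              · exact Or.inr h4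
          · rcases List.mem_cons.1 hm with h3 | h3
            · exact absurd h3 hmj
            · exact List.mem_cons_of_mem _ (h2 m h3 hmj)
      · simp at h

/-- The items of the first difference. -/
def Lmb_S (b j : ℕ) (L : List (ℤ × ℕ × List ℕ)) : List (ℤ × ℕ × List ℕ) :=
  (Lff_N (fun _ => 0) b j 0 L).filter fun q => decide (j ∈ q.2.2)

/-- All words have exactly the letters `< b`. -/
def Lmb_I (b : ℕ) (L : List (ℤ × ℕ × List ℕ)) : Prop :=
  ∀ q ∈ L, 1 ≤ q.2.1 + q.2.2.length ∧ ∀ i, i ∈ q.2.2 ↔ i < b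

theorem Lmb_S_I {b j : ℕ} {L : List (ℤ × ℕ × List ℕ)} (hL : Lmb_I b L) (hj : j < b) :
    Lmb_I (b + 1) (Lmb_S b j L) := by
  intro r hr
  obtain ⟨hr, hjr⟩ := List.mem_filter.1 hr
  have hjr := of_decide_eq_true hjr
  unfold Lff_N at hr
  obtain ⟨q, hq, hr⟩ := List.mem_flatMap.1 hr
  obtain ⟨r', hr', rfl⟩ := List.mem_map.1 hr
  obtain ⟨h1, h2, h3⟩ := Lmb_rs_mem _ _ _ _ _ r' hr'
  have hjr' : j ∈ r'.2 := hjr
  refine ⟨?_, fun i => ⟨fun hi => ?_, fun hi => ?_⟩⟩
  · have := List.length_pos_of_mem h1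
    show 1 ≤ q.2.1 + r'.1 + r'.2.length
    omega
  · rcases h2 i hi with h4 | h4
    · have := ((hL q hq).2 i).1 h4
      omega
    · omega
  · show i ∈ r'.2
    by_cases hib : i = b
    · rw [hib]; exact h1
    · by_cases hij : i = j
      · rw [hij]; exact hjr'
      · exact h3 i (((hL q hq).2 i).2 (by omega)) hij

theorem Lmb_S_val {e : R} (he : ∀ x, e * x = x ∧ x * e = x) {b j : ℕ} {L : List (ℤ × ℕ × List ℕ)}
    (hL : Lmb_I b L) (hj : j < b) (t : R) (ht : ∀ r, t * r = r * t) (y : ℕ → R) :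
    Lff_ev e (Lmb_S b j L) t y = Lff_ev e L t (Function.update y j (y j + y b)) - Lff_ev e L t y -
      Lff_ev e L t (Function.update y j (y b)) := by
  have hbj : b ≠ j := by omega
  have hA (y : ℕ → R) (k : ℕ) : y k * t = pw t ((fun _ => 0 : ℕ → ℕ) k) * y k := (ht (y k)).symm
  have h1 := Lff_N_val he t y (Function.update y j (y j + y b)) (fun _ => 0) (hA y) b j 0
    (by rw [Function.update_self, Lgf_tp_zero, (he _).1]) (fun k hk => Function.update_of_ne hk _ _) L
  have h2 := Lff_N_val he t (Function.update y j 0) (Function.update y j (y b)) (fun _ => 0)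
    (hA (Function.update y j 0)) b j 0
    (by rw [Function.update_self, Function.update_self, Lgf_tp_zero, (he _).1, zero_add,
          Function.update_of_ne hbj])
    (fun k hk => by rw [Function.update_of_ne hk, Function.update_of_ne hk]) L
  have h3 : Lff_ev e L t (Function.update y j 0) = 0 :=
    Lff_ev_zero e t _ L fun q hq => ⟨j, ((hL q hq).2 j).2 hj, Function.update_self _ _ _⟩
  rw [h3, sub_zero] at h2
  have h4 := Lff_ev_filter e t y (fun q => decide (j ∈ q.2.2)) (Lff_N (fun _ => 0) b j 0 L)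
  have h5 := Lff_ev_filter e t (Function.update y j 0) (fun q => decide (j ∈ q.2.2))
    (Lff_N (fun _ => 0) b j 0 L)
  have h6 : Lff_ev e ((Lff_N (fun _ => 0) b j 0 L).filter fun q => decide (j ∈ q.2.2)) t
      (Function.update y j 0) = 0 :=
    Lff_ev_zero e t _ _ fun q hq => ⟨j, of_decide_eq_true (List.mem_filter.1 hq).2,
      Function.update_self _ _ _⟩
  have h7 : Lff_ev e ((Lff_N (fun _ => 0) b j 0 L).filter fun q => !decide (j ∈ q.2.2)) t
      (Function.update y j 0) =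
      Lff_ev e ((Lff_N (fun _ => 0) b j 0 L).filter fun q => !decide (j ∈ q.2.2)) t y := by
    refine Lff_ev_congr e t _ _ _ fun q hq i hi => ?_
    rw [Function.update_of_ne]
    rintro rfl
    have h8 := (List.mem_filter.1 hq).2
    rw [decide_eq_true hi] at h8
    simp at h8
  rw [h2, h6, zero_add, h7] at h5
  rw [h1] at h4
  unfold Lmb_S
  rw [h5, h4]
  abel

/-- The items of the second function. -/
def Lmb_w (b j : ℕ) (w : List ℕ) : List ℕ := w.flatMap fun i => if i = j then [j, b] else [i]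

def Lmb_P (b j : ℕ) (L : List (ℤ × ℕ × List ℕ)) : List (ℤ × ℕ × List ℕ) :=
  L.map fun q => (q.1, q.2.1, Lmb_w b j q.2.2)

theorem Lmb_w_mem (b j : ℕ) (w : List ℕ) (hj : j ∈ w) (i : ℕ) : i ∈ Lmb_w b j w ↔ i ∈ w ∨ i = b := by
  unfold Lmb_w
  rw [List.mem_flatMap]
  constructor
  · rintro ⟨k, hk, hi⟩
    split at hi
    · rename_i h
      simp only [List.mem_cons, List.not_mem_nil, or_false] at hi
      rcases hi with hi | hi
      · left; rw [hi]; exact hj
      · exact Or.inr hi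
    · simp only [List.mem_cons, List.not_mem_nil, or_false] at hi
      left; rw [hi]; exact hk
  · rintro (hi | hi)
    · refine ⟨i, hi, ?_⟩
      split
      · rename_i h
        rw [h]; exact List.mem_cons_self
      · exact List.mem_cons_self
    · refine ⟨j, hj, ?_⟩
      rw [if_pos rfl, hi]
      exact List.mem_cons_of_mem _ List.mem_cons_self

theorem Lmb_P_I {b j : ℕ} {L : List (ℤ × ℕ × List ℕ)} (hL : Lmb_I b L) (hj : j < b) :
    Lmb_I (b + 1) (Lmb_P b j L) := by
  intro r hr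
  obtain ⟨q, hq, rfl⟩ := List.mem_map.1 hr
  have hjq := ((hL q hq).2 j).2 hj
  have h1 := Lmb_w_mem b j q.2.2 hjq
  refine ⟨?_, fun i => ?_⟩
  · have := List.length_pos_of_mem ((h1 b).2 (Or.inr rfl))
    show 1 ≤ q.2.1 + (Lmb_w b j q.2.2).length
    omega
  · show i ∈ Lmb_w b j q.2.2 ↔ _
    rw [h1 i, (hL q hq).2 i]
    omega

theorem Lmb_w_val {e : R} (b j : ℕ) (w : List ℕ) (y : ℕ → R) :
    Lgf_wpe e ((Lmb_w b j w).map y) = Lgf_wpe e (w.map (Function.update y j (y j * y b))) := by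
  induction w with
  | nil => rfl
  | cons k w ih =>
    have h1 : Lmb_w b j (k :: w) = (if k = j then [j, b] else [k]) ++ Lmb_w b j w := by
      unfold Lmb_w
      rw [List.flatMap_cons]
    rw [h1, List.map_append, List.map_cons, Lgf_wpe_cons, ← ih]
    split
    · rename_i h
      rw [h, Function.update_self]
      show y j * (y b * _) = _
      rw [mul_assoc]
      rfl
    · rename_i h
      rw [Function.update_of_ne h]
      rfl

theorem Lmb_P_val {e : R} (b j : ℕ) (L : List (ℤ × ℕ × List ℕ)) (t : R) (y : ℕ → R) :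
    Lff_ev e (Lmb_P b j L) t y = Lff_ev e L t (Function.update y j (y j * y b)) := by
  unfold Lff_ev Lmb_P
  rw [List.map_map]
  congr 1
  refine List.map_congr_left fun q _ => ?_
  show q.1 • (Lgf_tp e t q.2.1 * Lgf_wpe e ((Lmb_w b j q.2.2).map y)) = _
  rw [Lmb_w_val]

/-- The word has at least `b` letters. -/
theorem Lmb_len {b : ℕ} {w : List ℕ} (h : ∀ i, i ∈ w ↔ i < b) : b ≤ w.length := by
  have h1 : List.range b ⊆ w := fun i hi => (h i).2 (List.mem_range.1 hi)
  have h2 := (List.subperm_of_subset List.nodup_range h1).length_le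
  rwa [List.length_range] at h2

end words

section steps

variable {R : Type} [NonUnitalRing R] {n p N : ℕ} {e t₀ : R} {H : AddSubgroup R}

/-- The functions with `b` nil arguments. -/
def Lmb_Q (n : ℕ) (H : AddSubgroup R) (b : ℕ) : Prop :=
  ∃ L : List (ℤ × ℕ × List ℕ), Lmb_I b L ∧ Gl n H b (fun (t : R) (x : Fin b → R) => Vl L t x)

/-- The first `b` of `b + 1` arguments. -/
def Lmb_i {b : ℕ} (x : Fin (b + 1) → R) : Fin b → R := fun i => x i.castSucc

theorem Lmb_xs {b : ℕ} (x : Fin (b + 1) → R) (j : Fin b) (z : R) (i : ℕ) (hi : i < b) :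
    xs (Function.update (Lmb_i x) j z) i = Function.update (xs x) (j : ℕ) z i := by
  rw [Lff_xs_upd]
  by_cases h : i = j
  · rw [if_pos h, h, Function.update_self]
  · rw [if_neg h, Function.update_of_ne h]
    unfold xs Lmb_i
    rw [dif_pos hi, dif_pos (by omega : i < b + 1)]
    rfl

theorem Lmb_xs' {b : ℕ} (x : Fin (b + 1) → R) (i : ℕ) (hi : i < b) :
    xs (Lmb_i x) i = xs x i := by
  unfold xs Lmb_i
  rw [dif_pos hi, dif_pos (by omega : i < b + 1)]
  rfl

theorem Lmb_xb {b : ℕ} (x : Fin (b + 1) → R) : xs x b = x (Fin.last b) := by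
  unfold xs
  rw [dif_pos (Nat.lt_succ_self b)]
  rfl

theorem Lmb_xj {b : ℕ} (x : Fin (b + 1) → R) (j : Fin b) : xs x (j : ℕ) = Lmb_i x j := by
  unfold xs Lmb_i
  rw [dif_pos (by omega : (j : ℕ) < b + 1)]
  rfl

/-- The subring generated by `t` and new arguments. -/
theorem Lmb_clos {b : ℕ} {t : R} {x : Fin (b + 1) → R} {x' : Fin b → R}
    (h : NonUnitalSubring.closure ({t} ∪ Set.range x) ≠ ⊤)
    (hx' : ∀ i, x' i ∈ NonUnitalSubring.closure ({t} ∪ Set.range x)) :
    NonUnitalSubring.closure ({t} ∪ Set.range x') ≠ ⊤ := by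
  intro h1
  apply h
  rw [eq_top_iff, ← h1, NonUnitalSubring.closure_le]
  rintro y (hy | ⟨i, rfl⟩)
  · exact NonUnitalSubring.subset_closure (Or.inl hy)
  · exact hx' i

theorem Lmb_mem {b : ℕ} {t : R} {x : Fin (b + 1) → R} (j : Fin b) {z : R}
    (hz : z ∈ NonUnitalSubring.closure ({t} ∪ Set.range x)) (i : Fin b) :
    Function.update (Lmb_i x) j z i ∈ NonUnitalSubring.closure ({t} ∪ Set.range x) := by
  by_cases h : i = j
  · rw [h, Function.update_self]; exact hz
  · rw [Function.update_of_ne h]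
    exact NonUnitalSubring.subset_closure (Or.inr ⟨_, rfl⟩)

theorem Lmb_mem' {b : ℕ} {t : R} (x : Fin (b + 1) → R) (i : Fin (b + 1)) :
    x i ∈ NonUnitalSubring.closure ({t} ∪ Set.range x) :=
  NonUnitalSubring.subset_closure (Or.inr ⟨_, rfl⟩)

theorem Lmb_nl {b : ℕ} {x : Fin (b + 1) → R} (hx : ∀ i, Nl (x i)) (j : Fin b) {z : R} (hz : Nl z)
    (i : Fin b) : Nl (Function.update (Lmb_i x) j z i) := by
  by_cases h : i = j
  · rw [h, Function.update_self]; exact hz
  · rw [Function.update_of_ne h]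
    exact hx _

/-- If there is no function with `b + 1` arguments then `F` is additive and zero on products. -/
theorem Lmb_ga {J : AddSubgroup R} (hJ : Idl R J) (hJm : ∀ x, x ∈ J ↔ Nl x)
    (he : ∀ x : R, e * x = x ∧ x * e = x)
    (hc : ∀ t : R, Frame R n 1 (fun _ => t) → ∀ r, t * r = r * t) {b : ℕ}
    {L : List (ℤ × ℕ × List ℕ)} (hL : Lmb_I b L)
    (hG : Gl n H b (fun (t : R) (x : Fin b → R) => Vl L t x)) (hb : ¬ Lmb_Q (R := R) n H (b + 1)) :
    Ga n b (fun (t : R) (x : Fin b → R) => Vl L t x) := by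
  have hV (t : R) (x : Fin b → R) : Vl L t x = Lff_ev e L t (xs x) :=
    Lff_Vl he L t x fun q hq => (hL q hq).1
  have hval := hG.val
  have hvan := hG.van
  -- the first function
  have k1 (j : Fin b) (t : R) (x : Fin (b + 1) → R) (ht : Frame R n 1 (fun _ => t)) :
      Vl (Lmb_S b j L) t x = Vl L t (Function.update (Lmb_i x) j (Lmb_i x j + x (Fin.last b))) -
        Vl L t (Lmb_i x) - Vl L t (Function.update (Lmb_i x) j (x (Fin.last b))) := by
    rw [Lff_Vl he _ t x fun q hq => (Lmb_S_I hL j.2 q hq).1,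
      Lmb_S_val he hL j.2 t (hc t ht) (xs x), hV, hV, hV]
    congr 1
    · congr 1
      · refine Lff_ev_congr e t _ _ L fun q hq i hi => ?_
        rw [Lmb_xs _ _ _ _ (((hL q hq).2 i).1 hi), Lmb_xb, Lmb_xj]
      · refine Lff_ev_congr e t _ _ L fun q hq i hi => ?_
        rw [Lmb_xs' _ _ (((hL q hq).2 i).1 hi)]
    · refine Lff_ev_congr e t _ _ L fun q hq i hi => ?_
      rw [Lmb_xs _ _ _ _ (((hL q hq).2 i).1 hi), Lmb_xb]
  have k2 (j : Fin b) (t : R) (x : Fin (b + 1) → R) :
      Vl (Lmb_P b j L) t x = Vl L t (Function.update (Lmb_i x) j (Lmb_i x j * x (Fin.last b))) := by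
    rw [Lff_Vl he _ t x fun q hq => (Lmb_P_I hL j.2 q hq).1, Lmb_P_val, hV]
    refine Lff_ev_congr e t _ _ L fun q hq i hi => ?_
    rw [Lmb_xs _ _ _ _ (((hL q hq).2 i).1 hi), Lmb_xb, Lmb_xj]
  have hadd {u v : R} (hu : Nl u) (hv : Nl v) : Nl (u + v) :=
    (hJm _).1 (J.add_mem ((hJm _).2 hu) ((hJm _).2 hv))
  have hmul {u v : R} (hv : Nl v) : Nl (u * v) := (hJm _).1 (hJ u v ((hJm _).2 hv)).1
  have z1 (j : Fin b) (t : R) (x : Fin (b + 1) → R) (ht : Frame R n 1 (fun _ => t))
      (hx : ∀ i, Nl (x i)) : Vl (Lmb_S b j L) t x = 0 := by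
    by_contra hne
    apply hb
    refine ⟨Lmb_S b j L, Lmb_S_I hL j.2, ⟨fun t x ht hx => ?_, fun t x ht hx hS => ?_, t, x, ht, hx, hne⟩⟩
    · show Vl (Lmb_S b j L) t x ∈ H
      rw [k1 j t x ht]
      exact H.sub_mem (H.sub_mem (hval t _ ht (Lmb_nl hx j (hadd (hx _) (hx _))))
        (hval t _ ht fun i => hx _)) (hval t _ ht (Lmb_nl hx j (hx _)))
    · show Vl (Lmb_S b j L) t x = 0
      have h1 := hvan t _ ht (Lmb_nl hx j (hadd (hx j.castSucc) (hx (Fin.last b))))
        (Lmb_clos hS (Lmb_mem j (NonUnitalSubring.add_mem _ (Lmb_mem' x _) (Lmb_mem' x _))))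
      have h2 := hvan t (Lmb_i x) ht (fun i => hx _) (Lmb_clos hS fun i => Lmb_mem' x _)
      have h3 := hvan t _ ht (Lmb_nl hx j (hx (Fin.last b))) (Lmb_clos hS (Lmb_mem j (Lmb_mem' x _)))
      have h1' : Vl L t (Function.update (Lmb_i x) j (Lmb_i x j + x (Fin.last b))) = 0 := h1
      have h2' : Vl L t (Lmb_i x) = 0 := h2
      have h3' : Vl L t (Function.update (Lmb_i x) j (x (Fin.last b))) = 0 := h3
      rw [k1 j t x ht, h1', h2', h3', sub_zero, sub_zero]
  have z2 (j : Fin b) (t : R) (x : Fin (b + 1) → R) (ht : Frame R n 1 (fun _ => t))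
      (hx : ∀ i, Nl (x i)) : Vl (Lmb_P b j L) t x = 0 := by
    by_contra hne
    apply hb
    refine ⟨Lmb_P b j L, Lmb_P_I hL j.2, ⟨fun t x ht hx => ?_, fun t x ht hx hS => ?_, t, x, ht, hx, hne⟩⟩
    · show Vl (Lmb_P b j L) t x ∈ H
      rw [k2 j t x]
      exact hval t _ ht (Lmb_nl hx j (hmul (hx _)))
    · show Vl (Lmb_P b j L) t x = 0
      rw [k2 j t x]
      exact hvan t _ ht (Lmb_nl hx j (hmul (hx (Fin.last b))))
        (Lmb_clos hS (Lmb_mem j (NonUnitalSubring.mul_mem _ (Lmb_mem' x _) (Lmb_mem' x _))))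
  have hsn (x : Fin b → R) (hx : ∀ i, Nl (x i)) (j : Fin b) (u v : R) (hu : Nl u) (hv : Nl v)
      (i : Fin (b + 1)) : Nl ((Fin.snoc (Function.update x j u) v : Fin (b + 1) → R) i) := by
    refine Fin.lastCases ?_ (fun i => ?_) i
    · rw [Fin.snoc_last]; exact hv
    · rw [Fin.snoc_castSucc]
      by_cases h : i = j
      · rw [h, Function.update_self]; exact hu
      · rw [Function.update_of_ne h]; exact hx i
  have hi (x : Fin b → R) (j : Fin b) (u v : R) :
      Lmb_i (Fin.snoc (Function.update x j u) v : Fin (b + 1) → R) = Function.update x j u := by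
    funext i
    unfold Lmb_i
    rw [Fin.snoc_castSucc]
  refine ⟨fun t x ht hx j u v hu hv => ?_, fun t x ht hx j u v hu hv => ?_⟩
  · have h := z1 j t _ ht (hsn x hx j u v hu hv)
    rw [k1 j t _ ht, hi, Fin.snoc_last, Function.update_self, Function.update_idem,
      Function.update_idem] at h
    show Vl L t _ = Vl L t _ + Vl L t _
    rw [sub_sub, sub_eq_zero] at h
    exact h
  · have h := z2 j t _ ht (hsn x hx j u v hu hv)
    rw [k2 j t _, hi, Fin.snoc_last, Function.update_self, Function.update_idem] at h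
    exact h

end steps

theorem thm_Lmb (hCfr : St_Cfr) : St_Lmb := by
  intro n p N R _ _ e t₀ hC hcr H hH
  obtain ⟨J, hJ, hJm⟩ := CRL.jil n hC.fr.cy.n4 R hC.fr.cy.inM hC.fr.cy.nt
  have he := hC.fr.one
  have hc : ∀ t : R, Frame R n 1 (fun _ => t) → ∀ r, t * r = r * t := fun t ht =>
    (hCfr n p N R e t₀ hC t ht).2.1
  obtain ⟨-, p', H', hp', hpr', hH', g, a, L, -, ⟨t1, x1, ht1, hgen⟩, hL, hF, t2, x2, ht2, hne⟩ :=
    CRM.lff n p R hC.fr.cy e hC.fr.prm he hcr
  have hHH : H' = H := le_antisymm (hH'.2.2 H hH.1 hH.2.1) (hH.2.2 H' hH'.1 hH'.2.1)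
  subst hHH
  have hI : Lmb_I g L := fun q hq => ⟨(hL q hq).2.1, (hL q hq).2.2.1⟩
  have hV (t : R) (x : Fin g → R) : Vl L t x = Lff_ev e L t (xs x) :=
    Lff_Vl he L t x fun q hq => (hI q hq).1
  have hz (t : R) (x : Fin g → R) (j : Fin g) (hj : x j = 0) : Vl L t x = 0 := by
    rw [hV]
    exact Lff_ev_zero e t _ L fun q hq => ⟨j, ((hI q hq).2 j).2 j.2, by rw [Lff_xs_self, hj]⟩
  have ha (i : Fin g) : a i % N = 0 := by
    have hx : x2 i ≠ 0 := fun h => hne (hz t2 x2 i h)
    have hfr := (hCfr n p N R e t₀ hC t2 ht2.1).1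
    have h6 := (thm_Typ n p N R e t2 hfr).2.2.2.2.2.1 (x2 i) (a i) (ht2.2 i).2 hx
    exact h6.1 (hc t2 ht2.1 (x2 i)).symm
  have hTy (t : R) (x : Fin g → R) (ht : Frame R n 1 (fun _ => t)) (hx : ∀ i, Nl (x i)) :
      Ty n a t x := by
    refine ⟨ht, fun i => ⟨hx i, ?_⟩⟩
    have hfr := (hCfr n p N R e t₀ hC t ht).1
    rw [(thm_Typ n p N R e t hfr).2.2.1 (a i) 0 (by rw [ha i, Nat.zero_mod])]
    exact (hc t ht (x i)).symm
  have hQg : Lmb_Q (R := R) n H' g := by
    refine ⟨L, hI, ⟨fun t x ht hx => (hF t x (hTy t x ht hx)).1, fun t x ht hx hS => ?_,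
      t2, x2, ht2.1, fun i => (ht2.2 i).1, hne⟩⟩
    have hcy : Cy R n p' := ⟨hC.fr.cy.n4, hC.fr.cy.inM, hC.fr.cy.nt, hp', hpr'⟩
    obtain ⟨q, -, hd, -⟩ := CRM.dmk n p' R hcy e hC.fr.prm he
    have h1 := (hd g a t1 x1 ht1).1 hgen
    have h2 : ¬ ∀ j, x j ∉ Mj p' t x j := fun h =>
      hS (((hd g a t x (hTy t x ht hx)).2 h).2 h1)
    push Not at h2
    obtain ⟨j, hj⟩ := h2
    have hnl : Nl (-x j) := (hJm _).1 (J.neg_mem ((hJm _).2 (hx j)))
    have h3 := (hF t x (hTy t x ht hx)).2 j (-x j) hnl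
      (by rw [neg_mul, ((hTy t x ht hx).2 j).2, mul_neg]) ((Mj p' t x j).neg_mem hj)
    rw [add_neg_cancel] at h3
    show Vl L t x = 0
    rw [← h3]
    exact hz t _ j (Function.update_self _ _ _)
  obtain ⟨M, hM5, hM⟩ := CRL.bnd n p R hC.fr.cy
  have hM5 := hM5 hC.six
  have hle (b : ℕ) (hb : Lmb_Q (R := R) n H' b) : b ≤ 5 := by
    by_contra hb5
    obtain ⟨L, hI, hG⟩ := hb
    obtain ⟨t, x, ht, hx, hne⟩ := hG.ne
    apply hne
    show Vl L t x = 0
    unfold Vl
    refine List.sum_eq_zero fun y hy => ?_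
    obtain ⟨q, hq, rfl⟩ := List.mem_map.1 hy
    have h1 : wp (List.replicate q.2.1 t ++ q.2.2.map (xs x)) = 0 := by
      refine hM (q.2.2.map (xs x)) _ (List.sublist_append_right _ _) ?_ ?_
      · intro y hy
        obtain ⟨i, -, rfl⟩ := List.mem_map.1 hy
        unfold xs
        split
        · exact hx _
        · simp [Nl]
      · rw [hM5, List.length_map]
        have := Lmb_len (hI q hq).2
        omega
    rw [h1, smul_zero]
  have hex : ∃ b, Lmb_Q (R := R) n H' b ∧ ¬ Lmb_Q (R := R) n H' (b + 1) := by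
    by_contra hno
    push Not at hno
    have h1 : ∀ k, Lmb_Q (R := R) n H' (g + k) := by
      intro k
      induction k with
      | zero => exact hQg
      | succ k ih => exact hno _ ih
    have := hle _ (h1 6)
    omega
  obtain ⟨b, hb, hb1⟩ := hex
  obtain ⟨L', hI', hG'⟩ := hb
  exact ⟨b, L', hle b ⟨L', hI', hG'⟩, hI', hG', Lmb_ga hJ hJm he hc hI' hG' hb1⟩

end Pool.Agent.CRQ
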