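import Pool.Agent.CRQ.St
import Pool.Agent.CRM.All
import Pool.Agent.CRK.Gdc

/-!
Campaign CRQ, module Lmc: from the functions of `St_Lmb` to multilinear functions.
-/

set_option autoImplicit false

namespace Pool.Agent.CRQ

open Pool.Agent.CRR Pool.Agent.CRN Pool.Agent.CRK Pool.Agent.CRL Pool.Agent.CRM Pool.Agent.CRP

section

variable {R : Type} [NonUnitalRing R]

/-- the value of a combination of items `t^d w`, `w` not empty -/
def Lmc_ev (e : R) (L : List (ℤ × ℕ × List ℕ)) (t : R) (v : ℕ → R) : R :=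
  (L.map fun q => q.1 • (te e t q.2.1 * wp (q.2.2.map v))).sum

theorem Lmc_wp {e : R} (he : ∀ x : R, e * x = x) (t : R) (d : ℕ) {w : List R} (hw : w ≠ []) :
    wp (List.replicate d t ++ w) = te e t d * wp w := by
  induction d with
  | zero =>
    show wp w = e * wp w
    rw [he]
  | succ d ih =>
    have h1 : List.replicate d t ++ w ≠ [] := by simp [hw]
    show wp (t :: (List.replicate d t ++ w)) = t * te e t d * wp w
    rw [Gdc_wp_cons _ h1, ih, mul_assoc]

theorem Lmc_Vl {e : R} (he : ∀ x : R, e * x = x) (L : List (ℤ × ℕ × List ℕ)) {g : ℕ} (t : R)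
    (x : Fin g → R) (h : ∀ q ∈ L, q.2.2 ≠ []) : Vl L t x = Lmc_ev e L t (xs x) := by
  unfold Vl Lmc_ev
  congr 1
  refine List.map_congr_left fun q hq => ?_
  rw [Lmc_wp he]
  simpa using h q hq

/-- the part of degree `d` in the letter `j` -/
def Lmc_A (e : R) (j d : ℕ) (L : List (ℤ × ℕ × List ℕ)) (t : R) (v : ℕ → R) : R :=
  (L.map fun q => if q.2.2.count j = d then q.1 • (te e t q.2.1 * wp (q.2.2.map v)) else 0).sum

theorem Lmc_A_filter (e : R) (j : ℕ) (L : List (ℤ × ℕ × List ℕ)) (t : R) (v : ℕ → R) :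
    Lmc_ev e (L.filter fun q => decide (q.2.2.count j = 1)) t v = Lmc_A e j 1 L t v := by
  unfold Lmc_ev Lmc_A
  induction L with
  | nil => rfl
  | cons p L ih =>
    rw [List.filter_cons, List.map_cons, List.sum_cons, ← ih]
    by_cases h : p.2.2.count j = 1
    · simp [h]
    · simp [h]

/-- homogeneity -/
theorem Lmc_hom (e t : R) (v : ℕ → R) (j : ℕ) (k : ℤ) (L : List (ℤ × ℕ × List ℕ))
    (hL : ∀ q ∈ L, j ∈ q.2.2) (h4 : ∀ q ∈ L, 4 ≤ q.2.2.count j → wp (q.2.2.map v) = 0) :
    Lmc_ev e L t (Function.update v j (k • v j)) =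
      k • Lmc_A e j 1 L t v + k ^ 2 • Lmc_A e j 2 L t v + k ^ 3 • Lmc_A e j 3 L t v := by
  induction L with
  | nil => simp [Lmc_ev, Lmc_A]
  | cons p L ih =>
    have ih' := ih (fun q hq => hL q (List.mem_cons_of_mem _ hq))
      (fun q hq => h4 q (List.mem_cons_of_mem _ hq))
    unfold Lmc_ev at ih'
    unfold Lmc_ev
    rw [List.map_cons, List.sum_cons, ih', Gdc_hom]
    unfold Lmc_A
    simp only [List.map_cons, List.sum_cons]
    have hp : 1 ≤ p.2.2.count j := List.one_le_count_iff.2 (hL p List.mem_cons_self)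
    by_cases h5 : 4 ≤ p.2.2.count j
    · rw [h4 p List.mem_cons_self h5]
      simp
    · obtain h1 | h1 | h1 : p.2.2.count j = 1 ∨ p.2.2.count j = 2 ∨ p.2.2.count j = 3 := by omega
      · rw [h1]
        simp only [if_true, OfNat.one_ne_ofNat, if_false, zero_add, pow_one, smul_add]
        rw [mul_smul_comm, smul_comm]
        abel
      · rw [h1]
        simp only [if_true, OfNat.ofNat_ne_one, Nat.reduceEqDiff, if_false, zero_add, smul_add]
        rw [mul_smul_comm, smul_comm]
        abel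
      · rw [h1]
        simp only [if_true, OfNat.ofNat_ne_one, Nat.reduceEqDiff, if_false, zero_add, smul_add]
        rw [mul_smul_comm, smul_comm]
        abel

/-- combinations of words in which every letter occurs once -/
theorem Lmc_fin (e : R) (m : ℕ) (L : List (ℤ × ℕ × List ℕ)) :
    (∀ q ∈ L, (∀ i, i ∈ q.2.2 ↔ i < m) ∧ ∀ i, i < m → q.2.2.count i = 1) →
      ∃ c : Equiv.Perm (Fin m) → List (ℤ × ℕ), ∀ (t : R) (v : ℕ → R),
        Lmc_ev e L t v =
          ∑ σ, Cv (c σ) e t * wp (List.ofFn fun i => v ((σ i : Fin m) : ℕ)) := by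
  induction L with
  | nil =>
    intro _
    refine ⟨fun _ => [], fun t v => ?_⟩
    simp [Lmc_ev, Cv]
  | cons p L ih =>
    intro h
    obtain ⟨c, hc⟩ := ih fun q hq => h q (List.mem_cons_of_mem _ hq)
    obtain ⟨h4, h5⟩ := h p List.mem_cons_self
    have hnd : p.2.2.Nodup := by
      rw [List.nodup_iff_count_le_one]
      intro a
      by_cases ha : a < m
      · exact (h5 a ha).le
      · rw [List.count_eq_zero_of_not_mem (fun h6 => ha ((h4 a).1 h6))]
        exact Nat.zero_le _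
    obtain ⟨τ, hτ⟩ := Gdc_word m p.2.2 hnd h4
    refine ⟨fun σ => if σ = τ then (p.1, p.2.1) :: c σ else c σ, fun t v => ?_⟩
    have h6 : Lmc_ev e (p :: L) t v = p.1 • (te e t p.2.1 * wp (p.2.2.map v)) +
        Lmc_ev e L t v := by
      unfold Lmc_ev
      rw [List.map_cons, List.sum_cons]
    have h7 : ∀ σ : Equiv.Perm (Fin m),
        Cv (if σ = τ then (p.1, p.2.1) :: c σ else c σ) e t *
          wp (List.ofFn fun i => v ((σ i : Fin m) : ℕ)) =
        (if σ = τ then p.1 • (te e t p.2.1 * wp (List.ofFn fun i => v ((τ i : Fin m) : ℕ)))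
          else 0) + Cv (c σ) e t * wp (List.ofFn fun i => v ((σ i : Fin m) : ℕ)) := by
      intro σ
      by_cases hσ : σ = τ
      · rw [if_pos hσ, if_pos hσ, hσ]
        unfold Cv
        rw [List.map_cons, List.sum_cons, add_mul, smul_mul_assoc]
      · rw [if_neg hσ, if_neg hσ, zero_add]
    rw [h6, hc t v, Finset.sum_congr rfl fun σ _ => h7 σ, Finset.sum_add_distrib,
      Finset.sum_ite_eq' Finset.univ τ, if_pos (Finset.mem_univ τ)]
    congr 3
    rw [hτ, List.map_ofFn]
    rfl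

/-- an equality of functions at frames and nil elements -/
theorem Lmc_gl {n : ℕ} {H : AddSubgroup R} {b : ℕ} {F F' : R → (Fin b → R) → R}
    (h : ∀ (t : R) (x : Fin b → R), Frame R n 1 (fun _ => t) → (∀ i, Nl (x i)) → F t x = F' t x)
    (hG : Gl n H b F) : Gl n H b F' := by
  refine ⟨fun t x ht hx => ?_, fun t x ht hx hc => ?_, ?_⟩
  · rw [← h t x ht hx]
    exact hG.val t x ht hx
  · rw [← h t x ht hx]
    exact hG.van t x ht hx hc
  · obtain ⟨t, x, ht, hx, hne⟩ := hG.ne
    refine ⟨t, x, ht, hx, ?_⟩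
    rw [← h t x ht hx]
    exact hne

theorem Lmc_upd {b : ℕ} {x : Fin b → R} (hx : ∀ i, Nl (x i)) (j : Fin b) {u : R} (hu : Nl u) :
    ∀ i, Nl (Function.update x j u i) := by
  intro i
  by_cases hi : i = j
  · rw [hi, Function.update_self]
    exact hu
  · rw [Function.update_of_ne hi]
    exact hx i

theorem Lmc_ga {n b : ℕ} {F F' : R → (Fin b → R) → R}
    (hadd : ∀ x y : R, Nl x → Nl y → Nl (x + y)) (hmul : ∀ x y : R, Nl x → Nl (x * y))
    (h : ∀ (t : R) (x : Fin b → R), Frame R n 1 (fun _ => t) → (∀ i, Nl (x i)) → F t x = F' t x)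
    (hG : Ga n b F) : Ga n b F' := by
  refine ⟨fun t x ht hx j u v hu hv => ?_, fun t x ht hx j u v hu hv => ?_⟩
  · rw [← h t _ ht (Lmc_upd hx j (hadd u v hu hv)), ← h t _ ht (Lmc_upd hx j hu),
      ← h t _ ht (Lmc_upd hx j hv)]
    exact hG.add t x ht hx j u v hu hv
  · rw [← h t _ ht (Lmc_upd hx j (hmul u v hu))]
    exact hG.prd t x ht hx j u v hu hv

theorem Lmc_tf [Finite R] (h6 : (Nat.card R).Coprime 6) (x : R) (hx : (6 : ℤ) • x = 0) :
    x = 0 := by
  have h1 : addOrderOf x ∣ Nat.card R := addOrderOf_dvd_natCard x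
  have h2 : addOrderOf x ∣ 6 := by
    refine addOrderOf_dvd_of_nsmul_eq_zero ?_
    have h3 : (6 : ℕ) • x = (6 : ℤ) • x := by
      rw [← natCast_zsmul]
      rfl
    rw [h3]
    exact hx
  have h3 : addOrderOf x ∣ 1 := by
    have := Nat.dvd_gcd h1 h2
    rwa [h6] at this
  exact AddMonoid.addOrderOf_eq_one_iff.1 (Nat.dvd_one.1 h3)

end

theorem thm_Lmc (hCfr : St_Cfr) (hLmb : St_Lmb) : St_Lmc := by
  intro n p N R _ _ e t₀ hC hR H hH
  obtain ⟨b, L, hb5, hL, hGl, hGa⟩ := hLmb n p N R e t₀ hC hR H hH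
  obtain ⟨J, hJ, hJm⟩ := CRL.jil n hC.fr.cy.n4 R hC.fr.cy.inM hC.fr.cy.nt
  have hadd : ∀ x y : R, Nl x → Nl y → Nl (x + y) := fun x y hx hy =>
    (hJm _).1 (J.add_mem ((hJm _).2 hx) ((hJm _).2 hy))
  have hmul : ∀ r x : R, Nl x → Nl (r * x) ∧ Nl (x * r) := fun r x hx =>
    ⟨(hJm _).1 (hJ r x ((hJm _).2 hx)).1, (hJm _).1 (hJ r x ((hJm _).2 hx)).2⟩
  have h0 : Nl (0 : R) := (hJm _).1 J.zero_mem
  have hneg : ∀ x : R, Nl x → Nl (-x) := fun x hx => (hJm _).1 (J.neg_mem ((hJm _).2 hx))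
  have he : ∀ x : R, e * x = x := fun x => (hC.fr.one x).1
  rcases Nat.eq_zero_or_pos b with hb | hb
  · left
    subst hb
    obtain ⟨t, x, ht, hx, hne⟩ := hGl.ne
    have h1 : NonUnitalSubring.closure ({t} ∪ Set.range x) = ⊤ := by
      by_contra h2
      exact hne (hGl.van t x ht hx h2)
    have h2 := (hCfr n p N R e t₀ hC t ht).2.2.2.2 ∅
    rw [Set.range_eq_empty] at h1
    rw [h1] at h2
    rw [Set.union_empty] at h2
    exact h2.symm
  right
  have htf := Lmc_tf hC.six
  have hclaim : ∀ j, j ≤ b → ∃ L' : List (ℤ × ℕ × List ℕ),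
      (∀ q ∈ L', (∀ i, i ∈ q.2.2 ↔ i < b) ∧ ∀ i, i < j → q.2.2.count i = 1) ∧
      ∀ (t : R) (x : Fin b → R), Frame R n 1 (fun _ => t) → (∀ i, Nl (x i)) →
        Vl L t x = Lmc_ev e L' t (xs x) := by
    intro j
    induction j with
    | zero =>
      intro _
      refine ⟨L, fun q hq => ⟨(hL q hq).2, fun i hi => absurd hi (Nat.not_lt_zero i)⟩,
        fun t x _ _ => ?_⟩
      refine Lmc_Vl he L t x fun q hq hq0 => ?_
      have h1 := ((hL q hq).2 0).2 hb
      rw [hq0] at h1
      simp at h1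
    | succ j ih =>
      intro hj
      obtain ⟨L', h1, h2⟩ := ih (by omega)
      have hjb : j < b := by omega
      refine ⟨L'.filter fun q => decide (q.2.2.count j = 1), ?_, ?_⟩
      · intro q hq
        rw [List.mem_filter] at hq
        refine ⟨(h1 q hq.1).1, fun i hi => ?_⟩
        rcases Nat.lt_succ_iff_lt_or_eq.1 hi with h | h
        · exact (h1 q hq.1).2 i h
        · rw [h]
          exact of_decide_eq_true hq.2
      · intro t x ht hx
        rw [Lmc_A_filter]
        have hxs : ∀ i, Nl (xs x i) := by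
          intro i
          unfold xs
          split_ifs
          · exact hx _
          · exact h0
        have key : ∀ k : ℤ, Nl (k • x ⟨j, hjb⟩) →
            Vl L t (Function.update x ⟨j, hjb⟩ (k • x ⟨j, hjb⟩)) =
            k • Lmc_A e j 1 L' t (xs x) + k ^ 2 • Lmc_A e j 2 L' t (xs x) +
              k ^ 3 • Lmc_A e j 3 L' t (xs x) := by
          intro k hk
          rw [h2 t _ ht (Lmc_upd hx _ hk), ← Lmc_hom e t (xs x) j k L'
            (fun q hq => ((h1 q hq).1 j).2 hjb)
            (fun q _ h4 => CRM.fle.2 R hadd hmul (xs x) q.2.2 j (fun i _ => hxs i) h4)]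
          congr 1
          funext i
          rw [Lff_xs_upd]
          have h3 : xs x j = x ⟨j, hjb⟩ := Lff_xs_self x ⟨j, hjb⟩
          by_cases hi : i = j
          · rw [if_pos hi, hi, Function.update_self, h3]
          · rw [if_neg hi, Function.update_of_ne hi]
        have e1 := key 1 (by rw [one_smul]; exact hx _)
        have e2 := key (-1) (by rw [neg_smul, one_smul]; exact hneg _ (hx _))
        have e3 := key 2 (by rw [two_smul]; exact hadd _ _ (hx _) (hx _))
        rw [one_smul, Function.update_eq_self] at e1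
        obtain ⟨φ, hφ⟩ : ∃ φ : R, φ = Vl L t x := ⟨_, rfl⟩
        rw [← hφ] at e1 ⊢
        have z0 : Vl L t (Function.update x ⟨j, hjb⟩ (0 : R)) = 0 := by
          have h3 := hGa.add t x ht hx ⟨j, hjb⟩ 0 0 h0 h0
          rw [add_zero] at h3
          exact left_eq_add.1 h3
        have a2 : Vl L t (Function.update x ⟨j, hjb⟩ ((-1 : ℤ) • x ⟨j, hjb⟩)) = -φ := by
          have h3 := hGa.add t x ht hx ⟨j, hjb⟩ (x ⟨j, hjb⟩) (-x ⟨j, hjb⟩) (hx _)
            (hneg _ (hx _))
          rw [Function.update_eq_self, add_neg_cancel, z0, ← hφ] at h3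
          rw [neg_smul, one_smul]
          exact (neg_eq_of_add_eq_zero_right h3.symm).symm
        have a3 : Vl L t (Function.update x ⟨j, hjb⟩ ((2 : ℤ) • x ⟨j, hjb⟩)) = φ + φ := by
          have h3 := hGa.add t x ht hx ⟨j, hjb⟩ (x ⟨j, hjb⟩) (x ⟨j, hjb⟩) (hx _) (hx _)
          rw [Function.update_eq_self, ← hφ] at h3
          rw [two_smul]
          exact h3
        rw [a2] at e2
        rw [a3] at e3
        obtain ⟨A, hA⟩ : ∃ A, A = Lmc_A e j 1 L' t (xs x) := ⟨_, rfl⟩
        obtain ⟨B, hB⟩ : ∃ B, B = Lmc_A e j 2 L' t (xs x) := ⟨_, rfl⟩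
        obtain ⟨C, hC'⟩ : ∃ C, C = Lmc_A e j 3 L' t (xs x) := ⟨_, rfl⟩
        rw [← hA, ← hB, ← hC'] at e1 e2 e3
        rw [← hA]
        have b1 : B = 0 := by
          refine htf B ?_
          have h4 : (6 : ℤ) • B = (3 : ℤ) • (φ + -φ) := by
            nth_rewrite 1 [e1]
            rw [e2]
            module
          rw [h4, add_neg_cancel, smul_zero]
        have c1 : C = 0 := by
          refine htf C ?_
          have h4 : (6 : ℤ) • C = (φ + φ) - (φ + φ) := by
            nth_rewrite 1 [e3]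
            nth_rewrite 1 [e1]
            nth_rewrite 1 [e1]
            rw [b1]
            module
          rw [h4, sub_self]
        rw [e1, b1, c1]
        simp
  obtain ⟨L', h1, h2⟩ := hclaim b le_rfl
  obtain ⟨c, hc⟩ := Lmc_fin e b L' h1
  have h3 : ∀ (t : R) (x : Fin b → R), Frame R n 1 (fun _ => t) → (∀ i, Nl (x i)) →
      Vl L t x = FF e c t x := by
    intro t x ht hx
    rw [h2 t x ht hx, hc]
    unfold FF
    refine Finset.sum_congr rfl fun σ _ => ?_
    congr 3
    funext i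
    exact Lff_xs_self x (σ i)
  exact ⟨b, c, hb, hb5, Lmc_gl h3 hGl, Lmc_ga hadd (fun x y hx => (hmul y x hx).2) h3 hGa⟩

end Pool.Agent.CRQ
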