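import Pool.Agent.CRQ.St
import Pool.Agent.CRM.Lgf
import Pool.Agent.CRP.Kdc

/-!
Campaign CRQ, module Lmu: central local rings, the function is zero on `J^2 + p R`.
-/

set_option autoImplicit false

namespace Pool.Agent.CRQ

open Pool.Agent.CRR Pool.Agent.CRN Pool.Agent.CRK Pool.Agent.CRL Pool.Agent.CRM Pool.Agent.CRP

section

variable {R : Type} [NonUnitalRing R] {e : R}

theorem Lmu_word : ∀ (m : ℕ) (f : Fin (m + 1) → R) (k : Fin (m + 1)),
    (∀ r, f k * r = r * f k) →
    Lgf_wpe e (List.ofFn f) = f k * Lgf_wpe e (List.ofFn fun j => f (k.succAbove j)) := by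
  intro m
  induction m with
  | zero =>
    intro f k _
    have h0 : k = 0 := Fin.ext (by omega)
    subst h0
    rw [List.ofFn_succ, Lgf_wpe_cons, List.ofFn_zero, List.ofFn_zero]
  | succ m ih =>
    intro f k hk
    rw [List.ofFn_succ, Lgf_wpe_cons]
    cases k using Fin.cases with
    | zero => simp only [Fin.succAbove_zero]
    | succ k =>
      rw [ih (fun i => f i.succ) k hk]
      conv_rhs => rw [List.ofFn_succ, Lgf_wpe_cons, Fin.succ_succAbove_zero]
      simp only [Fin.succ_succAbove_succ]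
      rw [← mul_assoc, ← mul_assoc, hk]

theorem Lmu_wp (he : ∀ x : R, e * x = x ∧ x * e = x) {m : ℕ} (f : Fin (m + 1) → R)
    (k : Fin (m + 1)) (hk : ∀ r, f k * r = r * f k) :
    wp (List.ofFn f) = f k * Lgf_wpe e (List.ofFn fun j => f (k.succAbove j)) := by
  rw [Lgf_wp (fun x => (he x).2) _ (by simp), Lmu_word m f k hk]

theorem Lmu_FF (he : ∀ x : R, e * x = x ∧ x * e = x) {b : ℕ} (hb : 1 ≤ b)
    (c : Equiv.Perm (Fin b) → List (ℤ × ℕ)) (t : R) (x : Fin b → R) (i : Fin b) :
    ∃ V : R, ∀ z, (∀ r, z * r = r * z) → FF e c t (Function.update x i z) = z * V := by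
  obtain ⟨m, rfl⟩ : ∃ m, b = m + 1 := ⟨b - 1, by omega⟩
  refine ⟨∑ σ : Equiv.Perm (Fin (m + 1)), Cv (c σ) e t *
    Lgf_wpe e (List.ofFn fun j => x (σ ((σ.symm i).succAbove j))), fun z hz => ?_⟩
  unfold FF
  rw [Finset.mul_sum]
  refine Finset.sum_congr rfl fun σ _ => ?_
  have h1 : Function.update x i z (σ (σ.symm i)) = z := by
    rw [Equiv.apply_symm_apply, Function.update_self]
  rw [Lmu_wp he (fun j => Function.update x i z (σ j)) (σ.symm i) (by rw [h1]; exact hz), h1]
  have h2 : (fun j => Function.update x i z (σ ((σ.symm i).succAbove j))) =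
      fun j => x (σ ((σ.symm i).succAbove j)) := by
    funext j
    refine Function.update_of_ne (fun h => ?_) _ _
    have h3 := congrArg σ.symm h
    rw [Equiv.symm_apply_apply] at h3
    exact Fin.succAbove_ne (σ.symm i) j h3
  rw [h2, ← mul_assoc, ← hz (Cv (c σ) e t), mul_assoc]

theorem Lmu_Cv {ι : Type} (t : R) (l : List ι) (F : ι → List (ℤ × ℕ)) :
    Cv (l.flatMap F) e t = (l.map fun σ => Cv (F σ) e t).sum := by
  induction l with
  | nil => rfl
  | cons a l ih =>
    rw [List.flatMap_cons, List.map_cons, List.sum_cons, ← ih]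
    unfold Cv
    rw [List.map_append, List.sum_append]

theorem Lmu_Cvp (t : R) (p : ℕ) (C : List (ℤ × ℕ)) :
    Cv (C.map fun q => ((p : ℤ) * q.1, q.2)) e t = p • Cv C e t := by
  unfold Cv
  induction C with
  | nil => simp
  | cons q C ih =>
    rw [List.map_cons, List.map_cons, List.sum_cons, List.map_cons, List.sum_cons, smul_add, ← ih]
    congr 1
    rw [mul_smul, natCast_zsmul]

theorem Lmu_red (he : ∀ x : R, e * x = x ∧ x * e = x) (p : ℕ) {m : ℕ} (hm : 1 ≤ m)
    (c : Equiv.Perm (Fin (m + 1)) → List (ℤ × ℕ)) (i : Fin (m + 1)) :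
    ∃ c' : Equiv.Perm (Fin m) → List (ℤ × ℕ), ∀ (t : R) (x : Fin m → R),
      FF e c t (Fin.insertNth i (p • e) x : Fin (m + 1) → R) = FF e c' t x := by
  classical
  have h1 : ∀ σ : Equiv.Perm (Fin (m + 1)), ∃ τ : Equiv.Perm (Fin m),
      ∀ j, σ ((σ.symm i).succAbove j) = i.succAbove (τ j) := by
    intro σ
    have h2 : ∀ j, ∃ k, i.succAbove k = σ ((σ.symm i).succAbove j) := fun j =>
      Fin.exists_succAbove_eq fun h => by
        have h3 := congrArg σ.symm h
        rw [Equiv.symm_apply_apply] at h3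
        exact Fin.succAbove_ne (σ.symm i) j h3
    choose f hf using h2
    have hinj : Function.Injective f := by
      intro j j' h
      have h3 : σ ((σ.symm i).succAbove j) = σ ((σ.symm i).succAbove j') := by
        rw [← hf, ← hf, h]
      exact Fin.succAbove_right_injective (σ.injective h3)
    exact ⟨Equiv.ofBijective f (Finite.injective_iff_bijective.1 hinj), fun j => (hf j).symm⟩
  choose τ hτ using h1
  refine ⟨fun ρ => (Finset.univ.filter fun σ => τ σ = ρ).toList.flatMap fun σ =>
    (c σ).map fun q => ((p : ℤ) * q.1, q.2), fun t x => ?_⟩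
  have h3 : ∀ σ : Equiv.Perm (Fin (m + 1)),
      wp (List.ofFn fun j => (Fin.insertNth i (p • e) x : Fin (m + 1) → R) (σ j)) =
        (p • e) * wp (List.ofFn fun j => x (τ σ j)) := by
    intro σ
    have h4 : (Fin.insertNth i (p • e) x : Fin (m + 1) → R) (σ (σ.symm i)) = p • e := by
      rw [Equiv.apply_symm_apply, Fin.insertNth_apply_same]
    rw [Lmu_wp he _ (σ.symm i) (fun r => by
      rw [h4, smul_mul_assoc, mul_smul_comm, (he r).1, (he r).2]), h4]
    have h5 : (fun j => (Fin.insertNth i (p • e) x : Fin (m + 1) → R)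
        (σ ((σ.symm i).succAbove j))) = fun j => x (τ σ j) := by
      funext j
      rw [hτ, Fin.insertNth_apply_succAbove]
    rw [h5, Lgf_wp (fun x => (he x).2) (List.ofFn fun j => x (τ σ j))]
    intro h6
    have h7 := congrArg List.length h6
    rw [List.length_ofFn, List.length_nil] at h7
    omega
  have h4 : FF e c t (Fin.insertNth i (p • e) x : Fin (m + 1) → R) =
      ∑ σ, (p • Cv (c σ) e t) * wp (List.ofFn fun j => x (τ σ j)) := by
    unfold FF
    refine Finset.sum_congr rfl fun σ _ => ?_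
    rw [h3 σ, ← mul_assoc, mul_smul_comm, (he _).2]
  rw [h4]
  unfold FF
  rw [← Finset.sum_fiberwise Finset.univ τ]
  refine Finset.sum_congr rfl fun ρ _ => ?_
  rw [Lmu_Cv, Finset.sum_map_toList, Finset.sum_mul]
  refine Finset.sum_congr rfl fun σ hσ => ?_
  rw [Lmu_Cvp, (Finset.mem_filter.1 hσ).2]

end

/-- **LMU.** -/
theorem thm_Lmu (hCfr : St_Cfr) (hLmc : St_Lmc) : St_Lmu := by
  intro n p N R _ _ e t₀ hCn hcr H hH
  by_cases htop : NonUnitalSubring.closure ({t₀} : Set R) = ⊤
  · exact Or.inl htop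
  right
  obtain ⟨b, hb, hmin⟩ : ∃ b, (∃ c : Equiv.Perm (Fin b) → List (ℤ × ℕ), 1 ≤ b ∧ b ≤ 5 ∧
      Gl n H b (FF e c) ∧ Ga n b (FF e c)) ∧ ∀ m, m < b →
      ¬ ∃ c : Equiv.Perm (Fin m) → List (ℤ × ℕ), 1 ≤ m ∧ m ≤ 5 ∧
      Gl n H m (FF e c) ∧ Ga n m (FF e c) := by
    classical
    have hex := (hLmc n p N R e t₀ hCn hcr H hH).resolve_left htop
    exact ⟨Nat.find hex, Nat.find_spec hex, fun m hm => Nat.find_min hex hm⟩
  obtain ⟨c, hb1, hb5, hGl, hGa⟩ := hb
  refine ⟨b, c, hb1, hb5, hGl, ?_⟩
  have hone := hCn.fr.one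
  have hpe : Nl (p • e) := Kdc_pe hCn.fr.cy hCn.fr.prm hone
  have hpec : ∀ r, (p • e) * r = r * (p • e) := fun r => by
    rw [smul_mul_assoc, mul_smul_comm, (hone r).1, (hone r).2]
  obtain ⟨J, hJ, hJn⟩ := CRL.jil n hCn.fr.cy.n4 R hCn.fr.cy.inM hCn.fr.cy.nt
  have hpeW : ∀ t, Frame R n 1 (fun _ => t) →
      p • e ∈ NonUnitalSubring.closure ({t} : Set R) := by
    intro t ht
    have h1 := (hCfr n p N R e t₀ hCn t ht).1.pn
    refine nsmul_mem ?_ p
    have h2 := Nac_pw (NonUnitalSubring.closure ({t} : Set R))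
      (NonUnitalSubring.subset_closure (Set.mem_singleton t)) (N - 1)
    rw [h1] at h2
    exact h2
  have hcl : ∀ (t : R) (x : Fin b → R) (i : Fin b), Frame R n 1 (fun _ => t) →
      (∀ j, Nl (x j)) → x i = p • e → FF e c t x = 0 := by
    intro t x i ht hx hxi
    by_contra hne
    obtain ⟨m, rfl⟩ : ∃ m, b = m + 1 := ⟨b - 1, by omega⟩
    rcases Nat.eq_zero_or_pos m with hm | hm
    · subst hm
      have h2 : NonUnitalSubring.closure ({t} ∪ Set.range x) = ⊤ := by
        by_contra h3
        exact hne (hGl.van t x ht hx h3)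
      apply htop
      have h3 : NonUnitalSubring.closure ({t} : Set R) = ⊤ := by
        rw [eq_top_iff, ← h2, NonUnitalSubring.closure_le]
        rintro z (hz | ⟨j, rfl⟩)
        · exact NonUnitalSubring.subset_closure hz
        · have h4 : j = i := Fin.ext (by omega)
          rw [h4, hxi]
          exact hpeW t ht
      have h4 := (hCfr n p N R e t₀ hCn t ht).2.2.2.2 ∅
      rw [Set.union_empty, Set.union_empty] at h4
      rw [← h4, h3]
    · obtain ⟨c', hc'⟩ := Lmu_red hone p hm c i
      have hins : ∀ x' : Fin m → R, (∀ j, Nl (x' j)) →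
          ∀ j, Nl ((Fin.insertNth i (p • e) x' : Fin (m + 1) → R) j) := by
        intro x' hx' j
        rcases Fin.eq_self_or_eq_succAbove i j with rfl | ⟨k, rfl⟩
        · rw [Fin.insertNth_apply_same]
          exact hpe
        · rw [Fin.insertNth_apply_succAbove]
          exact hx' k
      refine hmin m (Nat.lt_succ_self m) ⟨c', hm, by omega, ⟨?_, ?_, ?_⟩, ⟨?_, ?_⟩⟩
      · intro t' x' ht' hx'
        rw [← hc']
        exact hGl.val t' _ ht' (hins x' hx')
      · intro t' x' ht' hx' hS
        rw [← hc']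
        refine hGl.van t' _ ht' (hins x' hx') fun h => hS ?_
        rw [eq_top_iff, ← h, NonUnitalSubring.closure_le]
        rintro z (hz | ⟨j, rfl⟩)
        · exact NonUnitalSubring.subset_closure (Or.inl hz)
        · rcases Fin.eq_self_or_eq_succAbove i j with rfl | ⟨k, rfl⟩
          · rw [Fin.insertNth_apply_same]
            exact NonUnitalSubring.closure_mono Set.subset_union_left (hpeW t' ht')
          · rw [Fin.insertNth_apply_succAbove]
            exact NonUnitalSubring.subset_closure (Or.inr ⟨k, rfl⟩)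
      · refine ⟨t, fun j => x (i.succAbove j), ht, fun j => hx _, ?_⟩
        rw [← hc', ← hxi]
        have h5 : (Fin.insertNth i (x i) (fun j => x (i.succAbove j)) : Fin (m + 1) → R) = x :=
          Fin.insertNth_self_removeNth i x
        rw [h5]
        exact hne
      · intro t' x' ht' hx' j u v hu hv
        rw [← hc', ← hc', ← hc', Fin.insertNth_update, Fin.insertNth_update, Fin.insertNth_update]
        exact hGa.add t' _ ht' (hins x' hx') (i.succAbove j) u v hu hv
      · intro t' x' ht' hx' j u v hu hv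
        rw [← hc', Fin.insertNth_update]
        exact hGa.prd t' _ ht' (hins x' hx') (i.succAbove j) u v hu hv
  intro t x ht hx i hxi
  obtain ⟨V, hV⟩ := Lmu_FF hone hb1 c t x i
  have hcen : ∀ w ∈ NonUnitalSubring.closure ({t} : Set R), ∀ r, w * r = r * w := by
    intro w hw
    induction hw using NonUnitalSubring.closure_induction with
    | mem w hw =>
      rw [Set.mem_singleton_iff.1 hw]
      exact (hCfr n p N R e t₀ hCn t ht).2.1
    | zero =>
      intro r
      rw [zero_mul, mul_zero]
    | add a d _ _ ha hd =>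
      intro r
      rw [add_mul, mul_add, ha, hd]
    | neg a _ ha =>
      intro r
      rw [neg_mul, mul_neg, ha]
    | mul a d _ _ ha hd =>
      intro r
      rw [mul_assoc, hd, ← mul_assoc, ha, mul_assoc]
  have hupd : ∀ u, Nl u → ∀ j, Nl (Function.update x i u j) := by
    intro u hu j
    by_cases h : j = i
    · rw [h, Function.update_self]
      exact hu
    · rw [Function.update_of_ne h]
      exact hx j
  have hV0 : (p • e) * V = 0 := by
    rw [← hV _ hpec]
    exact hcl t _ i ht (hupd _ hpe) (Function.update_self _ _ _)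
  have hG0 : FF e c t (Function.update x i 0) = 0 := by
    have h1 := hGa.add t x ht hx i 0 0 ((hJn 0).1 J.zero_mem) ((hJn 0).1 J.zero_mem)
    rw [add_zero] at h1
    exact left_eq_add.1 h1
  have hKN : ∀ u ∈ KJ R p, Nl u := by
    intro u hu
    refine (hJn u).1 ?_
    have h1 : KJ R p ≤ J := by
      unfold KJ
      rw [AddSubgroup.closure_le]
      rintro w (⟨a, d, ha, hd, rfl⟩ | ⟨a, rfl⟩)
      · exact (hJ a d ((hJn d).2 hd)).1
      · have h2 : p • a = (p • e) * a := by rw [smul_mul_assoc, (hone a).1]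
        rw [h2]
        exact (hJ a _ ((hJn _).2 hpe)).2
    exact h1 hu
  have hmain : ∀ u ∈ KJ R p, FF e c t (Function.update x i u) = 0 := by
    intro u hu
    refine AddSubgroup.closure_induction (p := fun u _ => FF e c t (Function.update x i u) = 0)
      ?_ hG0 ?_ ?_ hu
    · rintro u (⟨a, d, ha, hd, rfl⟩ | ⟨a, rfl⟩)
      · exact hGa.prd t x ht hx i a d ha hd
      · obtain ⟨d, hd, hda⟩ := CRL.gen n p R hCn.fr.cy 1 (fun _ => t) ht a
        have hw : (∑ i, d i) ∈ NonUnitalSubring.closure ({t} : Set R) := by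
          refine sum_mem fun i _ => ?_
          rcases hd i with h | ⟨k, h⟩
          · rw [h]
            exact zero_mem _
          · rw [h]
            exact Nac_pw _ (NonUnitalSubring.subset_closure (Set.mem_singleton t)) k
        have e1 : p • a = (∑ i, d i) * (p • e) + (p • e) * (a - ∑ i, d i) := by
          rw [mul_smul_comm, smul_mul_assoc, (hone _).1, (hone _).2, ← smul_add,
            add_sub_cancel]
        have hz : ∀ r, (∑ i, d i) * (p • e) * r = r * ((∑ i, d i) * (p • e)) := by
          intro r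
          rw [mul_assoc, hpec r, ← mul_assoc, hcen _ hw r, mul_assoc]
        rw [e1, hGa.add t x ht hx i _ _ ((hJn _).1 (hJ _ _ ((hJn _).2 hpe)).1)
          ((hJn _).1 (hJ _ _ ((hJn _).2 hda)).1), hGa.prd t x ht hx i _ _ hpe hda, add_zero,
          hV _ hz, mul_assoc, hV0, mul_zero]
    · intro u v hu hv hu0 hv0
      rw [hGa.add t x ht hx i u v (hKN u hu) (hKN v hv), hu0, hv0, add_zero]
    · intro u hu hu0
      have hN : Nl u := hKN u hu
      have h1 := hGa.add t x ht hx i u (-u) hN ((hJn _).1 (neg_mem ((hJn _).2 hN)))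
      rw [add_neg_cancel, hG0, hu0, zero_add] at h1
      exact h1.symm
  have h1 := hmain (x i) hxi
  rw [Function.update_eq_self] at h1
  exact h1

end Pool.Agent.CRQ
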