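import Pool.Agent.CRQ.St
import Pool.Agent.CRM.All
import Pool.Agent.CRK.Cvn

/-!
Campaign CRQ, module Ntb (helper44): rings of the nilpotent type are critical.
-/

set_option autoImplicit false

namespace Pool.Agent.CRQ

open Pool.Agent.CRR Pool.Agent.CRN Pool.Agent.CRK Pool.Agent.CRL Pool.Agent.CRM Pool.Agent.CRP

theorem Ntb_stp {R : Type} [NonUnitalRing R] {g m : ℕ} (j : Fin m → Fin g) :
    TmF (R := R) (fun v => stp (fun k : Fin m => v (j k))) := by
  unfold stp
  refine Cvn_TmF_sum _ _ fun σ => Cvn_TmF_zsmul ?_ _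
  have h1 := Cvn_TmF_wp (R := R) (List.ofFn fun i => ((j (σ i) : Fin g) : ℕ))
  simpa only [List.map_ofFn, Function.comp_def] using h1

theorem Ntb_fun {R : Type} [NonUnitalRing R] (g : ℕ) (f : (Fin g → R) → R)
    (hf : KFun ℤ g f) : TmF (R := R) (fun v => f (fun i : Fin g => v i)) := by
  have hs := Cvn_TmF_stp R g
  rcases hf with ⟨m, h⟩ | ⟨a, b, i, h⟩ | ⟨m, i, h⟩ | ⟨a, b, i, j, -, -, h⟩ | ⟨m, i, j, -, -, h⟩ |
    ⟨m, i, j, -, -, -, h⟩ | ⟨a, b, i, j, -, -, -, h⟩
  · simpa only [h] using Cvn_TmF_zsmul hs m
  · have h1 := (Cvn_TmF_zsmul ((TmF.var (R := R) i).mul hs) a).add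
      (Cvn_TmF_zsmul (hs.mul (TmF.var (R := R) i)) b)
    simpa only [h] using h1
  · have h1 := Cvn_TmF_zsmul (((TmF.var (R := R) i).mul (TmF.var (R := R) i)).mul hs) m
    simpa only [h] using h1
  · have hi := TmF.var (R := R) i
    have hj := TmF.var (R := R) j
    have h1 := (Cvn_TmF_zsmul (((hi.mul hi).mul hj).mul hj) a).add
      (Cvn_TmF_zsmul (((hi.mul hj).mul hi).mul hj) b)
    simpa only [h] using h1
  · have hi := TmF.var (R := R) i
    have hj := TmF.var (R := R) j
    have h1 := Cvn_TmF_zsmul ((((hi.mul hi).mul hj).mul hi).mul hj) m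
    simpa only [h] using h1
  · have hi := TmF.var (R := R) i
    have h1 := Cvn_TmF_zsmul (hi.mul (Ntb_stp j)) m
    simpa only [h] using h1
  · have hi := TmF.var (R := R) i
    have h1 := (Cvn_TmF_zsmul (hi.mul hs) a).add (Cvn_TmF_zsmul ((hi.mul hi).mul (Ntb_stp j)) b)
    simpa only [h] using h1

theorem Ntb_comb {R : Type} [NonUnitalRing R] {g : ℕ} (x : Fin g → R) (j : Fin g) (y : R)
    (hy : y ∈ AddSubgroup.closure {w | ∃ i, i < j ∧ w = x i}) :
    ∃ c : Fin g → ℤ, c j = 0 ∧ y = ∑ i, c i • x i := by
  classical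
  induction hy using AddSubgroup.closure_induction with
  | mem y hy =>
    obtain ⟨i, hi, rfl⟩ := hy
    refine ⟨fun k => if k = i then 1 else 0, if_neg (ne_of_gt hi), ?_⟩
    simp
  | zero => exact ⟨fun _ => 0, rfl, by simp⟩
  | add a b _ _ ha hb =>
    obtain ⟨c, hc, h1⟩ := ha
    obtain ⟨d, hd, h2⟩ := hb
    refine ⟨fun i => c i + d i, by show c j + d j = 0; rw [hc, hd, add_zero], ?_⟩
    rw [h1, h2, ← Finset.sum_add_distrib]
    exact Finset.sum_congr rfl fun i _ => (add_smul _ _ _).symm
  | neg a _ ha =>
    obtain ⟨c, hc, h1⟩ := ha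
    refine ⟨fun i => -c i, by show -c j = 0; rw [hc, neg_zero], ?_⟩
    rw [h1, ← Finset.sum_neg_distrib]
    exact Finset.sum_congr rfl fun i _ => (neg_smul _ _).symm

theorem Ntb_kj {R : Type} [NonUnitalRing R] (p : ℕ) (m : ℤ) (a : R) (h : (p : ℤ) ∣ m) :
    m • a ∈ KJ R p := by
  obtain ⟨k, rfl⟩ := h
  refine AddSubgroup.subset_closure (Or.inr ⟨k • a, ?_⟩)
  rw [mul_smul, natCast_zsmul]

/-- The relation, solved for `x l`. -/
theorem Ntb_rel {R : Type} [NonUnitalRing R] {g : ℕ} (p : ℕ) (f : (Fin g → R) → R)
    (hinv : ∀ x y : Fin g → R, (∀ i, x i - y i ∈ KJ R p) → f x = f y)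
    (l₀ : Fin g → Prop)
    (hl₀ : ∀ (x : Fin g → R) (l : Fin g) (μ : Fin g → ℤ), l₀ l → μ l = 0 →
      x l = ∑ k, μ k • x k → f x = 0)
    (x : Fin g → R) (l : Fin g) (hl : l₀ l) (μ : Fin g → ℤ) (hμ : μ l = 0)
    (hx : x l - ∑ k, μ k • x k ∈ KJ R p) : f x = 0 := by
  classical
  have h1 : f x = f (Function.update x l (∑ k, μ k • x k)) := by
    apply hinv
    intro i
    by_cases hi : i = l
    · subst hi
      rwa [Function.update_self]
    · rw [Function.update_of_ne hi, sub_self]
      exact AddSubgroup.zero_mem _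
  rw [h1]
  refine hl₀ _ l μ hl hμ ?_
  rw [Function.update_self]
  refine Finset.sum_congr rfl fun k _ => ?_
  by_cases hk : k = l
  · subst hk
    rw [hμ, zero_smul, zero_smul]
  · rw [Function.update_of_ne hk]

/-- **NTB.** -/
theorem thm_Ntb (hKdp : St_Kdp) : St_Ntb := by
  classical
  intro R _ _ _ hN
  obtain ⟨h3, p, H, hp, hpr, hH, g, f, hf, ⟨y, hy⟩, hval, x0, hx0⟩ := hN
  have hcy : Cy R 4 p := by
    refine ⟨le_rfl, ?_, ?_, hp, hpr⟩
    · intro x
      show x * x * x = x * x * x * x
      rw [h3, zero_mul]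
    · rintro ⟨a, b, _, h2, h4⟩
      apply h4
      have h5 := h3 (a * b)
      calc a = a * b * (a * b * (a * b * a)) := by rw [h2, h2, h2]
        _ = (a * b) * (a * b) * (a * b) * a := by simp only [mul_assoc]
        _ = 0 := by rw [h5, zero_mul]
  have hytop : KJ R p ⊔ AddSubgroup.closure (Set.range y) = ⊤ := by
    rw [eq_top_iff]
    rintro a -
    refine Nfb_cl h3 p y a ?_
    rw [hy]
    exact NonUnitalSubring.mem_top a
  have hdist : ∀ (x : Fin g → R) (i j : Fin g), i ≠ j → x i = x j → f x = 0 :=
    fun x => (hval x).2.2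
  have hinv : ∀ x y : Fin g → R, (∀ i, x i - y i ∈ KJ R p) → f x = f y :=
    fun x y h => (hval x).2.1 y h
  obtain ⟨hz, l₀, hl1, hl2⟩ := hKdp ℤ R h3 g f hf hdist
  have hvan : ∀ x : Fin g → R, NonUnitalSubring.closure (Set.range x) ≠ ⊤ → f x = 0 := by
    intro x hx
    by_cases hall : ∀ j, x j ∉ KJ R p ⊔ AddSubgroup.closure {w | ∃ i, i < j ∧ w = x i}
    · exfalso
      apply hx
      have h1 := Nfb_dim hp x y hytop hall
      refine (kjf 4 p R hcy).1 0 (fun i => i.elim0) ?_ _ (fun i => i.elim0) ?_
      · refine ⟨fun i => i.elim0, fun i => i.elim0, fun i => i.elim0, fun i => i.elim0, ?_⟩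
        intro e he _
        have h2 := h3 e
        rwa [he, he] at h2
      · intro a _
        have ha : a ∈ KJ R p ⊔ AddSubgroup.closure (Set.range x) := by
          rw [h1]
          exact AddSubgroup.mem_top _
        obtain ⟨k, hk, s, hs, rfl⟩ := AddSubgroup.mem_sup.1 ha
        refine ⟨s, ?_, by rwa [add_sub_cancel_right]⟩
        have h4 : AddSubgroup.closure (Set.range x) ≤
            (NonUnitalSubring.closure (Set.range x)).toAddSubgroup := by
          rw [AddSubgroup.closure_le]
          exact NonUnitalSubring.subset_closure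
        exact h4 hs
    · push Not at hall
      obtain ⟨j, hj⟩ := hall
      obtain ⟨κ, hκ, s, hs, hks⟩ := AddSubgroup.mem_sup.1 hj
      obtain ⟨c, hcj, rfl⟩ := Ntb_comb x j s hs
      by_cases hj0 : l₀ j
      · refine Ntb_rel p f hinv l₀ hl2 x j hj0 c hcj ?_
        rw [← hks, add_sub_cancel_right]
        exact hκ
      · by_cases hex : ∃ l, ¬ (p : ℤ) ∣ c l
        · obtain ⟨l, hl⟩ := hex
          have hlj : l ≠ j := by
            rintro rfl
            exact hl (by rw [hcj]; exact dvd_zero _)
          have hl0 : l₀ l := by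
            by_contra h
            exact hlj (hl1 l j h hj0)
          have hcop : IsCoprime (c l) (p : ℤ) := by
            have h5 := (Nat.prime_iff_prime_int.1 hp)
            exact (Prime.coprime_iff_not_dvd h5).2 hl |>.symm
          obtain ⟨u, v, huv⟩ := hcop
          refine Ntb_rel p f hinv l₀ hl2 x l hl0
            (fun k => if k = l then 0 else if k = j then u else -(u * c k)) (if_pos rfl) ?_
          have h6 : ∑ k, (if k = l then 0 else if k = j then u else -(u * c k)) • x k =
              u • x j - u • (∑ k, c k • x k) + (u * c l) • x l := by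
            have h7 : ∀ k, (if k = l then 0 else if k = j then u else -(u * c k)) • x k =
                (if k = j then u • x j else 0) - u • (c k • x k) +
                  (if k = l then (u * c l) • x l else 0) := by
              intro k
              by_cases h8 : k = l
              · subst h8
                rw [if_pos rfl, if_neg hlj, if_pos rfl, zero_smul, mul_smul]
                abel
              · rw [if_neg h8, if_neg h8]
                by_cases h9 : k = j
                · subst h9
                  rw [if_pos rfl, if_pos rfl, hcj, zero_smul, smul_zero, sub_zero, add_zero]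
                · rw [if_neg h9, if_neg h9, neg_smul, mul_smul]
                  abel
            rw [Finset.sum_congr rfl fun k _ => h7 k, Finset.sum_add_distrib,
              Finset.sum_sub_distrib, ← Finset.smul_sum, Finset.sum_ite_eq', Finset.sum_ite_eq',
              if_pos (Finset.mem_univ _), if_pos (Finset.mem_univ _)]
          rw [h6]
          have h10 : x l - (u • x j - u • (∑ k, c k • x k) + (u * c l) • x l) =
              -(u • κ) + (v * (p : ℤ)) • x l := by
            have h11 : v * (p : ℤ) = 1 - u * c l := by linarith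
            rw [h11, sub_smul, one_smul, ← hks, smul_add]
            abel
          rw [h10]
          refine AddSubgroup.add_mem _ (AddSubgroup.neg_mem _ (AddSubgroup.zsmul_mem _ hκ _)) ?_
          exact Ntb_kj p _ _ (dvd_mul_left _ _)
        · push Not at hex
          have h12 : x j ∈ KJ R p := by
            rw [← hks]
            refine AddSubgroup.add_mem _ hκ (AddSubgroup.sum_mem _ fun k _ => ?_)
            exact Ntb_kj p _ _ (hex k)
          have h13 : f x = f (Function.update x j 0) := by
            apply hinv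
            intro i
            by_cases hi : i = j
            · subst hi
              rw [Function.update_self, sub_zero]
              exact h12
            · rw [Function.update_of_ne hi, sub_self]
              exact AddSubgroup.zero_mem _
          rw [h13]
          exact hz _ j (Function.update_self _ _ _)
  have hxs : (fun i : Fin g => xs x0 i) = x0 := by
    funext i
    unfold xs
    rw [dif_pos i.2]
  refine thm_Crg R H hH (fun v => f (fun i : Fin g => v i)) (Ntb_fun g f hf)
    (fun v => (hval _).1) ⟨xs x0, ?_⟩ ?_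
  · show f (fun i : Fin g => xs x0 i) ≠ 0
    rw [hxs]
    exact hx0
  · intro S hS v hv
    show f (fun i : Fin g => v i) = 0
    apply hvan
    intro h
    apply hS
    rw [eq_top_iff, ← h, NonUnitalSubring.closure_le]
    rintro _ ⟨i, rfl⟩
    exact hv _

end Pool.Agent.CRQ
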