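import Pool.Agent.CRQ.St
import Pool.Agent.CRK.All

/-!
Campaign CRQ, module Ntf: critical nilpotent rings of order prime to 6 are of the type `NilT`.
-/

set_option autoImplicit false

namespace Pool.Agent.CRQ

open Pool.Agent.CRR Pool.Agent.CRN Pool.Agent.CRK Pool.Agent.CRL Pool.Agent.CRM Pool.Agent.CRP

/-- A multilinear function which is zero if an argument is in `K` depends only on the arguments
modulo `K`. -/
theorem Ntf_mod {R : Type} [NonUnitalRing R] {b : ℕ} {φ : (Fin b → R) → R} (h : ML b φ)
    (K : AddSubgroup R) (hs : ∀ (x : Fin b → R) (i : Fin b), x i ∈ K → φ x = 0) (x y : Fin b → R)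
    (hxy : ∀ i, x i - y i ∈ K) : φ x = φ y := by
  have h1 : ∀ s : Finset (Fin b), φ (fun i => if i ∈ s then y i else x i) = φ x := by
    intro s
    induction s using Finset.induction_on with
    | empty => simp
    | insert k s hk ih =>
      rw [← ih]
      have h2 : ∀ z : R, (fun i => if i ∈ insert k s then (if i = k then z else y i) else x i) =
          Function.update (fun i => if i ∈ s then y i else x i) k z := by
        intro z
        funext i
        by_cases hi : i = k
        · subst hi
          simp
        · simp [hi]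
      have h3 : (fun i => if i ∈ insert k s then y i else x i) =
          Function.update (fun i => if i ∈ s then y i else x i) k (y k) := by
        rw [← h2]
        funext i
        by_cases hi : i = k
        · subst hi
          simp
        · simp [hi]
      have h4 : (fun i => if i ∈ s then y i else x i) =
          Function.update (fun i => if i ∈ s then y i else x i) k (x k) := by
        funext i
        by_cases hi : i = k
        · subst hi
          simp [hk]
        · simp [hi]
      have h5 := hs (Function.update (fun i => if i ∈ s then y i else x i) k (x k - y k)) k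
        (by rw [Function.update_self]; exact hxy k)
      rw [ML_sub h, sub_eq_zero] at h5
      rw [h3, ← h5, ← h4]
  have h2 := h1 Finset.univ
  rw [← h2]
  simp

/-- the function is zero if an argument is in `KJ R p` -/
theorem Ntf_kj {R : Type} [NonUnitalRing R] {H : AddSubgroup R} {b : ℕ} {φ : (Fin b → R) → R}
    (hG : Gm H b φ) (hH : Lst R H) (p r : ℕ) (hr : ∀ x : R, (p ^ r) • x = 0) (x : Fin b → R)
    (i : Fin b) (hx : x i ∈ KJ R p) : φ x = 0 := by
  have key : ∀ w ∈ KJ R p, φ (Function.update x i w) = 0 := by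
    intro w hw
    induction hw using AddSubgroup.closure_induction with
    | mem w hw =>
      rcases hw with ⟨a, c, _, _, rfl⟩ | ⟨a, rfl⟩
      · refine hG.sq _ i ?_
        rw [Function.update_self]
        exact AddSubgroup.subset_closure ⟨a, c, rfl⟩
      · have h1 : φ (Function.update x i ((p : ℤ) • a)) = (p : ℤ) • φ (Function.update x i a) :=
          (MLmap hG.ml).map_update_smul x i (p : ℤ) a
        rw [natCast_zsmul] at h1
        rw [h1]
        exact thm_Phz R H hH p r hr _ (hG.val _)
    | zero => exact ML_zero hG.ml x i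
    | add u v _ _ h1 h2 => rw [ML_add hG.ml, h1, h2, add_zero]
    | neg u _ h1 => rw [ML_neg hG.ml, h1, neg_zero]
  have h2 := key (x i) hx
  rwa [Function.update_eq_self] at h2

/-- two equal arguments -/
theorem Ntf_two {R : Type} [NonUnitalRing R] {b g : ℕ} {φ : (Fin b → R) → R} (hF : Fn b g φ)
    (ι : Fin b → Fin g) (x : Fin g → R) (i j : Fin g) (hij : i ≠ j) (hx : x i = x j) :
    φ (fun t => x (ι t)) = 0 := by
  cases g with
  | zero => exact i.elim0
  | succ k =>
    have hm : ∀ t : Fin (k + 1), ∃ m : Fin k, x (i.succAbove m) = x t := by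
      intro t
      by_cases ht : t = i
      · obtain ⟨m, hm⟩ := Fin.exists_succAbove_eq hij.symm
        exact ⟨m, by rw [hm, ht, hx]⟩
      · obtain ⟨m, hm⟩ := Fin.exists_succAbove_eq ht
        exact ⟨m, by rw [hm]⟩
    choose m hm using hm
    have h1 := hF.van k (Nat.lt_succ_self k) (fun t => x (i.succAbove t)) (fun t => m (ι t))
    have h2 : (fun t => x (ι t)) = fun t => x (i.succAbove (m (ι t))) := by
      funext t
      rw [hm]
    rw [h2]
    exact h1

theorem thm_Ntf (hKcs : St_Kcs) : St_Ntf := by
  intro R _ _ hnz hcop hC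
  have hN : N6 R := ⟨hnz, fun x hx => Fwm_cop hcop x (by exact_mod_cast hx)⟩
  obtain ⟨H, hH⟩ := thm_Sir R hC
  obtain ⟨p, r, hp, hr, -⟩ := thm_Ppw R H hH
  obtain ⟨b, φ, hb1, hb5, hG⟩ := mlt R hN hC H hH
  obtain ⟨g, hz, hF⟩ := thm_Bas R H b φ hG
  have hK : KFn ℤ b g φ := ⟨hF.ml, hF.van, hF.ne⟩
  obtain ⟨f, N, ι, hf, hfφ, hne⟩ := hKcs ℤ R hN b g φ hb1 hb5 hK
  refine ⟨hnz, p, H, hp, ⟨r, hr⟩, hH, g, f, hf, hz, fun x => ⟨?_, fun y hxy => ?_, fun i j hij hx => ?_⟩,
    hne⟩
  · rw [hfφ]
    exact H.zsmul_mem (hG.val _) N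
  · rw [hfφ, hfφ, Ntf_mod hG.ml (KJ R p) (fun x i hx => Ntf_kj hG hH p r hr x i hx) _ _
      (fun t => hxy (ι t))]
  · rw [hfφ, Ntf_two hF ι x i j hij hx, smul_zero]

end Pool.Agent.CRQ
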