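import Pool.Agent.CRP.All
import Pool.Agent.CRQ.Cfr
import Pool.Agent.CRQ.Fin
import Pool.Agent.CRQ.Kca
import Pool.Agent.CRQ.Kcb
import Pool.Agent.CRQ.Kcc
import Pool.Agent.CRQ.Kcd
import Pool.Agent.CRQ.Kcf
import Pool.Agent.CRQ.Kcg
import Pool.Agent.CRQ.Kch
import Pool.Agent.CRQ.Kci
import Pool.Agent.CRQ.Kcs
import Pool.Agent.CRQ.Kdp
import Pool.Agent.CRQ.Klt
import Pool.Agent.CRQ.Koa
import Pool.Agent.CRQ.Kta
import Pool.Agent.CRQ.Kwa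
import Pool.Agent.CRQ.Kxa
import Pool.Agent.CRQ.Kxb
import Pool.Agent.CRQ.Lca
import Pool.Agent.CRQ.Lcb
import Pool.Agent.CRQ.Lmb
import Pool.Agent.CRQ.Lmc
import Pool.Agent.CRQ.Lmu
import Pool.Agent.CRQ.Ntb
import Pool.Agent.CRQ.Ntf

/-!
Campaign CRQ: the theorems without hypotheses (problem MP_1bb14d_al).
-/

set_option autoImplicit false

namespace Pool.Agent.CRQ

open Pool.Agent.CRR Pool.Agent.CRN Pool.Agent.CRK Pool.Agent.CRL Pool.Agent.CRM Pool.Agent.CRP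

theorem kcs : St_Kcs := thm_Kcs thm_Kta thm_Kca (thm_Kcb thm_Klt) (thm_Kcc thm_Kxa)
  (thm_Kcd thm_Kxa) (thm_Kcf thm_Koa) (thm_Kcg thm_Kwa) (thm_Kch thm_Kxb) (thm_Kci thm_Kxb)
theorem ntf : St_Ntf := thm_Ntf kcs
theorem ntb : St_Ntb := thm_Ntb thm_Kdp
theorem lmb : St_Lmb := thm_Lmb thm_Cfr
theorem lmc : St_Lmc := thm_Lmc thm_Cfr lmb
theorem lmu : St_Lmu := thm_Lmu thm_Cfr lmc
theorem lca : St_Lca := thm_Lca thm_Cfr lmu kcs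
theorem lcb : St_Lcb := thm_Lcb thm_Cfr thm_Kdp
/-- The theorem. -/
theorem fin : St_Fin := thm_Fin CRP.mfp CRP.thm_Cfb CRP.lfx lca lcb ntf ntb

end Pool.Agent.CRQ
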