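import Pool.Agent.CRP.Mfp
import Pool.Agent.CRK.All

/-!
Campaign CRQ: critical rings of order prime to 6 (problem MP_1bb14d_al).  Definitions.
-/

set_option autoImplicit false

namespace Pool.Agent.CRQ

open Pool.Agent.CRR Pool.Agent.CRN Pool.Agent.CRK Pool.Agent.CRL Pool.Agent.CRM Pool.Agent.CRP

section kdefs

variable (K : Type) [CommRing K] {A : Type} [NonUnitalRing A] [Module K A]

/-- The functions of the list (`s_k` the standard polynomial, `m, a, b` coefficients): `m s_g`; `a x_i s_g + b s_g x_i`;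
`m x_i^2 s_g`; for `g = 2` also `a x^2 y^2 + b x y x y` and `m x^2 y x y`, where `{x, y} = {x_0, x_1}`; for `g = 5` also
`m x_i s_4(others)`; for `g = 4` also `a x_i s_4 + b x_i^2 s_3(others)`. -/
def KFun (g : ℕ) (f : (Fin g → A) → A) : Prop :=
  (∃ m : K, ∀ x, f x = m • stp x) ∨
  (∃ (a b : K) (i : Fin g), ∀ x, f x = a • (x i * stp x) + b • (stp x * x i)) ∨
  (∃ (m : K) (i : Fin g), ∀ x, f x = m • (x i * x i * stp x)) ∨
  (∃ (a b : K) (i j : Fin g), g = 2 ∧ i ≠ j ∧
    ∀ x, f x = a • (x i * x i * x j * x j) + b • (x i * x j * x i * x j)) ∨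
  (∃ (m : K) (i j : Fin g), g = 2 ∧ i ≠ j ∧ ∀ x, f x = m • (x i * x i * x j * x i * x j)) ∨
  (∃ (m : K) (i : Fin g) (j : Fin 4 → Fin g), g = 5 ∧ Function.Injective j ∧ (∀ k, j k ≠ i) ∧
    ∀ x, f x = m • (x i * stp fun k => x (j k))) ∨
  ∃ (a b : K) (i : Fin g) (j : Fin 3 → Fin g), g = 4 ∧ Function.Injective j ∧ (∀ k, j k ≠ i) ∧
    ∀ x, f x = a • (x i * stp x) + b • (x i * x i * stp fun k => x (j k))

/-- Multilinear functions with coefficients in `K`. -/
def KML (b : ℕ) (φ : (Fin b → A) → A) : Prop :=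
  ∃ c : Equiv.Perm (Fin b) → K, ∀ x, φ x = ∑ σ, c σ • wp (List.ofFn fun i => x (σ i))

/-- As `Fn`. -/
structure KFn (b g : ℕ) (φ : (Fin b → A) → A) : Prop where
  ml : KML K b φ
  van : ∀ k, k < g → ∀ (a : Fin k → A) (j : Fin b → Fin k), φ (fun t => a (j t)) = 0
  ne : ∃ (z : Fin g → A) (i : Fin b → Fin g), Function.Surjective i ∧ φ (fun t => z (i t)) ≠ 0

/-- As `Fp`. -/
structure KFp (b g : ℕ) (q : Fin b → Fin g) (φ : (Fin b → A) → A) : Prop where
  ml : KML K b φ
  van : ∀ k, k < g → ∀ (a : Fin k → A) (j : Fin b → Fin k), φ (fun t => a (j t)) = 0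
  ne : ∃ z : Fin g → A, φ (fun t => z (q t)) ≠ 0

/-- The result of the case analysis. -/
def KOut (b g : ℕ) (φ : (Fin b → A) → A) : Prop :=
  ∃ (f : (Fin g → A) → A) (N : ℤ) (i : Fin b → Fin g), KFun K g f ∧
    (∀ x, f x = N • φ (fun t => x (i t))) ∧ ∃ x, f x ≠ 0

end kdefs

section wdefs

variable {A : Type} [NonUnitalRing A]

/-- The alternating sum over the orders of `a_0, a_1, a_2` of the words with two letters `x` at two positions. -/
def W2 (i : Fin 5) (j : Fin 4) (x : A) (a : Fin 3 → A) : A :=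
  ∑ π : Equiv.Perm (Fin 3), ((Equiv.Perm.sign π : ℤˣ) : ℤ) •
    wp (List.ofFn (Fin.insertNth i x (Fin.insertNth j x (fun k => a (π k)) : Fin 4 → A) :
      Fin 5 → A))

end wdefs

section ldefs

variable {R : Type} [NonUnitalRing R]

/-- The functions of the list for local rings: the coefficients are integral combinations of powers of `t`. -/
def LocFun (e : R) (g : ℕ) (f : R → (Fin g → R) → R) : Prop :=
  (∃ m : List (ℤ × ℕ), ∀ t x, f t x = Cv m e t * stp x) ∨
  (∃ (a b : List (ℤ × ℕ)) (i : Fin g), ∀ t x,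
    f t x = Cv a e t * (x i * stp x) + Cv b e t * (stp x * x i)) ∨
  (∃ (m : List (ℤ × ℕ)) (i : Fin g), ∀ t x, f t x = Cv m e t * (x i * x i * stp x)) ∨
  (∃ (a b : List (ℤ × ℕ)) (i j : Fin g), g = 2 ∧ i ≠ j ∧ ∀ t x,
    f t x = Cv a e t * (x i * x i * x j * x j) + Cv b e t * (x i * x j * x i * x j)) ∨
  (∃ (m : List (ℤ × ℕ)) (i j : Fin g), g = 2 ∧ i ≠ j ∧ ∀ t x,
    f t x = Cv m e t * (x i * x i * x j * x i * x j)) ∨
  (∃ (m : List (ℤ × ℕ)) (i : Fin g) (j : Fin 4 → Fin g), g = 5 ∧ Function.Injective j ∧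
    (∀ k, j k ≠ i) ∧ ∀ t x, f t x = Cv m e t * (x i * stp fun k => x (j k))) ∨
  ∃ (a b : List (ℤ × ℕ)) (i : Fin g) (j : Fin 3 → Fin g), g = 4 ∧ Function.Injective j ∧
    (∀ k, j k ≠ i) ∧ ∀ t x,
    f t x = Cv a e t * (x i * stp x) + Cv b e t * (x i * x i * stp fun k => x (j k))

variable (R)

/-- The nilpotent type for order prime to 6: `x^3 = 0`, the order of `R` is a power of a prime `p`, there is a least
nonzero ideal `H`, and for some `g` the ring is generated by `g` elements and one of the functions of the list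
(`KFun`) has values in `H`, is not zero, depends only on the arguments modulo `R^2 + p R`, and is zero if two
arguments are equal. -/
def NilT : Prop := (∀ x : R, x * x * x = 0) ∧ ∃ (p : ℕ) (H : AddSubgroup R),
  p.Prime ∧ (∃ r : ℕ, ∀ x : R, (p ^ r) • x = 0) ∧ Lst R H ∧
  ∃ (g : ℕ) (f : (Fin g → R) → R), KFun ℤ g f ∧
    (∃ z : Fin g → R, NonUnitalSubring.closure (Set.range z) = ⊤) ∧
    (∀ x, f x ∈ H ∧ (∀ y, (∀ i, x i - y i ∈ KJ R p) → f x = f y) ∧
      ∀ i j : Fin g, i ≠ j → x i = x j → f x = 0) ∧ ∃ x, f x ≠ 0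

/-- The central local type for order prime to 6: `R` is a local ring with identity, its order is a power of `p`,
`H` is its least nonzero ideal, `t₀` is a central frame, and `R` is generated by `t₀`, or by `t₀` and `g` nil elements, and
one of the functions of the list (`LocFun`) has for every frame `t` and all nil `x_i` its value in `H`, is not always zero,
depends only on the `x_i` modulo `J^2 + p R`, and is zero if two of the `x_i` are equal. -/
def CenT (n : ℕ) : Prop := ∃ (p : ℕ) (e t₀ : R) (H : AddSubgroup R), Lcx R n p e t₀ H ∧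
  (∀ r, t₀ * r = r * t₀) ∧ (NonUnitalSubring.closure ({t₀} : Set R) = ⊤ ∨
    ∃ (g : ℕ) (f : R → (Fin g → R) → R), LocFun e g f ∧
    (∃ z : Fin g → R, (∀ i, Nl (z i)) ∧ NonUnitalSubring.closure ({t₀} ∪ Set.range z) = ⊤) ∧
    (∀ (t : R) (x : Fin g → R), Frame R n 1 (fun _ => t) → (∀ i, Nl (x i)) → f t x ∈ H ∧
      (∀ y : Fin g → R, (∀ i, Nl (y i) ∧ x i - y i ∈ KJ R p) → f t x = f t y) ∧
      ∀ i j : Fin g, i ≠ j → x i = x j → f t x = 0) ∧
    ∃ (t : R) (x : Fin g → R), Frame R n 1 (fun _ => t) ∧ (∀ i, Nl (x i)) ∧ f t x ≠ 0)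

variable {R}

/-! ### Definitions used only in the proofs -/

/-- A central local ring of order prime to 6. -/
structure Cn0 (n p N : ℕ) (e t₀ : R) : Prop where
  fr : Lfr n p N e t₀
  cen : ∀ r : R, t₀ * r = r * t₀
  six : (Nat.card R).Coprime 6

/-- The properties of a function of a frame and `b` nil elements. -/
structure Gl (n : ℕ) (H : AddSubgroup R) (b : ℕ) (F : R → (Fin b → R) → R) : Prop where
  val : ∀ (t : R) (x : Fin b → R), Frame R n 1 (fun _ => t) → (∀ i, Nl (x i)) → F t x ∈ H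
  van : ∀ (t : R) (x : Fin b → R), Frame R n 1 (fun _ => t) → (∀ i, Nl (x i)) →
    NonUnitalSubring.closure ({t} ∪ Set.range x) ≠ ⊤ → F t x = 0
  ne : ∃ (t : R) (x : Fin b → R), Frame R n 1 (fun _ => t) ∧ (∀ i, Nl (x i)) ∧ F t x ≠ 0

/-- `F` is additive in the nil arguments and zero if one is a product of two nil elements. -/
structure Ga (n : ℕ) (b : ℕ) (F : R → (Fin b → R) → R) : Prop where
  add : ∀ (t : R) (x : Fin b → R), Frame R n 1 (fun _ => t) → (∀ i, Nl (x i)) →
    ∀ (j : Fin b) (u v : R), Nl u → Nl v → F t (Function.update x j (u + v)) =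
      F t (Function.update x j u) + F t (Function.update x j v)
  prd : ∀ (t : R) (x : Fin b → R), Frame R n 1 (fun _ => t) → (∀ i, Nl (x i)) →
    ∀ (j : Fin b) (u v : R), Nl u → Nl v → F t (Function.update x j (u * v)) = 0

/-- The multilinear function with the coefficients `c`. -/
def FF (e : R) {b : ℕ} (c : Equiv.Perm (Fin b) → List (ℤ × ℕ)) (t : R) (x : Fin b → R) : R :=
  ∑ σ, Cv (c σ) e t * wp (List.ofFn fun i => x (σ i))

end ldefs

end Pool.Agent.CRQ
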