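import Pool.Agent.CRQ.Defs

/-!
Campaign CRQ: the types of the final theorem for orders which are powers of 2 or 3 (problem MP_1bb14d_al).
Definitions.
-/

set_option autoImplicit false

namespace Pool.Agent.CRQ

open Pool.Agent.CRR Pool.Agent.CRN Pool.Agent.CRK Pool.Agent.CRL Pool.Agent.CRM Pool.Agent.CRP

variable (R : Type) [NonUnitalRing R]

/-- The nilpotent type for powers of 2 and 3: `x^3 = 0`, the order of `R` is a power of `p = 2` or `p = 3`, `R` has a
least nonzero ideal `H`, it is generated by some `g` elements, and there is a combination `f` of words in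
`x_1, ..., x_g`, in which every `x_i` occurs once, twice or three times, such that all values of `f` are in `H`, not
all are zero, and a value `f(x_1, ..., x_g)` does not change if `x_j` is replaced by `x_j + y`, `y` an element of
`R^2 + p R` plus a combination of the `x_i`, `i < j`. -/
def NilF : Prop := (∀ x : R, x * x * x = 0) ∧ ∃ (p : ℕ) (H : AddSubgroup R),
  (p = 2 ∨ p = 3) ∧ (∃ r : ℕ, ∀ x : R, (p ^ r) • x = 0) ∧ Lst R H ∧
  ∃ (g : ℕ) (L : List (ℤ × List ℕ)),
    (∃ x : Fin g → R, NonUnitalSubring.closure (Set.range x) = ⊤) ∧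
    (∀ q ∈ L, q.2 ≠ [] ∧ (∀ i, i ∈ q.2 ↔ i < g) ∧ ∀ i, q.2.count i ≤ 3) ∧
    (∀ x : Fin g → R, Vg L x ∈ H ∧ ∀ (j : Fin g) (y : R),
      y ∈ KJ R p ⊔ AddSubgroup.closure {w | ∃ i, i < j ∧ w = x i} →
      Vg L (Function.update x j (x j + y)) = Vg L x) ∧
    ∃ x : Fin g → R, Vg L x ≠ 0

/-- The central local type for powers of 2 and 3: `R` is a local ring with identity, its order is a power of
`p = 2` or `p = 3`, it has a least nonzero ideal `H`, it is generated by a central frame and `g` nil elements, and by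
no fewer than `g` elements, and there is a combination `f` of words `t^d w`, `d ≤ n - 3`, `w` a word in `x_1, ..., x_g` in
which every `x_i` occurs once, twice or three times, such that for every frame `t` and all `x_i` in the radical `J`
the value `f(t, x)` is in `H`, is not always zero, and does not change if `x_j` is replaced by `x_j + y`, `y` an element
of `J^2 + p R` plus a sum of elements `u x_i`, `i < j`, `u` in the subring generated by `t`. -/
def CenF (n : ℕ) : Prop := (∃ e : R, Prm R e ∧ ∀ x, e * x = x ∧ x * e = x) ∧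
  ∃ (p : ℕ) (H : AddSubgroup R), (p = 2 ∨ p = 3) ∧ (∃ r : ℕ, ∀ x : R, (p ^ r) • x = 0) ∧ Lst R H ∧
  ∃ (g : ℕ) (L : List (ℤ × ℕ × List ℕ)),
    (∀ (k : ℕ) (y : Fin k → R), NonUnitalSubring.closure (Set.range y) = ⊤ → g ≤ k) ∧
    (∃ (t : R) (x : Fin g → R), Frame R n 1 (fun _ => t) ∧ (∀ r, t * r = r * t) ∧ (∀ i, Nl (x i)) ∧
      NonUnitalSubring.closure ({t} ∪ Set.range x) = ⊤) ∧
    (∀ q ∈ L, q.2.1 ≤ n - 3 ∧ 1 ≤ q.2.1 + q.2.2.length ∧ (∀ i, i ∈ q.2.2 ↔ i < g) ∧
      ∀ i, q.2.2.count i ≤ 3) ∧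
    (∀ (t : R) (x : Fin g → R), Frame R n 1 (fun _ => t) → (∀ i, Nl (x i)) →
      Vl L t x ∈ H ∧ ∀ (j : Fin g) (y : R),
      y ∈ KJ R p ⊔ AddSubgroup.closure
        {w | ∃ i, i < j ∧ ∃ u ∈ NonUnitalSubring.closure ({t} : Set R), w = u * x i} →
      Vl L t (Function.update x j (x j + y)) = Vl L t x) ∧
    ∃ (t : R) (x : Fin g → R), Frame R n 1 (fun _ => t) ∧ (∀ i, Nl (x i)) ∧ Vl L t x ≠ 0

end Pool.Agent.CRQ
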