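import Pool.Agent.CRQ.St

/-!
Campaign CRQ, module Kwa: the alternating sums of the words with two `x` (helper73).
-/

set_option autoImplicit false

namespace Pool.Agent.CRQ

open Pool.Agent.CRR Pool.Agent.CRN Pool.Agent.CRK Pool.Agent.CRL Pool.Agent.CRM Pool.Agent.CRP

/-- The alternating sum of a function of three arguments. -/
def KwaS {A : Type} [NonUnitalRing A] (F : A → A → A → A) (a : Fin 3 → A) : A :=
  F (a 0) (a 1) (a 2) - F (a 1) (a 0) (a 2) - F (a 2) (a 1) (a 0) - F (a 0) (a 2) (a 1) +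
    F (a 1) (a 2) (a 0) + F (a 2) (a 0) (a 1)

theorem Kwa_W2 {A : Type} [NonUnitalRing A] (i : Fin 5) (j : Fin 4) (x : A) (a : Fin 3 → A) :
    W2 i j x a = KwaS (fun b c d => wp (List.ofFn (Fin.insertNth i x
      (Fin.insertNth j x (![b, c, d] : Fin 3 → A) : Fin 4 → A) : Fin 5 → A))) a := by
  have h (π : Equiv.Perm (Fin 3)) : (fun k => a (π k)) = ![a (π 0), a (π 1), a (π 2)] := by
    funext k
    fin_cases k <;> rfl
  unfold W2
  simp only [h]
  exact Wib_sum (fun π => wp (List.ofFn (Fin.insertNth i x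
      (Fin.insertNth j x (![a (π 0), a (π 1), a (π 2)] : Fin 3 → A) : Fin 4 → A) : Fin 5 → A)))

theorem Kwa_stp {A : Type} [NonUnitalRing A] (x : A) (a : Fin 3 → A) :
    stp (Fin.cons x a : Fin 4 → A) = KwaS (fun b c d => x * (b * (c * d))) a -
      KwaS (fun b c d => b * (x * (c * d))) a + KwaS (fun b c d => b * (c * (x * d))) a -
      KwaS (fun b c d => b * (c * (d * x))) a := by
  unfold stp
  rw [← Equiv.sum_comp (Equiv.Perm.decomposeFin.symm : Fin 4 × Equiv.Perm (Fin 3) ≃ Equiv.Perm (Fin 4)),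
    Fintype.sum_prod_type, Fin.sum_univ_four]
  have h (p : Fin 4) : ∑ e : Equiv.Perm (Fin 3),
      ((Equiv.Perm.sign (Equiv.Perm.decomposeFin.symm (p, e)) : ℤˣ) : ℤ) •
        wp (List.ofFn fun i => (Fin.cons x a : Fin 4 → A) (Equiv.Perm.decomposeFin.symm (p, e) i)) =
      ((if p = 0 then 1 else -1 : ℤˣ) : ℤ) • ∑ e : Equiv.Perm (Fin 3), ((Equiv.Perm.sign e : ℤˣ) : ℤ) •
        wp (List.ofFn fun i => (Fin.cons x a : Fin 4 → A) (Equiv.Perm.decomposeFin.symm (p, e) i)) := by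
    rw [Finset.smul_sum]
    refine Finset.sum_congr rfl fun e _ => ?_
    rw [Equiv.Perm.decomposeFin.symm_sign, smul_smul]
    congr 1
  rw [h 0, h 1, h 2, h 3]
  have E (σ : Equiv.Perm (Fin 4)) (q : Fin 4 → Fin 4) (hq : ∀ k, σ k = q k) :
      wp (List.ofFn fun i => (Fin.cons x a : Fin 4 → A) (σ i)) =
        (Fin.cons x a : Fin 4 → A) (q 0) * ((Fin.cons x a : Fin 4 → A) (q 1) *
          ((Fin.cons x a : Fin 4 → A) (q 2) * (Fin.cons x a : Fin 4 → A) (q 3))) := by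
    rw [← hq 0, ← hq 1, ← hq 2, ← hq 3]
    rfl
  rw [Wib_sum, Wib_sum, Wib_sum, Wib_sum]
  rw [E (Equiv.Perm.decomposeFin.symm (0, 1)) ![0, 1, 2, 3] (by decide),
    E (Equiv.Perm.decomposeFin.symm (0, Equiv.swap 0 1)) ![0, 2, 1, 3] (by decide),
    E (Equiv.Perm.decomposeFin.symm (0, Equiv.swap 0 2)) ![0, 3, 2, 1] (by decide),
    E (Equiv.Perm.decomposeFin.symm (0, Equiv.swap 1 2)) ![0, 1, 3, 2] (by decide),
    E (Equiv.Perm.decomposeFin.symm (0, Equiv.swap 0 1 * Equiv.swap 1 2)) ![0, 2, 3, 1] (by decide),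
    E (Equiv.Perm.decomposeFin.symm (0, Equiv.swap 1 2 * Equiv.swap 0 1)) ![0, 3, 1, 2] (by decide),
    E (Equiv.Perm.decomposeFin.symm (1, 1)) ![1, 0, 2, 3] (by decide),
    E (Equiv.Perm.decomposeFin.symm (1, Equiv.swap 0 1)) ![1, 2, 0, 3] (by decide),
    E (Equiv.Perm.decomposeFin.symm (1, Equiv.swap 0 2)) ![1, 3, 2, 0] (by decide),
    E (Equiv.Perm.decomposeFin.symm (1, Equiv.swap 1 2)) ![1, 0, 3, 2] (by decide),
    E (Equiv.Perm.decomposeFin.symm (1, Equiv.swap 0 1 * Equiv.swap 1 2)) ![1, 2, 3, 0] (by decide),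
    E (Equiv.Perm.decomposeFin.symm (1, Equiv.swap 1 2 * Equiv.swap 0 1)) ![1, 3, 0, 2] (by decide),
    E (Equiv.Perm.decomposeFin.symm (2, 1)) ![2, 1, 0, 3] (by decide),
    E (Equiv.Perm.decomposeFin.symm (2, Equiv.swap 0 1)) ![2, 0, 1, 3] (by decide),
    E (Equiv.Perm.decomposeFin.symm (2, Equiv.swap 0 2)) ![2, 3, 0, 1] (by decide),
    E (Equiv.Perm.decomposeFin.symm (2, Equiv.swap 1 2)) ![2, 1, 3, 0] (by decide),
    E (Equiv.Perm.decomposeFin.symm (2, Equiv.swap 0 1 * Equiv.swap 1 2)) ![2, 0, 3, 1] (by decide),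
    E (Equiv.Perm.decomposeFin.symm (2, Equiv.swap 1 2 * Equiv.swap 0 1)) ![2, 3, 1, 0] (by decide),
    E (Equiv.Perm.decomposeFin.symm (3, 1)) ![3, 1, 2, 0] (by decide),
    E (Equiv.Perm.decomposeFin.symm (3, Equiv.swap 0 1)) ![3, 2, 1, 0] (by decide),
    E (Equiv.Perm.decomposeFin.symm (3, Equiv.swap 0 2)) ![3, 0, 2, 1] (by decide),
    E (Equiv.Perm.decomposeFin.symm (3, Equiv.swap 1 2)) ![3, 1, 0, 2] (by decide),
    E (Equiv.Perm.decomposeFin.symm (3, Equiv.swap 0 1 * Equiv.swap 1 2)) ![3, 2, 0, 1] (by decide),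
    E (Equiv.Perm.decomposeFin.symm (3, Equiv.swap 1 2 * Equiv.swap 0 1)) ![3, 0, 1, 2] (by decide)]
  have s0 : ((if (0 : Fin 4) = 0 then 1 else -1 : ℤˣ) : ℤ) = 1 := by decide
  have s1 : ((if (1 : Fin 4) = 0 then 1 else -1 : ℤˣ) : ℤ) = -1 := by decide
  have s2 : ((if (2 : Fin 4) = 0 then 1 else -1 : ℤˣ) : ℤ) = -1 := by decide
  have s3 : ((if (3 : Fin 4) = 0 then 1 else -1 : ℤˣ) : ℤ) = -1 := by decide
  rw [s0, s1, s2, s3]
  have c0 : (Fin.cons x a : Fin 4 → A) 0 = x := rfl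
  have c1 : (Fin.cons x a : Fin 4 → A) 1 = a 0 := rfl
  have c2 : (Fin.cons x a : Fin 4 → A) 2 = a 1 := rfl
  have c3 : (Fin.cons x a : Fin 4 → A) 3 = a 2 := rfl
  simp only [Matrix.cons_val_zero, Matrix.cons_val_one, Matrix.cons_val, c0, c1, c2, c3, KwaS, one_smul, neg_smul]
  abel

/-- The relations between the alternating sums. -/
theorem Kwa_rel {A : Type} [NonUnitalRing A] (hN : N6 A) (x : A) (a : Fin 3 → A)
    (A01 A02 A03 A04 A12 A13 A14 A23 A24 A34 : A)
    (h01 : A01 = KwaS (fun b c d => x * (x * (b * (c * d)))) a)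
    (h02 : A02 = KwaS (fun b c d => x * (b * (x * (c * d)))) a)
    (h03 : A03 = KwaS (fun b c d => x * (b * (c * (x * d)))) a)
    (h04 : A04 = KwaS (fun b c d => x * (b * (c * (d * x)))) a)
    (h12 : A12 = KwaS (fun b c d => b * (x * (x * (c * d)))) a)
    (h13 : A13 = KwaS (fun b c d => b * (x * (c * (x * d)))) a)
    (h14 : A14 = KwaS (fun b c d => b * (x * (c * (d * x)))) a)
    (h23 : A23 = KwaS (fun b c d => b * (c * (x * (x * d)))) a)
    (h24 : A24 = KwaS (fun b c d => b * (c * (x * (d * x)))) a)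
    (h34 : A34 = KwaS (fun b c d => b * (c * (d * (x * x)))) a) :
    A04 = 0 ∧ A13 = 0 ∧ A03 = (-2 : ℤ) • A01 - A02 ∧ A14 = (2 : ℤ) • A01 + A02 ∧
    A23 = A01 + A02 ∧ A24 = -A02 ∧ A34 = -A01 ∧ A12 = -A01 - A02 := by
  obtain ⟨_, _, hP, hQ⟩ := CRK.ida A hN
  have anti (F : A → A → A → A) (hF : ∀ b c d, F b c d = 0) : KwaS F a = 0 := by
    unfold KwaS
    simp only [hF]
    abel
  have R1 : A01 + A02 + A12 = 0 := by
    have e := anti (fun b c d => (x * x * b + x * b * x + b * x * x) * (c * d))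
      (fun b c d => by simp only [hQ, zero_mul])
    rw [h01, h02, h12, ← e]
    simp only [KwaS, add_mul, mul_assoc]
    abel
  have R2 : A01 + A03 + A23 = 0 := by
    have e := anti (fun b c d => (x * x * (b * c) + x * (b * c) * x + (b * c) * x * x) * d)
      (fun b c d => by simp only [hQ, zero_mul])
    rw [h01, h03, h23, ← e]
    simp only [KwaS, add_mul, mul_assoc]
    abel
  have R3 : A01 + A04 + A34 = 0 := by
    have e := anti (fun b c d => (x * x * (b * c * d) + x * (b * c * d) * x + (b * c * d) * x * x))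
      (fun b c d => by simp only [hQ])
    rw [h01, h04, h34, ← e]
    simp only [KwaS, mul_assoc]
    abel
  have R8 : (2 : ℤ) • A01 + A02 + A03 + (2 : ℤ) • A04 = 0 := by
    have e := anti (fun b c d => x * (x * b * (c * d) + x * (c * d) * b + b * x * (c * d) +
        b * (c * d) * x + (c * d) * x * b + (c * d) * b * x))
      (fun b c d => by simp only [hP, mul_zero])
    rw [h01, h02, h03, h04, ← e]
    simp only [KwaS, mul_add, mul_assoc, two_zsmul]
    abel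
  have R15 : A12 + A13 + A23 = 0 := by
    have e := anti (fun b c d => b * (x * x * c + x * c * x + c * x * x) * d)
      (fun b c d => by simp only [hQ, mul_zero, zero_mul])
    rw [h12, h13, h23, ← e]
    simp only [KwaS, mul_add, add_mul, mul_assoc]
    abel
  have R16 : A12 + A14 + A34 = 0 := by
    have e := anti (fun b c d => b * (x * x * (c * d) + x * (c * d) * x + (c * d) * x * x))
      (fun b c d => by simp only [hQ, mul_zero])
    rw [h12, h14, h34, ← e]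
    simp only [KwaS, mul_add, mul_assoc]
    abel
  have R19 : A23 + A24 + A34 = 0 := by
    have e := anti (fun b c d => b * c * (x * x * d + x * d * x + d * x * x))
      (fun b c d => by simp only [hQ, mul_zero])
    rw [h23, h24, h34, ← e]
    simp only [KwaS, mul_add, mul_assoc]
    abel
  have R13 : A03 - A04 - A12 + A13 + A14 - A23 = 0 := by
    have e := anti (fun b c d => (x * b) * (c * x) * d + (x * b) * d * (c * x) + (c * x) * (x * b) * d +
        (c * x) * d * (x * b) + d * (x * b) * (c * x) + d * (c * x) * (x * b))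
      (fun b c d => hP _ _ _)
    rw [h03, h04, h12, h13, h14, h23, ← e]
    simp only [KwaS, mul_assoc]
    abel
  have z4 : A04 = 0 := by
    apply hN.tf
    linear_combination (norm := module) (-3 : ℤ) • R1 - (2 : ℤ) • R2 - R3 + (3 : ℤ) • R8 + R15 + R16 - R13
  have z12 : A12 = -A01 - A02 := by
    linear_combination (norm := module) R1
  have z34 : A34 = -A01 := by
    linear_combination (norm := module) R3 - z4
  have z03 : A03 = (-2 : ℤ) • A01 - A02 := by
    linear_combination (norm := module) R8 - (2 : ℤ) • z4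
  have z23 : A23 = A01 + A02 := by
    linear_combination (norm := module) R2 - z03
  have z13 : A13 = 0 := by
    linear_combination (norm := module) R15 - z12 - z23
  have z14 : A14 = (2 : ℤ) • A01 + A02 := by
    linear_combination (norm := module) R16 - z12 - z34
  have z24 : A24 = -A02 := by
    linear_combination (norm := module) R19 - z23 - z34
  exact ⟨z4, z13, z03, z14, z23, z24, z34, z12⟩

theorem Kwa_mul {A : Type} [NonUnitalRing A] (x : A) (F : A → A → A → A) (a : Fin 3 → A) :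
    x * KwaS F a = KwaS (fun b c d => x * F b c d) a := by
  simp only [KwaS, mul_add, mul_sub]

theorem Kwa_st3 {A : Type} [NonUnitalRing A] (a : Fin 3 → A) :
    stp a = KwaS (fun b c d => b * (c * d)) a :=
  Wib_sum (fun π => wp (List.ofFn fun i => a (π i)))

theorem Kwa_key {A : Type} [NonUnitalRing A] (hN : N6 A) (x : A) (a : Fin 3 → A) :
    (2 : ℤ) • KwaS (fun b c d => x * (x * (b * (c * d)))) a =
      (0 : ℤ) • (x * stp (Fin.cons x a : Fin 4 → A)) + (2 : ℤ) • (x * x * stp a) ∧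
    (2 : ℤ) • KwaS (fun b c d => x * (b * (x * (c * d)))) a =
      (-1 : ℤ) • (x * stp (Fin.cons x a : Fin 4 → A)) + (-1 : ℤ) • (x * x * stp a) ∧
    (2 : ℤ) • KwaS (fun b c d => x * (b * (c * (x * d)))) a =
      (1 : ℤ) • (x * stp (Fin.cons x a : Fin 4 → A)) + (-3 : ℤ) • (x * x * stp a) ∧
    (2 : ℤ) • KwaS (fun b c d => x * (b * (c * (d * x)))) a =
      (0 : ℤ) • (x * stp (Fin.cons x a : Fin 4 → A)) + (0 : ℤ) • (x * x * stp a) ∧
    (2 : ℤ) • KwaS (fun b c d => b * (x * (x * (c * d)))) a =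
      (1 : ℤ) • (x * stp (Fin.cons x a : Fin 4 → A)) + (-1 : ℤ) • (x * x * stp a) ∧
    (2 : ℤ) • KwaS (fun b c d => b * (x * (c * (x * d)))) a =
      (0 : ℤ) • (x * stp (Fin.cons x a : Fin 4 → A)) + (0 : ℤ) • (x * x * stp a) ∧
    (2 : ℤ) • KwaS (fun b c d => b * (x * (c * (d * x)))) a =
      (-1 : ℤ) • (x * stp (Fin.cons x a : Fin 4 → A)) + (3 : ℤ) • (x * x * stp a) ∧
    (2 : ℤ) • KwaS (fun b c d => b * (c * (x * (x * d)))) a =
      (-1 : ℤ) • (x * stp (Fin.cons x a : Fin 4 → A)) + (1 : ℤ) • (x * x * stp a) ∧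
    (2 : ℤ) • KwaS (fun b c d => b * (c * (x * (d * x)))) a =
      (1 : ℤ) • (x * stp (Fin.cons x a : Fin 4 → A)) + (1 : ℤ) • (x * x * stp a) ∧
    (2 : ℤ) • KwaS (fun b c d => b * (c * (d * (x * x)))) a =
      (0 : ℤ) • (x * stp (Fin.cons x a : Fin 4 → A)) + (-2 : ℤ) • (x * x * stp a) := by
  obtain ⟨z4, z13, z03, z14, z23, z24, z34, z12⟩ := Kwa_rel hN x a _ _ _ _ _ _ _ _ _ _
    rfl rfl rfl rfl rfl rfl rfl rfl rfl rfl
  have e3 : x * x * stp a = KwaS (fun b c d => x * (x * (b * (c * d)))) a := by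
    rw [Kwa_st3, Kwa_mul]
    simp only [mul_assoc]
  have e4 : x * stp (Fin.cons x a : Fin 4 → A) = KwaS (fun b c d => x * (x * (b * (c * d)))) a -
      KwaS (fun b c d => x * (b * (x * (c * d)))) a + KwaS (fun b c d => x * (b * (c * (x * d)))) a -
      KwaS (fun b c d => x * (b * (c * (d * x)))) a := by
    rw [Kwa_stp, mul_sub, mul_add, mul_sub, Kwa_mul, Kwa_mul, Kwa_mul, Kwa_mul]
  rw [z4, z03] at e4
  rw [z4, z13, z03, z14, z23, z24, z34, z12, e3, e4]
  refine ⟨?_, ?_, ?_, ?_, ?_, ?_, ?_, ?_, ?_, ?_⟩ <;> module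

theorem thm_Kwa : St_Kwa := by
  intro A _ hN i j
  have key := fun (x : A) (a : Fin 3 → A) => Kwa_key hN x a
  fin_cases i <;> fin_cases j
  · refine ⟨0, 2, fun x a => ?_⟩
    obtain ⟨k1, k2, k3, k4, k5, k6, k7, k8, k9, k10⟩ := key x a
    have hw : W2 0 0 x a = KwaS (fun b c d => x * (x * (b * (c * d)))) a := Kwa_W2 0 0 x a
    change (2 : ℤ) • W2 0 0 x a = _
    rw [hw]
    exact k1
  · refine ⟨(-1), (-1), fun x a => ?_⟩
    obtain ⟨k1, k2, k3, k4, k5, k6, k7, k8, k9, k10⟩ := key x a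
    have hw : W2 0 1 x a = KwaS (fun b c d => x * (b * (x * (c * d)))) a := Kwa_W2 0 1 x a
    change (2 : ℤ) • W2 0 1 x a = _
    rw [hw]
    exact k2
  · refine ⟨1, (-3), fun x a => ?_⟩
    obtain ⟨k1, k2, k3, k4, k5, k6, k7, k8, k9, k10⟩ := key x a
    have hw : W2 0 2 x a = KwaS (fun b c d => x * (b * (c * (x * d)))) a := Kwa_W2 0 2 x a
    change (2 : ℤ) • W2 0 2 x a = _
    rw [hw]
    exact k3
  · refine ⟨0, 0, fun x a => ?_⟩
    obtain ⟨k1, k2, k3, k4, k5, k6, k7, k8, k9, k10⟩ := key x a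
    have hw : W2 0 3 x a = KwaS (fun b c d => x * (b * (c * (d * x)))) a := Kwa_W2 0 3 x a
    change (2 : ℤ) • W2 0 3 x a = _
    rw [hw]
    exact k4
  · refine ⟨0, 2, fun x a => ?_⟩
    obtain ⟨k1, k2, k3, k4, k5, k6, k7, k8, k9, k10⟩ := key x a
    have hw : W2 1 0 x a = KwaS (fun b c d => x * (x * (b * (c * d)))) a := Kwa_W2 1 0 x a
    change (2 : ℤ) • W2 1 0 x a = _
    rw [hw]
    exact k1
  · refine ⟨1, (-1), fun x a => ?_⟩
    obtain ⟨k1, k2, k3, k4, k5, k6, k7, k8, k9, k10⟩ := key x a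
    have hw : W2 1 1 x a = KwaS (fun b c d => b * (x * (x * (c * d)))) a := Kwa_W2 1 1 x a
    change (2 : ℤ) • W2 1 1 x a = _
    rw [hw]
    exact k5
  · refine ⟨0, 0, fun x a => ?_⟩
    obtain ⟨k1, k2, k3, k4, k5, k6, k7, k8, k9, k10⟩ := key x a
    have hw : W2 1 2 x a = KwaS (fun b c d => b * (x * (c * (x * d)))) a := Kwa_W2 1 2 x a
    change (2 : ℤ) • W2 1 2 x a = _
    rw [hw]
    exact k6
  · refine ⟨(-1), 3, fun x a => ?_⟩
    obtain ⟨k1, k2, k3, k4, k5, k6, k7, k8, k9, k10⟩ := key x a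
    have hw : W2 1 3 x a = KwaS (fun b c d => b * (x * (c * (d * x)))) a := Kwa_W2 1 3 x a
    change (2 : ℤ) • W2 1 3 x a = _
    rw [hw]
    exact k7
  · refine ⟨(-1), (-1), fun x a => ?_⟩
    obtain ⟨k1, k2, k3, k4, k5, k6, k7, k8, k9, k10⟩ := key x a
    have hw : W2 2 0 x a = KwaS (fun b c d => x * (b * (x * (c * d)))) a := Kwa_W2 2 0 x a
    change (2 : ℤ) • W2 2 0 x a = _
    rw [hw]
    exact k2
  · refine ⟨1, (-1), fun x a => ?_⟩
    obtain ⟨k1, k2, k3, k4, k5, k6, k7, k8, k9, k10⟩ := key x a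
    have hw : W2 2 1 x a = KwaS (fun b c d => b * (x * (x * (c * d)))) a := Kwa_W2 2 1 x a
    change (2 : ℤ) • W2 2 1 x a = _
    rw [hw]
    exact k5
  · refine ⟨(-1), 1, fun x a => ?_⟩
    obtain ⟨k1, k2, k3, k4, k5, k6, k7, k8, k9, k10⟩ := key x a
    have hw : W2 2 2 x a = KwaS (fun b c d => b * (c * (x * (x * d)))) a := Kwa_W2 2 2 x a
    change (2 : ℤ) • W2 2 2 x a = _
    rw [hw]
    exact k8
  · refine ⟨1, 1, fun x a => ?_⟩
    obtain ⟨k1, k2, k3, k4, k5, k6, k7, k8, k9, k10⟩ := key x a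
    have hw : W2 2 3 x a = KwaS (fun b c d => b * (c * (x * (d * x)))) a := Kwa_W2 2 3 x a
    change (2 : ℤ) • W2 2 3 x a = _
    rw [hw]
    exact k9
  · refine ⟨1, (-3), fun x a => ?_⟩
    obtain ⟨k1, k2, k3, k4, k5, k6, k7, k8, k9, k10⟩ := key x a
    have hw : W2 3 0 x a = KwaS (fun b c d => x * (b * (c * (x * d)))) a := Kwa_W2 3 0 x a
    change (2 : ℤ) • W2 3 0 x a = _
    rw [hw]
    exact k3
  · refine ⟨0, 0, fun x a => ?_⟩
    obtain ⟨k1, k2, k3, k4, k5, k6, k7, k8, k9, k10⟩ := key x a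
    have hw : W2 3 1 x a = KwaS (fun b c d => b * (x * (c * (x * d)))) a := Kwa_W2 3 1 x a
    change (2 : ℤ) • W2 3 1 x a = _
    rw [hw]
    exact k6
  · refine ⟨(-1), 1, fun x a => ?_⟩
    obtain ⟨k1, k2, k3, k4, k5, k6, k7, k8, k9, k10⟩ := key x a
    have hw : W2 3 2 x a = KwaS (fun b c d => b * (c * (x * (x * d)))) a := Kwa_W2 3 2 x a
    change (2 : ℤ) • W2 3 2 x a = _
    rw [hw]
    exact k8
  · refine ⟨0, (-2), fun x a => ?_⟩
    obtain ⟨k1, k2, k3, k4, k5, k6, k7, k8, k9, k10⟩ := key x a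
    have hw : W2 3 3 x a = KwaS (fun b c d => b * (c * (d * (x * x)))) a := Kwa_W2 3 3 x a
    change (2 : ℤ) • W2 3 3 x a = _
    rw [hw]
    exact k10
  · refine ⟨0, 0, fun x a => ?_⟩
    obtain ⟨k1, k2, k3, k4, k5, k6, k7, k8, k9, k10⟩ := key x a
    have hw : W2 4 0 x a = KwaS (fun b c d => x * (b * (c * (d * x)))) a := Kwa_W2 4 0 x a
    change (2 : ℤ) • W2 4 0 x a = _
    rw [hw]
    exact k4
  · refine ⟨(-1), 3, fun x a => ?_⟩
    obtain ⟨k1, k2, k3, k4, k5, k6, k7, k8, k9, k10⟩ := key x a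
    have hw : W2 4 1 x a = KwaS (fun b c d => b * (x * (c * (d * x)))) a := Kwa_W2 4 1 x a
    change (2 : ℤ) • W2 4 1 x a = _
    rw [hw]
    exact k7
  · refine ⟨1, 1, fun x a => ?_⟩
    obtain ⟨k1, k2, k3, k4, k5, k6, k7, k8, k9, k10⟩ := key x a
    have hw : W2 4 2 x a = KwaS (fun b c d => b * (c * (x * (d * x)))) a := Kwa_W2 4 2 x a
    change (2 : ℤ) • W2 4 2 x a = _
    rw [hw]
    exact k9
  · refine ⟨0, (-2), fun x a => ?_⟩
    obtain ⟨k1, k2, k3, k4, k5, k6, k7, k8, k9, k10⟩ := key x a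
    have hw : W2 4 3 x a = KwaS (fun b c d => b * (c * (d * (x * x)))) a := Kwa_W2 4 3 x a
    change (2 : ℤ) • W2 4 3 x a = _
    rw [hw]
    exact k10

end Pool.Agent.CRQ
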